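import Pool.Agent.H654R2.VWData

/-!
The key lemma.
-/

namespace Pool.Agent.H654R2

open Ordinal

theorem mul_lt_omega_one {a b : Ordinal.{0}} (ha : a < ω₁) (hb : b < ω₁) : a * b < ω₁ := by
  rw [← Cardinal.ord_aleph] at ha hb ⊢
  exact Ordinal.isPrincipal_mul_ord (Cardinal.aleph0_le_aleph 1) ha hb

theorem add_lt_omega_one {a b : Ordinal.{0}} (ha : a < ω₁) (hb : b < ω₁) : a + b < ω₁ := by
  rw [← Cardinal.ord_aleph] at ha hb ⊢
  exact Ordinal.isPrincipal_add_ord (Cardinal.aleph0_le_aleph 1) ha hb

theorem nat_lt_omega_one (n : ℕ) : (n : Ordinal.{0}) < ω₁ :=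
  (natCast_lt_omega0 n).trans omega0_lt_omega_one

theorem mu_lt_omega_one {β : Ordinal.{0}} (h : β < ω₁) : mu β < ω₁ :=
  mul_lt_omega_one (add_lt_omega_one omega0_lt_omega_one omega0_lt_omega_one) h

theorem nk_desc {m : ℕ} {o : Obj} (hv : Valid m o) : ∀ (k : ℕ) (c : List Bool),
    c.length + k ≤ m → ∃ s' : List Bool, s'.length = c.length + k ∧ c <:+ s' ∧
      o.κ s' (c.length + k) = o.κ c c.length ∧ ∀ j, j ≤ c.length → o.τ s' j = o.τ c j := by
  intro k
  induction k with
  | zero => intro c _; exact ⟨c, rfl, List.suffix_refl c, rfl, fun _ _ => rfl⟩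
  | succ k ih =>
    intro c hc
    obtain ⟨s', h1, h2, h3, h4⟩ := ih c (by omega)
    obtain ⟨b, hb1, hb2⟩ := hv.nk s' (by omega)
    refine ⟨b :: s', by simp [h1]; omega, h2.trans (List.suffix_cons b s'), ?_, ?_⟩
    · rw [← h3, show c.length + (k+1) = s'.length + 1 by omega, hb1, h1]
    · intro j hj
      rw [hb2 j (by omega), h4 j hj]

theorem ordinal_between {ν x : Ordinal.{0}} {l : ℕ} (h1 : ν ≤ x) (h2 : x < ν + l) :
    ∃ l' : ℕ, l' < l ∧ x = ν + l' := by
  obtain ⟨y, rfl⟩ := exists_add_of_le h1
  have hy : y < l := (add_lt_add_iff_left ν).1 h2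
  obtain ⟨n, hn⟩ := Ordinal.lt_omega0.1 (hy.trans (natCast_lt_omega0 l))
  subst hn
  exact ⟨n, by exact_mod_cast hy, rfl⟩

/-- the default step -/
noncomputable def defStep : StepData where
  yb := fun _ => false
  kt := fun _ => 0
  nb := fun _ => false
  nt := fun _ => 0
  orho := fun _ => 0
  ot := fun _ _ => ⊤

theorem defStep_ok {m : ℕ} {o : Obj} : StepOK m o defStep := by
  refine ⟨?_, ?_, ?_, ?_, ?_⟩
  · intro s _ h; exact absurd h.1 (by simp [defStep])
  · intro s _ h; exact absurd h.1 (by simp [defStep])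
  · intro s _; exact zero_le
  · intro s _ j _; exact Or.inr ⟨zero_le, zero_le⟩
  · intro s _ i _ _; exact Or.inr rfl

theorem defStep_tb {η : Ordinal.{0}} (hη : 0 < η) {m : ℕ} {o : Obj} (h : AllTB η m o) :
    AllTB η (m+1) (stepO m o defStep) :=
  h.stepO (fun _ _ => TB_zero hη) (fun _ _ => TB_zero hη) (fun _ _ => TB_zero hη)
    (fun _ _ _ _ => TB_top)

theorem defStep_sharp {m : ℕ} {o : Obj} {s : List Bool} {lam : ℕ → ℕ} (h : Sharp m o s lam) :
    Sharp (m+1) (stepO m o defStep) (false :: s) lam := by
  have hl := h.len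
  refine ⟨by simp [hl], ?_, ?_⟩
  · have e : (stepO m o defStep).κ (false :: s) (m+1) = o.κ s m := stepO_κ_nk (d := defStep) hl
    rw [e]; exact h.top
  · intro i h1 h2 h3
    rcases Nat.lt_succ_iff_lt_or_eq.1 h1 with h' | rfl
    · rw [bitAt_cons_lt (by omega)] at h2
      have e : (stepO m o defStep).τ (false :: s) (i+1) = o.τ s (i+1) :=
        stepO_τ_nk (d := defStep) hl (by omega)
      rw [e] at h3
      exact h.dec i h' h2 h3
    · rw [← hl, bitAt_cons_length] at h2
      exact absurd h2.1 (by simp)

/-- the splitting step -/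
noncomputable def splitStep (m : ℕ) (o : Obj) (s : List Bool) (lam : ℕ → ℕ)
    (ν : Ordinal.{0}) : StepData := by
  classical
  exact
  { yb := fun _ => false
    kt := fun _ => 0
    nb := fun _ => false
    nt := fun _ => 0
    orho := fun t => if t = s then (ν : Tag) else 0
    ot := fun t j => if t = s then (if j ≤ m then (if o.τ s j = ⊤ then
      ((ν + lam j : Ordinal.{0}) : Tag) else o.τ s j) else 0) else ⊤ }

theorem coe_le_coe_add {ν : Ordinal.{0}} {n : ℕ} : (ν : Tag) ≤ ((ν + n : Ordinal.{0}) : Tag) := by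
  have : ν ≤ ν + n := le_self_add
  exact_mod_cast this

theorem splitStep_ok {m : ℕ} {o : Obj} {s : List Bool} {lam : ℕ → ℕ} {ν : Ordinal.{0}}
    (hv : Valid m o) (hS : Sharp m o s lam) (hm : m % 2 = 0) (hb : AllTB ν m o) :
    StepOK m o (splitStep m o s lam ν) := by
  classical
  refine ⟨?_, ?_, ?_, ?_, ?_⟩
  · intro t _ h; exact absurd h.1 (by simp [splitStep])
  · intro t _ h; exact absurd h.1 (by simp [splitStep])
  · intro t ht
    by_cases h : t = s
    · subst h
      simp only [splitStep, if_true]
      rw [hS.top]; exact le_top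
    · simp [splitStep, h]
  · intro t ht j hj
    by_cases h : t = s
    · subst h
      simp only [splitStep, if_true, hj]
      by_cases h2 : o.τ t j = ⊤
      · simp only [h2, if_true]
        exact Or.inr ⟨coe_le_coe_add, le_top⟩
      · simp only [h2, if_false]
        exact sim_refl
    · simp only [splitStep, h, if_false]
      exact Or.inr ⟨zero_le, zero_le⟩
  · intro t ht i hi h
    by_cases h1 : t = s
    · subst h1
      have hb1 : (!(splitStep m o t lam ν).nb t) = true := by simp [splitStep]
      rw [hb1] at h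
      have him : i < m := by
        rcases Nat.lt_succ_iff_lt_or_eq.1 hi with h' | rfl
        · exact h'
        · have := h.2; omega
      rw [bitAt_cons_lt (by omega)] at h
      have hp := hv.tre t ht.le i (by omega) h
      have hpi : par i ≤ m := (par_le i).trans him.le
      have hi1 : i + 1 ≤ m := him
      simp only [splitStep, if_true, hi1, hpi]
      by_cases h2 : o.τ t (i+1) = ⊤
      · have h3 : o.τ t (par i) = ⊤ := by
          rcases hp with hp | hp
          · rw [h2] at hp; exact absurd hp (by simp)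
          · exact hp
        simp only [h2, h3, if_true]
        left
        have := hS.dec i him h h2
        have h4 : (ν + (lam (i+1) : ℕ) : Ordinal.{0}) < ν + (lam (par i) : ℕ) := by
          apply (add_lt_add_iff_left ν).2
          exact_mod_cast this
        exact_mod_cast h4
      · have hlt : o.τ t (i+1) < (ν : Tag) := by
          rcases hb.τ t (i+1) ht.le (by omega) with h' | h'
          · exact h'
          · exact absurd h' h2
        by_cases h3 : o.τ t (par i) = ⊤
        · simp only [h2, h3, if_true, if_false]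
          left
          exact lt_of_lt_of_le hlt coe_le_coe_add
        · simp only [h2, h3, if_false]
          exact hp
    · simp only [splitStep, h1, if_false]
      exact Or.inr rfl

theorem splitStep_tb {m : ℕ} {o : Obj} {s : List Bool} {lam : ℕ → ℕ} {ν : Ordinal.{0}}
    (hν : ν < ω₁) (hs : s.length = m) (hb : AllTB ω₁ m o) :
    AllTB ω₁ (m+1) (stepO m o (splitStep m o s lam ν)) := by
  classical
  have h0 : (0 : Ordinal.{0}) < ω₁ := omega0_pos.trans omega0_lt_omega_one
  refine hb.stepO ?_ ?_ ?_ ?_
  · intro t _; exact TB_zero h0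
  · intro t _; exact TB_zero h0
  · intro t _
    simp only [splitStep]
    split_ifs
    · left; exact_mod_cast hν
    · exact TB_zero h0
  · intro t _ j _
    simp only [splitStep]
    split_ifs with h1 h2 h3
    · left
      have := add_lt_omega_one hν (nat_lt_omega_one (lam j))
      exact_mod_cast this
    · exact hb.τ s j hs.le (by omega)
    · exact TB_zero h0
    · exact TB_top

end Pool.Agent.H654R2
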