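import Pool.Agent.H654R2.VWClaim

/-!
The key lemma, main part.
-/

namespace Pool.Agent.H654R2

open Ordinal

variable {A : Type} {Pr : Pt → A → A → Prop}

/-- the data collected for each `ν` -/
def Good (Pr : Pt → A → A → Prop) (p : Pt) (s : List Bool) (lam : ℕ → ℕ) (a : A)
    (ν : Ordinal.{0}) (x : (ℕ × Obj) × (List Bool × List ℕ × A)) : Prop :=
  x.1 ∈ CO ν ∧ Valid x.1.1 x.1.2 ∧ p.m ≤ x.1.1 ∧ Agree p.m x.1.2 p.o ∧ s <:+ x.2.1 ∧
    Sharp x.1.1 x.1.2 x.2.1 (fun j => x.2.2.1.getD j 0) ∧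
    (∀ j, j ≤ p.m → x.2.2.1.getD j 0 = lam j) ∧
    ∃ r : Pt, r.m = x.1.1 ∧ SimO (ν : Tag) r.m x.1.2 r.o ∧ Pr r x.2.2.2 a ∧
      HH Pt.le Pr ν r x.2.2.2

theorem good_exists {p : Pt} {s : List Bool} {lam : ℕ → ℕ} {a : A}
    (hS : Sharp p.m p.o s lam) (hm : p.m % 2 = 0) (hH : High Pt.le Pr p a) {ν : Ordinal.{0}}
    (hν : ν < ω₁) (hb : AllTB ν p.m p.o) :
    ∃ x : (ℕ × Obj) × (List Bool × List ℕ × A), Good Pr p s lam a ν x := by
  classical
  -- the split condition
  let d := splitStep p.m p.o s lam ν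
  let o1 := stepO p.m p.o d
  have ho1 : Agree p.m o1 p.o := agree_stepO
  let p1 : Pt := ⟨p.m + 1, o1, p.v.stepO (splitStep_ok p.v hS hm hb), splitStep_tb hν hS.len p.c⟩
  have hp1 : Pt.le p1 p := ⟨Nat.le_succ _, ho1⟩
  have h1 : HH Pt.le Pr (ν + 1) p1 a :=
    HH_mono (fun p q r => Pt.le_trans p q r) hp1 (hH _ (add_one_lt_omega_one hν))
  rw [HH_iff] at h1
  obtain ⟨r, hr, b, hrb, hHb⟩ := h1 ν (Order.lt_add_one_iff.2 le_rfl) p1 (Pt.le_refl _)
  have hrm : p.m + 1 ≤ r.m := hr.1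
  have hsl : s.length = p.m := hS.len
  -- the other child
  have hc1l : (true :: s).length = p.m + 1 := by simp [hsl]
  obtain ⟨k, hk⟩ := Nat.exists_eq_add_of_le hrm
  obtain ⟨s', hs'l, hs's, hs'κ, hs'τ⟩ := nk_desc r.v k (true :: s) (by rw [hc1l, ← hk])
  have hs'l' : s'.length = r.m := by rw [hs'l, hc1l, ← hk]
  have e1 : r.o.κ s' r.m = (ν : Tag) := by
    have : r.o.κ s' r.m = r.o.κ (true :: s) (p.m + 1) := by
      rw [hc1l, ← hk] at hs'κ; exact hs'κ
    rw [this, Agree.eκ hr.2 (s := true :: s) (i := p.m + 1) hc1l.le le_rfl]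
    have : (stepO p.m p.o d).κ (true :: s) (p.m+1) = d.orho s :=
      stepO_κ_other (d := d) hsl (by simp [d, splitStep])
    show (stepO p.m p.o d).κ (true :: s) (p.m+1) = _
    rw [this]; simp [d, splitStep]
  have e2 : ∀ j, j ≤ p.m + 1 → r.o.τ s' j = d.ot s j := by
    intro j hj
    rw [hs'τ j (by rw [hc1l]; exact hj),
      Agree.eτ hr.2 (s := true :: s) (j := j) hc1l.le (by rw [hc1l]; exact hj)]
    exact stepO_τ_other (d := d) hsl (by simp [d, splitStep])
  -- the ranks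
  let T : ℕ → Tag := fun j => r.o.τ s' j
  let lo : ℕ → ℕ := fun j => if h : ∃ l : ℕ, T j = ((ν + l : Ordinal.{0}) : Tag) then Nat.find h
    else 0
  let L : ℕ := 1 + ∑ j ∈ Finset.range (r.m + 1), lo j
  have hL : ∀ j, j ≤ r.m → lo j < L := by
    intro j hj
    have : lo j ≤ ∑ j ∈ Finset.range (r.m + 1), lo j :=
      Finset.single_le_sum (f := lo) (fun _ _ => Nat.zero_le _)
        (Finset.mem_range.2 (by omega : j < r.m + 1))
    omega
  let g : ℕ → ℕ := fun j => if ∃ l : ℕ, T j = ((ν + l : Ordinal.{0}) : Tag) then lo j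
    else L + (r.m - j)
  have hlo : ∀ j (l : ℕ), T j = ((ν + l : Ordinal.{0}) : Tag) → lo j = l := by
    intro j l h
    have hex : ∃ l : ℕ, T j = ((ν + l : Ordinal.{0}) : Tag) := ⟨l, h⟩
    have e : lo j = Nat.find hex := dif_pos hex
    rw [e]
    have h2 : ((ν + l : Ordinal.{0}) : Tag) = ((ν + (Nat.find hex : ℕ) : Ordinal.{0}) : Tag) :=
      h.symm.trans (Nat.find_spec hex)
    have h3 : ν + (l : Ordinal.{0}) = ν + ((Nat.find hex : ℕ) : Ordinal.{0}) := by
      exact_mod_cast h2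
    have h4 := add_left_cancel h3
    exact_mod_cast h4.symm
  have hg1 : ∀ j (l : ℕ), T j = ((ν + l : Ordinal.{0}) : Tag) → g j = l := by
    intro j l h
    have hex : ∃ l : ℕ, T j = ((ν + l : Ordinal.{0}) : Tag) := ⟨l, h⟩
    simp only [g, hex, if_true]
    exact hlo j l h
  have hg : ∀ i, i < r.m → prec (T (i+1)) (T (par i)) → (ν : Tag) ≤ T (i+1) →
      g (i+1) < g (par i) := by
    intro i hi hp hνT
    have hpi : par i ≤ i := par_le i
    by_cases h1 : ∃ l : ℕ, T (par i) = ((ν + l : Ordinal.{0}) : Tag)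
    · obtain ⟨l, hl⟩ := h1
      rw [hg1 _ _ hl]
      have h2 : T (i+1) < ((ν + l : Ordinal.{0}) : Tag) := by
        rcases hp with hp | hp
        · rwa [hl] at hp
        · rw [hl] at hp; exact absurd hp (WithTop.coe_ne_top)
      obtain ⟨x, hx⟩ : ∃ x : Ordinal.{0}, T (i+1) = (x : Tag) := by
        have hne : T (i+1) ≠ ⊤ := ne_top_of_lt h2
        exact ⟨(T (i+1)).untop hne, (WithTop.coe_untop _ hne).symm⟩
      rw [hx] at h2 hνT
      obtain ⟨l', hl', hx'⟩ := ordinal_between (by exact_mod_cast hνT) (by exact_mod_cast h2)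
      rw [hx'] at hx
      rw [hg1 _ _ hx]
      exact hl'
    · have e : g (par i) = L + (r.m - par i) := by simp only [g, h1, if_false]
      rw [e]
      by_cases h2 : ∃ l : ℕ, T (i+1) = ((ν + l : Ordinal.{0}) : Tag)
      · have e' : g (i+1) = lo (i+1) := by simp only [g, h2, if_true]
        rw [e']
        have := hL (i+1) hi
        omega
      · have e' : g (i+1) = L + (r.m - (i+1)) := by simp only [g, h2, if_false]
        rw [e']; omega
  let lam' : ℕ → ℕ := fun j => if j ≤ p.m then lam j else g j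
  have hlam' : ∀ j, (ν : Tag) ≤ T j → lam' j = g j := by
    intro j hj
    by_cases h : j ≤ p.m
    · simp only [lam', h, if_true]
      have e : T j = d.ot s j := e2 j (by omega)
      simp only [d, splitStep, if_true, h] at e
      by_cases h2 : p.o.τ s j = ⊤
      · simp only [h2, if_true] at e
        exact (hg1 j _ e).symm
      · simp only [h2, if_false] at e
        rcases hb.τ s j hsl.le (by omega) with h3 | h3
        · rw [e] at hj
          exact absurd h3 (not_lt.2 hj)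
        · exact absurd h3 h2
    · simp only [lam', h, if_false]
  let o2 : Obj := mask r.m (cutO (ν : Tag) r.o)
  have ha : Agree r.m o2 (cutO (ν : Tag) r.o) := agree_mask
  have hsim : SimO (ν : Tag) r.m o2 r.o := (ha.mono le_top le_rfl).trans simO_cutO
  have htop : ∀ j, j ≤ r.m → (o2.τ s' j = ⊤ → (ν : Tag) ≤ T j) := by
    intro j hj h
    rw [ha.eτ hs'l'.le (by omega)] at h
    by_contra hlt
    rw [not_le] at hlt
    have : cut (ν : Tag) (T j) = ⊤ := h
    rw [cut_of_lt hlt] at this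
    rw [this] at hlt
    exact absurd hlt (by simp)
  have hll : ∀ j, j ≤ r.m →
      ((List.range (r.m + 1)).map lam').getD j 0 = lam' j := by
    intro j hj
    have h3 : j < ((List.range (r.m + 1)).map lam').length := by simp; omega
    rw [List.getD_eq_getElem _ _ h3]
    simp
  refine ⟨((r.m, o2), (s', (List.range (r.m + 1)).map lam', b)), ⟨mask_mask, ?_⟩, ?_, ?_, ?_, ?_,
    ⟨hs'l', ?_, ?_⟩, ?_, r, rfl, hsim, hrb, hHb⟩
  · exact allTB_cutO.congr ha.symm
  · exact (r.v.cutO _).congr ha.symm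
  · show p.m ≤ r.m
    omega
  · show Agree p.m o2 p.o
    have h3 : Agree p.m r.o p.o := (hr.2.mono le_rfl (Nat.le_succ _)).trans ho1
    have h4 : AllTB ν p.m r.o := hb.congr h3.symm
    exact ((ha.mono le_rfl (by omega)).trans (agree_cutO h4)).trans h3
  · show s <:+ s'
    exact (List.suffix_cons true s).trans hs's
  · show o2.κ s' r.m = ⊤
    rw [ha.eκ hs'l'.le le_rfl]
    show cut (ν : Tag) (r.o.κ s' r.m) = ⊤
    rw [e1]; exact cut_of_le le_rfl
  · intro i hi h3 h4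
    have hi' : i < r.m := hi
    have h5 := htop (i+1) hi' h4
    have h6 : prec (T (i+1)) (T (par i)) := r.v.tre s' hs'l'.le i (by omega) h3
    have h7 : (ν : Tag) ≤ T (par i) := by
      rcases h6 with h6 | h6
      · exact h5.trans h6.le
      · rw [h6]; exact le_top
    show ((List.range (r.m + 1)).map lam').getD (i+1) 0 <
      ((List.range (r.m + 1)).map lam').getD (par i) 0
    rw [hll (i+1) hi', hll (par i) ((par_le i).trans hi'.le), hlam' _ h5, hlam' _ h7]
    exact hg i hi' h6 h5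
  · intro j hj
    show ((List.range (r.m + 1)).map lam').getD j 0 = lam j
    rw [hll j (by omega)]
    simp only [lam', hj, if_true]

theorem claimC_even [Countable A] (hPr : PrOK Pr) {p : Pt} {s : List Bool} {lam : ℕ → ℕ} {a : A}
    (hS : Sharp p.m p.o s lam) (hm : p.m % 2 = 0) (hH : High Pt.le Pr p a) :
    ∃ q : Pt, Pt.le q p ∧ ∃ s' lam', s <:+ s' ∧ Sharp q.m q.o s' lam' ∧
      (∀ j, j ≤ p.m → lam' j = lam j) ∧ ∃ b, Pr q b a ∧ High Pt.le Pr q b := by
  classical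
  -- all the tags of `p` are below some countable ordinal
  obtain ⟨η₀, hη₀, hb⟩ := p.c.exists_lt ⟨omega0_pos.trans omega0_lt_omega_one,
    fun η hη => add_one_lt_omega_one hη⟩
  have hex : ∀ ν : Ordinal.{0}, ∃ x : (ℕ × Obj) × (List Bool × List ℕ × A),
      η₀ ≤ ν → ν < ω₁ → Good Pr p s lam a ν x := by
    intro ν
    by_cases h : η₀ ≤ ν ∧ ν < ω₁
    · obtain ⟨x, hx⟩ := good_exists (Pr := Pr) hS hm hH h.2 (hb.mono h.1 le_rfl)
      exact ⟨x, fun _ _ => hx⟩
    · obtain ⟨x, hx⟩ := good_exists (Pr := Pr) hS hm hH hη₀ (hb.mono le_rfl le_rfl)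
      exact ⟨x, fun h1 h2 => absurd ⟨h1, h2⟩ h⟩
  choose dd hdd using hex
  obtain ⟨x, hx⟩ := press (CD (List Bool × List ℕ × A)) (fun η hη => CD_countable _ η hη)
    (fun ν _ hν c hc => CD_lim _ ν hν c hc) dd η₀ hη₀ (fun ν h1 h2 => (hdd ν h1 h2).1)
  have hgood : ∀ η, η < ω₁ → ∃ ν, η ≤ ν ∧ ν < ω₁ ∧ Good Pr p s lam a ν x := by
    intro η hη
    obtain ⟨ν, h1, h2, h3, h4⟩ := hx η hη
    exact ⟨ν, h1, h2, h4 ▸ hdd ν h3 h2⟩
  obtain ⟨ν₁, -, hν₁, g1, g2, g3, g4, g5, g6, g7, r₁, g8, g9, g10, g11⟩ := hgood η₀ hη₀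
  let q : Pt := ⟨x.1.1, x.1.2, g2, g1.2.mono hν₁.le le_rfl⟩
  refine ⟨q, ⟨g3, g4⟩, x.2.1, _, g5, g6, g7, x.2.2.2, ?_, ?_⟩
  · refine hPr.sim r₁ q ⟨g8, ?_⟩ _ _ g10
    exact (g9.mono (by exact_mod_cast zero_le) le_rfl).symm
  · intro β hβ
    obtain ⟨ν, h1, h2, -, -, -, -, -, -, -, r, h8, h9, h10, h11⟩ := hgood (mu β) (mu_lt_omega_one hβ)
    have h12 : HH Pt.le Pr β r x.2.2.2 := HH_anti (le_mu.trans h1) h11
    refine HH_PS hPr (mu_lt_omega_one hβ).le (p := r) (p' := q) ⟨h8, ?_⟩ h12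
    exact (h9.mono (by exact_mod_cast h1) le_rfl).symm

/-- Every distinguished condition forcing high rank of `a` has a distinguished extension
forcing high rank for some predecessor of `a`. -/
theorem claimC [Countable A] (hPr : PrOK Pr) {p : Pt} {s : List Bool} {lam : ℕ → ℕ} {a : A}
    (hS : Sharp p.m p.o s lam) (hH : High Pt.le Pr p a) :
    ∃ q : Pt, Pt.le q p ∧ ∃ s' lam', s <:+ s' ∧ Sharp q.m q.o s' lam' ∧
      (∀ j, j ≤ p.m → lam' j = lam j) ∧ ∃ b, Pr q b a ∧ High Pt.le Pr q b := by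
  rcases Nat.mod_two_eq_zero_or_one p.m with hm | hm
  · exact claimC_even hPr hS hm hH
  · have h0 : (0 : Ordinal.{0}) < ω₁ := omega0_pos.trans omega0_lt_omega_one
    let p1 : Pt := ⟨p.m + 1, stepO p.m p.o defStep, p.v.stepO defStep_ok, defStep_tb h0 p.c⟩
    have hp1 : Pt.le p1 p := ⟨Nat.le_succ _, agree_stepO⟩
    obtain ⟨q, h1, s', lam', h2, h3, h4, b, h5, h6⟩ := claimC_even hPr (p := p1)
      (defStep_sharp hS) (show (p.m + 1) % 2 = 0 by omega)
      (High_mono (fun p q r => Pt.le_trans p q r) hp1 hH)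
    refine ⟨q, Pt.le_trans _ _ _ h1 hp1, s', lam', (List.suffix_cons false s).trans h2, h3, ?_,
      b, h5, h6⟩
    intro j hj
    exact h4 j (show j ≤ p.m + 1 by omega)

end Pool.Agent.H654R2
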