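import Pool.Agent.H654R2.VWDefs

/-!
Codes for functions recursive in an oracle, and their finite use.
-/

namespace Pool.Agent.H654R2

/-- codes -/
inductive OCode : Type
  | zero : OCode
  | succ : OCode
  | left : OCode
  | right : OCode
  | oracle : OCode
  | pair (f h : OCode) : OCode
  | comp (f h : OCode) : OCode
  | prec (f h : OCode) : OCode
  | rfind (f : OCode) : OCode

namespace OCode

def enc : OCode → ℕ
  | zero => 0
  | succ => 1
  | left => 2
  | right => 3
  | oracle => 4
  | pair f h => 5 + 4 * Nat.pair (enc f) (enc h)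
  | comp f h => 6 + 4 * Nat.pair (enc f) (enc h)
  | prec f h => 7 + 4 * Nat.pair (enc f) (enc h)
  | rfind f => 8 + 4 * enc f

theorem enc_injective : Function.Injective enc := by
  intro c
  induction c with
  | zero => intro d h; cases d <;> simp only [enc] at h <;> first | rfl | omega
  | succ => intro d h; cases d <;> simp only [enc] at h <;> first | rfl | omega
  | left => intro d h; cases d <;> simp only [enc] at h <;> first | rfl | omega
  | right => intro d h; cases d <;> simp only [enc] at h <;> first | rfl | omega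
  | oracle => intro d h; cases d <;> simp only [enc] at h <;> first | rfl | omega
  | pair f g ihf ihg =>
    intro d h
    cases d with
    | pair f' g' =>
      simp only [enc] at h
      have h1 : Nat.pair (enc f) (enc g) = Nat.pair (enc f') (enc g') := by omega
      obtain ⟨h2, h3⟩ := Nat.pair_eq_pair.1 h1
      rw [ihf h2, ihg h3]
    | _ => simp only [enc] at h; omega
  | comp f g ihf ihg =>
    intro d h
    cases d with
    | comp f' g' =>
      simp only [enc] at h
      have h1 : Nat.pair (enc f) (enc g) = Nat.pair (enc f') (enc g') := by omega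
      obtain ⟨h2, h3⟩ := Nat.pair_eq_pair.1 h1
      rw [ihf h2, ihg h3]
    | _ => simp only [enc] at h; omega
  | prec f g ihf ihg =>
    intro d h
    cases d with
    | prec f' g' =>
      simp only [enc] at h
      have h1 : Nat.pair (enc f) (enc g) = Nat.pair (enc f') (enc g') := by omega
      obtain ⟨h2, h3⟩ := Nat.pair_eq_pair.1 h1
      rw [ihf h2, ihg h3]
    | _ => simp only [enc] at h; omega
  | rfind f ihf =>
    intro d h
    cases d with
    | rfind f' =>
      simp only [enc] at h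
      have h1 : enc f = enc f' := by omega
      rw [ihf h1]
    | _ => simp only [enc] at h; omega

instance : Countable OCode := enc_injective.countable

/-- evaluation of codes -/
def eval (g : ℕ → Part ℕ) : OCode → ℕ → Part ℕ
  | zero => fun _ => Part.some 0
  | succ => fun n => Part.some (Nat.succ n)
  | left => fun n => Part.some (Nat.unpair n).1
  | right => fun n => Part.some (Nat.unpair n).2
  | oracle => g
  | pair f h => fun n => (Part.map Nat.pair (eval g f n)).bind (fun a => Part.map a (eval g h n))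
  | comp f h => fun n => (eval g h n).bind (eval g f)
  | prec f h => fun p =>
      Nat.rec (motive := fun _ => Part ℕ) (eval g f (Nat.unpair p).1) (fun y IH => IH.bind
        (fun i => eval g h (Nat.pair (Nat.unpair p).1 (Nat.pair y i)))) (Nat.unpair p).2
  | rfind f => fun a => Nat.rfind fun n => Part.map (fun m => decide (m = 0)) (eval g f (Nat.pair a n))

theorem exists_code {g f : ℕ →. ℕ} (h : Nat.RecursiveIn {g} f) : ∃ c, eval g c = f := by
  induction h with
  | zero => exact ⟨zero, rfl⟩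
  | succ => exact ⟨succ, rfl⟩
  | left => exact ⟨left, rfl⟩
  | right => exact ⟨right, rfl⟩
  | oracle g' hg =>
    rw [Set.mem_singleton_iff] at hg
    exact ⟨oracle, hg ▸ rfl⟩
  | pair _ _ ih1 ih2 =>
    obtain ⟨c1, rfl⟩ := ih1
    obtain ⟨c2, rfl⟩ := ih2
    exact ⟨pair c1 c2, rfl⟩
  | comp _ _ ih1 ih2 =>
    obtain ⟨c1, rfl⟩ := ih1
    obtain ⟨c2, rfl⟩ := ih2
    exact ⟨comp c1 c2, rfl⟩
  | prec _ _ ih1 ih2 =>
    obtain ⟨c1, rfl⟩ := ih1
    obtain ⟨c2, rfl⟩ := ih2
    exact ⟨prec c1 c2, rfl⟩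
  | rfind _ ih1 =>
    obtain ⟨c1, rfl⟩ := ih1
    exact ⟨rfind c1, rfl⟩

theorem exists_bound_nat {P : ℕ → ℕ → Prop} (hP : ∀ m M M', M ≤ M' → P m M → P m M') (v : ℕ)
    (h : ∀ m, m < v → ∃ M, P m M) : ∃ M, ∀ m, m < v → P m M := by
  induction v with
  | zero => exact ⟨0, fun m hm => absurd hm (by omega)⟩
  | succ v ih =>
    obtain ⟨M, hM⟩ := ih (fun m hm => h m (by omega))
    obtain ⟨M', hM'⟩ := h v (by omega)
    refine ⟨max M M', fun m hm => ?_⟩
    rcases Nat.lt_succ_iff_lt_or_eq.1 hm with h' | rfl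
    · exact hP _ _ _ (le_max_left _ _) (hM m h')
    · exact hP _ _ _ (le_max_right _ _) hM'

/-- computations use finitely many values of the oracle -/
theorem eval_use (x : ℕ → Bool) (c : OCode) : ∀ n v, v ∈ eval (orc x) c n →
    ∃ M, ∀ x' : ℕ → Bool, (∀ i, i < M → x' i = x i) → v ∈ eval (orc x') c n := by
  induction c with
  | zero => exact fun n v h => ⟨0, fun _ _ => h⟩
  | succ => exact fun n v h => ⟨0, fun _ _ => h⟩
  | left => exact fun n v h => ⟨0, fun _ _ => h⟩
  | right => exact fun n v h => ⟨0, fun _ _ => h⟩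
  | oracle =>
    intro n v h
    refine ⟨n + 1, fun x' hx' => ?_⟩
    have h1 := hx' n (by omega)
    simp only [eval, orc] at h ⊢
    rw [h1]; exact h
  | pair f g ihf ihg =>
    intro n v h
    simp only [eval, Part.mem_bind_iff, Part.mem_map_iff] at h ⊢
    obtain ⟨a, ⟨b, hb, hab⟩, c, hc, hv⟩ := h
    obtain ⟨M1, h1⟩ := ihf n b hb
    obtain ⟨M2, h2⟩ := ihg n c hc
    refine ⟨max M1 M2, fun x' hx' => ⟨a, ⟨b, ?_, hab⟩, c, ?_, hv⟩⟩
    · exact h1 x' (fun i hi => hx' i (lt_of_lt_of_le hi (le_max_left _ _)))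
    · exact h2 x' (fun i hi => hx' i (lt_of_lt_of_le hi (le_max_right _ _)))
  | comp f g ihf ihg =>
    intro n v h
    simp only [eval, Part.mem_bind_iff] at h ⊢
    obtain ⟨a, ha, hv⟩ := h
    obtain ⟨M1, h1⟩ := ihg n a ha
    obtain ⟨M2, h2⟩ := ihf a v hv
    refine ⟨max M1 M2, fun x' hx' => ⟨a, ?_, ?_⟩⟩
    · exact h1 x' (fun i hi => hx' i (lt_of_lt_of_le hi (le_max_left _ _)))
    · exact h2 x' (fun i hi => hx' i (lt_of_lt_of_le hi (le_max_right _ _)))
  | prec f g ihf ihg =>
    intro p
    simp only [eval]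
    generalize (Nat.unpair p).1 = a
    generalize (Nat.unpair p).2 = n
    induction n with
    | zero => exact fun v h => ihf a v h
    | succ n ih =>
      intro v h
      simp only [Part.mem_bind_iff] at h ⊢
      obtain ⟨b, hb, hv⟩ := h
      obtain ⟨M1, h1⟩ := ih b hb
      obtain ⟨M2, h2⟩ := ihg _ v hv
      refine ⟨max M1 M2, fun x' hx' => ⟨b, ?_, ?_⟩⟩
      · exact h1 x' (fun i hi => hx' i (lt_of_lt_of_le hi (le_max_left _ _)))
      · exact h2 x' (fun i hi => hx' i (lt_of_lt_of_le hi (le_max_right _ _)))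
  | rfind f ihf =>
    intro a v h
    have hrf : ∀ (p : ℕ → Part Bool) (v : ℕ), v ∈ Nat.rfind p ↔
        true ∈ p v ∧ ∀ m, m < v → false ∈ p m := by
      intro p v
      constructor
      · intro h
        exact ⟨(Nat.mem_rfind.1 h).1, fun m hm => (Nat.mem_rfind.1 h).2 hm⟩
      · intro h
        exact Nat.mem_rfind.2 ⟨h.1, fun hm => h.2 _ hm⟩
    have h' := (hrf _ _).1 h
    obtain ⟨h1, h2⟩ := h'
    have key : ∀ (n : ℕ) (b : Bool), b ∈ (Part.map (fun m => decide (m = 0)) (eval (orc x) f (Nat.pair a n))) →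
        ∃ M, ∀ x' : ℕ → Bool, (∀ i, i < M → x' i = x i) →
          b ∈ (Part.map (fun m => decide (m = 0)) (eval (orc x') f (Nat.pair a n))) := by
      intro n b hb
      simp only [Part.mem_map_iff] at hb ⊢
      obtain ⟨c, hc, hcb⟩ := hb
      obtain ⟨M, hM⟩ := ihf _ c hc
      exact ⟨M, fun x' hx' => ⟨c, hM x' hx', hcb⟩⟩
    obtain ⟨M1, hM1⟩ := key v true h1
    obtain ⟨M2, hM2⟩ := exists_bound_nat (P := fun m M => ∀ x' : ℕ → Bool, (∀ i, i < M → x' i = x i) →
          false ∈ (Part.map (fun m => decide (m = 0)) (eval (orc x') f (Nat.pair a m))))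
      (fun m M M' hMM' h x' hx' => h x' (fun i hi => hx' i (lt_of_lt_of_le hi hMM'))) v
      (fun m hm => key m false (h2 m hm))
    refine ⟨max M1 M2, fun x' hx' => ?_⟩
    refine (hrf _ _).2 ⟨?_, ?_⟩
    · exact hM1 x' (fun i hi => hx' i (lt_of_lt_of_le hi (le_max_left _ _)))
    · intro m hm
      exact hM2 m hm x' (fun i hi => hx' i (lt_of_lt_of_le hi (le_max_right _ _)))

end OCode

/-- the predicate computed by a code with oracle `x` -/
def Ev (c : OCode) (x : ℕ → Bool) (n : ℕ) : Prop := 1 ∈ OCode.eval (orc x) c n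

theorem Ev_use {c : OCode} {x : ℕ → Bool} {n : ℕ} (h : Ev c x n) :
    ∃ M, ∀ x' : ℕ → Bool, (∀ i, i < M → x' i = x i) → Ev c x' n :=
  OCode.eval_use x c n 1 h

theorem RecIn.code {x R : ℕ → Bool} (h : RecIn x R) : ∃ c, ∀ n, R n = true ↔ Ev c x n := by
  obtain ⟨c, hc⟩ := OCode.exists_code h
  refine ⟨c, fun n => ?_⟩
  unfold Ev
  rw [hc]
  simp
  cases R n <;> simp

/-- relations computed with oracle `x` by evaluating `x` at computable places -/
theorem recIn_self (x : ℕ → Bool) : RecIn x x := by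
  have h : Nat.RecursiveIn {orc x} (orc x) := .oracle _ rfl
  refine h.of_eq fun n => ?_
  simp [orc]

theorem recIn_comp {x R : ℕ → Bool} (hR : RecIn x R) {f : ℕ → ℕ} (hf : Nat.Primrec f) :
    RecIn x (fun n => R (f n)) := by
  have h1 : Nat.RecursiveIn {orc x} (f : ℕ →. ℕ) := hf.recursiveIn
  have h2 := Nat.RecursiveIn.comp hR h1
  refine h2.of_eq fun n => ?_
  simp

theorem recIn_and {x R S : ℕ → Bool} (hR : RecIn x R) (hS : RecIn x S) :
    RecIn x (fun n => R n && S n) := by
  have h1 := Nat.RecursiveIn.pair hR hS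
  have h2 : Nat.Primrec (fun n => (Nat.unpair n).1 * (Nat.unpair n).2) := by
    have := (Primrec.nat_mul.comp Primrec.fst Primrec.snd).comp Primrec.unpair
    exact Primrec.nat_iff.1 this
  have h3 : Nat.RecursiveIn {orc x} _ := Nat.RecursiveIn.comp (h2.recursiveIn) h1
  refine h3.of_eq fun n => ?_
  cases hR' : R n <;> cases hS' : S n <;> simp [hR', hS', Seq.seq]

theorem recIn_ne (x : ℕ → Bool) (j : ℕ) {f : ℕ → ℕ} (hf : Nat.Primrec f) :
    RecIn x (fun n => decide (f n ≠ j)) := by
  have h1 : Primrec (fun n => decide (f n ≠ j)) := by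
    have h2 : PrimrecPred (fun n => f n ≠ j) := by
      have h3 : PrimrecPred (fun n => f n = j) :=
        Primrec.eq.comp (Primrec.nat_iff.2 hf) (Primrec.const j)
      exact h3.not
    exact PrimrecPred.decide h2
  exact h1.computableIn

end Pool.Agent.H654R2
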