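import Pool.Agent.H654R2.VWReq

/-!
Consequences of the requirements.
-/

namespace Pool.Agent.H654R2

open Ordinal

section cons

variable {δ : Ordinal.{0}}

theorem rs_suffix (x : ℕ → Bool) {m n : ℕ} (h : m ≤ n) : rs x m <:+ rs x n := by
  obtain ⟨d, rfl⟩ := Nat.exists_eq_add_of_le h
  clear h
  induction d with
  | zero => exact List.suffix_refl _
  | succ d ih => exact ih.trans (List.suffix_cons _ _)

theorem mem_AY_iff (g : GO δ) (h4 : ∀ si, ∃ m, g.at m ∈ D4 δ si) (x : ℕ → Bool) :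
    x ∈ AY g.G.y ↔ ∀ k, g.G.κ (rs x k) k = ⊤ := by
  constructor
  · intro hx k
    obtain ⟨P, hP0, hP⟩ := hx k
    by_contra hne
    have hl := rs_length x k
    have h1 : ∀ j, k ≤ P j ∧ g.G.κ (rs x k) (P j) ≠ ⊤ := by
      intro j
      induction j with
      | zero => rw [hP0]; exact ⟨le_rfl, hne⟩
      | succ j ih =>
        obtain ⟨i, h1, h2, h3, h5⟩ := hP j
        have h6 := (g.v (i+1)).clk (rs x k) i (by omega) (by omega) h3 (by rw [h5]; omega)
        rw [h1]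
        refine ⟨by omega, ?_⟩
        rcases h6 with h6 | h6
        · exact ne_top_of_lt h6
        · rw [h5] at h6
          exact absurd h6 ih.2
    have h2 : ∀ j, g.G.κ (rs x k) (P (j+1)) < g.G.κ (rs x k) (P j) := by
      intro j
      obtain ⟨i, h3, h4, h5, h6⟩ := hP j
      have h7 := (g.v (i+1)).clk (rs x k) i (by omega) (by omega) h5
        (by rw [h6]; have := (h1 j).1; omega)
      rw [h3]
      rcases h7 with h7 | h7
      · rw [h6] at h7; exact h7
      · rw [h6] at h7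
        exact absurd h7 (h1 j).2
    have h3 : WellFounded (fun a b : Tag => a < b) := wellFounded_lt
    exact (RelEmbedding.natGT _ h2).not_wellFounded h3
  · intro hx k
    have hl := rs_length x k
    have step : ∀ n : {i // k ≤ i ∧ g.G.κ (rs x k) i = ⊤},
        ∃ n' : {i // k ≤ i ∧ g.G.κ (rs x k) i = ⊤}, ∃ i, n'.1 = i + 1 ∧ k ≤ i ∧
          att (g.G.y (rs x k) i) i ∧ par i = n.1 := by
      rintro ⟨i, hi1, hi2⟩
      obtain ⟨m, hm1, hm2⟩ := h4 (rs x k, i)
      obtain ⟨i', h5, h6, h7, h8, h9⟩ := hm2 (by show (rs x k).length ≤ i; omega) hi2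
      have h6' : i ≤ i' := h6
      exact ⟨⟨i'+1, by omega, h9⟩, i', rfl, by omega, h7, h8⟩
    choose F hF using step
    let Q : ℕ → {i // k ≤ i ∧ g.G.κ (rs x k) i = ⊤} :=
      fun j => Nat.rec ⟨k, le_rfl, hx k⟩ (fun _ n => F n) j
    exact ⟨fun j => (Q j).1, rfl, fun j => hF (Q j)⟩

/-- the tags along a real -/
noncomputable def tg (g : GO δ) (x : ℕ → Bool) (j : ℕ) : Tag := g.G.τ (rs x j) j

theorem tg_eq (g : GO δ) {x : ℕ → Bool} (hx : ∀ k, g.G.κ (rs x k) k = ⊤) {m j : ℕ}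
    (h : j ≤ m) : g.G.τ (rs x m) j = tg g x j := by
  have h1 := top_suffix (g.v m) (s := rs x j) (rs x m) (rs_suffix x h)
    (by rw [rs_length]) (by rw [rs_length]; exact hx m)
  exact h1.2 j (by rw [rs_length])

theorem tg_prec (g : GO δ) {x : ℕ → Bool} (hx : ∀ k, g.G.κ (rs x k) k = ⊤) (i : ℕ)
    (h : att (x i) i) : prec (tg g x (i+1)) (tg g x (par i)) := by
  have h1 := (g.v (i+1)).tre (rs x (i+1)) (by rw [rs_length]) i (by rw [rs_length]; omega)
    (by rw [bitAt_rs x (Nat.lt_succ_self i)]; exact h)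
  rwa [tg_eq g hx le_rfl, tg_eq g hx ((par_le i).trans (Nat.le_succ i))] at h1

theorem tg_TB (g : GO δ) (x : ℕ → Bool) (j : ℕ) : TB δ (tg g x j) :=
  (g.c j).τ (rs x j) j (by rw [rs_length]) (by rw [rs_length])

theorem star_top (g : GO δ) : ∀ k, g.G.κ (rs g.x k) k = ⊤ := fun k => (g.sh k).top

/-- the ranks of the nodes of the forest of the distinguished real -/
noncomputable def rho (g : GO δ) (j : ℕ) : Ordinal.{0} := by
  classical exact if h : tg g g.x j = ⊤ then δ + g.lam j else (tg g g.x j).untop h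

theorem rho_top (g : GO δ) {j : ℕ} (h : tg g g.x j = ⊤) : rho g j = δ + g.lam j := by
  simp [rho, h]

theorem rho_coe (g : GO δ) {j : ℕ} {θ : Ordinal.{0}} (h : tg g g.x j = (θ : Tag)) :
    rho g j = θ := by
  have hne : tg g g.x j ≠ ⊤ := by rw [h]; exact WithTop.coe_ne_top
  have h1 : rho g j = (tg g g.x j).untop hne := dif_neg hne
  rw [h1]
  have h2 : (((tg g g.x j).untop hne : Ordinal.{0}) : Tag) = (θ : Tag) := by
    rw [WithTop.coe_untop, h]
  exact_mod_cast h2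

theorem Tag.cases (t : Tag) : t = ⊤ ∨ ∃ θ : Ordinal.{0}, t = (θ : Tag) := by
  induction t using WithTop.recTopCoe with
  | top => exact Or.inl rfl
  | coe a => exact Or.inr ⟨a, rfl⟩

theorem ranked_star (g : GO δ) (h5 : ∀ r, ∃ m, g.at m ∈ D5 δ r) : Ranked g.x (rho g) := by
  have hlamdec : ∀ i, att (g.x i) i → tg g g.x (i+1) = ⊤ → g.lam (i+1) < g.lam (par i) := by
    intro i h1 h2
    refine (g.sh (i+1)).dec i (Nat.lt_succ_self i) ?_ ?_
    · rw [bitAt_rs _ (Nat.lt_succ_self i)]; exact h1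
    · rw [tg_eq g (star_top g) le_rfl]; exact h2
  refine ⟨?_, ?_⟩
  · intro i hi
    have hp := tg_prec g (star_top g) i hi
    rcases Tag.cases (tg g g.x (i+1)) with h1 | ⟨θ, h1⟩
    · have h2 : tg g g.x (par i) = ⊤ := by
        rcases hp with hp | hp
        · rw [h1] at hp; exact absurd hp (by simp)
        · exact hp
      rw [rho_top g h1, rho_top g h2]
      apply (add_lt_add_iff_left δ).2
      exact_mod_cast hlamdec i hi h1
    · rw [rho_coe g h1]
      rcases Tag.cases (tg g g.x (par i)) with h2 | ⟨θ', h2⟩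
      · rw [rho_top g h2]
        have h3 := tg_TB g g.x (i+1)
        rw [h1] at h3
        rcases h3 with h3 | h3
        · have : θ < δ := by exact_mod_cast h3
          exact lt_of_lt_of_le this le_self_add
        · exact absurd h3 WithTop.coe_ne_top
      · rw [rho_coe g h2]
        rcases hp with hp | hp
        · rw [h1, h2] at hp; exact_mod_cast hp
        · rw [h2] at hp; exact absurd hp WithTop.coe_ne_top
  · intro j θ hθ
    have hst := star_top g
    have key : ∀ (t : {t : Tag // TB δ t}) (l : ℕ),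
        (t.1 < tg g g.x j ∨ (t.1 = ⊤ ∧ tg g g.x j = ⊤ ∧ l < g.lam j)) →
        ∃ i, att (g.x i) i ∧ par i = j ∧ tg g g.x (i+1) = t.1 ∧
          (t.1 = ⊤ → g.lam (i+1) = l) := by
      intro t l h
      obtain ⟨m, hm1, hm2⟩ := h5 (j, t, l)
      have hm1' : j ≤ m := hm1
      have h' : t.1 < g.G.τ (rs g.x m) j ∨ (t.1 = ⊤ ∧ g.G.τ (rs g.x m) j = ⊤ ∧ l < g.lam j) := by
        rw [tg_eq g hst hm1']; exact h
      obtain ⟨i, h1, h2, h3, h4, h6⟩ := hm2 h'
      have h1' : i < m := h1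
      refine ⟨i, ?_, h3, ?_, h6⟩
      · have : att (bitAt (rs g.x m) i) i := h2
        rwa [bitAt_rs _ h1'] at this
      · have : g.G.τ (rs g.x m) (i+1) = t.1 := h4
        rwa [tg_eq g hst h1'] at this
    by_cases hlt : θ < δ
    · have hTB : TB δ (θ : Tag) := Or.inl (by exact_mod_cast hlt)
      obtain ⟨i, h1, h2, h3, -⟩ := key ⟨(θ : Tag), hTB⟩ 0 (by
        left
        show (θ : Tag) < tg g g.x j
        rcases Tag.cases (tg g g.x j) with h1 | ⟨θ', h1⟩
        · rw [h1]; exact WithTop.coe_lt_top _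
        · rw [rho_coe g h1] at hθ
          rw [h1]; exact_mod_cast hθ)
      exact ⟨i, h1, h2, rho_coe g h3⟩
    · rw [not_lt] at hlt
      have htop : tg g g.x j = ⊤ := by
        rcases Tag.cases (tg g g.x j) with h1 | ⟨θ', h1⟩
        · exact h1
        · rw [rho_coe g h1] at hθ
          have h3 := tg_TB g g.x j
          rw [h1] at h3
          rcases h3 with h3 | h3
          · have : θ' < δ := by exact_mod_cast h3
            exact absurd (hθ.trans this) (not_lt.2 hlt)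
          · exact absurd h3 WithTop.coe_ne_top
      rw [rho_top g htop] at hθ
      obtain ⟨l, hl, rfl⟩ := ordinal_between hlt hθ
      obtain ⟨i, h1, h2, h3, h4⟩ := key ⟨⊤, TB_top⟩ l (Or.inr ⟨rfl, htop, hl⟩)
      refine ⟨i, h1, h2, ?_⟩
      rw [rho_top g h3, h4 rfl]

/-- ranks of well-founded relations decided by the generic object -/
theorem rank_bound {A : Type} (g : GO δ) (hδ : δ ≤ ω₁) {Pr : Pt → A → A → Prop}
    (hPr : PrOK Pr) (h1 : ∀ a, ∃ m, g.at m ∈ D1 hδ Pr a)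
    (h3 : ∀ a β, β < δ → ∃ m, g.at m ∈ D3 hδ Pr a β) (W : A → A → Prop)
    (hW : ∀ b a, W b a ↔ ∃ m, Pr ((g.at m).pt hδ) b a) (hwf : WellFounded W) :
    ∃ rk : A → Ordinal.{0}, (∀ a, rk a < δ) ∧ ∀ b a, W b a → rk b < rk a := by
  classical
  have hle : ∀ m n, m ≤ n → Pt.le ((g.at n).pt hδ) ((g.at m).pt hδ) :=
    fun m n h => ⟨h, SimO.refl⟩
  have hnh : ∀ a m, ¬ High Pt.le Pr ((g.at m).pt hδ) a := by
    intro a
    induction a using hwf.induction with
    | _ a ih =>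
      intro m hH
      obtain ⟨n, hn⟩ := h1 a
      let k := max m n
      have hHk : High Pt.le Pr ((g.at k).pt hδ) a := High_mono Pt.tr (hle m k (le_max_left _ _)) hH
      rcases hn with ⟨β, hβ, hL⟩ | ⟨b, hb, hHb⟩
      · have hLk := Low_mono Pt.tr (hle n k (le_max_right _ _)) hL
        have hβ1 : β + 1 < ω₁ := add_one_lt_omega_one (lt_of_lt_of_le hβ hδ)
        exact HH_not_Low Pt.le_refl (Order.lt_add_one_iff.2 le_rfl) (hHk _ hβ1) hLk
      · exact ih b ((hW b a).2 ⟨n, hb⟩) n hHb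
  have hex : ∀ a, ∃ β, β < δ ∧ ∃ m, Low Pt.le Pr β ((g.at m).pt hδ) a := by
    intro a
    obtain ⟨n, hn⟩ := h1 a
    rcases hn with ⟨β, hβ, hL⟩ | ⟨b, hb, hHb⟩
    · exact ⟨β, hβ, n, hL⟩
    · exact absurd hHb (hnh b n)
  let rk : A → Ordinal.{0} := fun a => sInf {β | ∃ m, Low Pt.le Pr β ((g.at m).pt hδ) a}
  have hrk : ∀ a, ∃ m, Low Pt.le Pr (rk a) ((g.at m).pt hδ) a := by
    intro a
    obtain ⟨β, -, hm⟩ := hex a
    exact csInf_mem (s := {β | ∃ m, Low Pt.le Pr β ((g.at m).pt hδ) a}) ⟨β, hm⟩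
  have hrk' : ∀ a β m, Low Pt.le Pr β ((g.at m).pt hδ) a → rk a ≤ β := by
    intro a β m h
    exact csInf_le' ⟨m, h⟩
  have hrkδ : ∀ a, rk a < δ := by
    intro a
    obtain ⟨β, hβ, m, hm⟩ := hex a
    exact lt_of_le_of_lt (hrk' a β m hm) hβ
  refine ⟨rk, hrkδ, fun b a hba => ?_⟩
  obtain ⟨m, hm⟩ := (hW b a).1 hba
  obtain ⟨n, hn⟩ := hrk a
  obtain ⟨l, hl⟩ := h3 b (rk a) (hrkδ a)
  rcases hl with hl | ⟨β', hβ', hl⟩
  · exfalso
    let k := max m (max n l)
    have hk1 := hle m k (le_max_left _ _)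
    have hk2 := hle n k ((le_max_left _ _).trans (le_max_right _ _))
    have hk3 := hle l k ((le_max_right _ _).trans (le_max_right _ _))
    exact hn _ hk2 b (hPr.mono _ _ hk1 _ _ hm) (HH_mono Pt.tr hk3 hl)
  · exact lt_of_le_of_lt (hrk' b β' l hl) hβ'

end cons

/-- the relation coded by a code with an oracle -/
def Wr (e : OCode) (Z : ℕ → Bool) (b a : ℕ) : Prop :=
  b ≠ a ∧ Ev e Z (Nat.pair b a) ∧ Ev e Z (Nat.pair a a) ∧ Ev e Z (Nat.pair b b)

/-- the part of the relation decided by a condition -/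
def PrE (e : OCode) (p : Pt) (b a : ℕ) : Prop :=
  ∀ z : List Bool → ℕ → Bool, (∀ s i, s.length ≤ i → i < p.m → z s i = p.o.y s i) →
    Wr e (Theta z) b a

theorem PrE_ok (e : OCode) : PrOK (PrE e) := by
  refine ⟨?_, ?_⟩
  · intro p p' h b a hp z hz
    refine hp z (fun s i h1 h2 => ?_)
    rw [hz s i h1 (h.1 ▸ h2)]
    exact (h.2.y s i h1 h2).symm
  · intro p q h b a hp z hz
    refine hp z (fun s i h1 h2 => ?_)
    rw [hz s i h1 (lt_of_lt_of_le h2 h.1)]
    exact h.2.y s i h1 h2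

theorem Theta_agree (M : ℕ) : ∃ N, ∀ y y' : List Bool → ℕ → Bool,
    (∀ s i, s.length ≤ i → i < N → y s i = y' s i) → ∀ c, c < M → Theta y c = Theta y' c := by
  obtain ⟨N, hN⟩ := OCode.exists_bound_nat (P := fun c N => ∀ y y' : List Bool → ℕ → Bool,
    (∀ s i, s.length ≤ i → i < N → y s i = y' s i) → Theta y c = true → Theta y' c = true)
    (fun c M M' h h1 y y' h2 => h1 y y' (fun s i h3 h4 => h2 s i h3 (lt_of_lt_of_le h4 h))) M
    (fun c _ => Theta_use c)
  refine ⟨N, fun y y' h c hc => ?_⟩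
  have h1 := hN c hc y y' h
  have h2 := hN c hc y' y (fun s i h3 h4 => (h s i h3 h4).symm)
  cases h3 : Theta y c <;> cases h4 : Theta y' c <;> simp_all

theorem Ev_Theta {e : OCode} {y : List Bool → ℕ → Bool} {n : ℕ} (h : Ev e (Theta y) n) :
    ∃ N, ∀ z : List Bool → ℕ → Bool, (∀ s i, s.length ≤ i → i < N → z s i = y s i) →
      Ev e (Theta z) n := by
  obtain ⟨M, hM⟩ := Ev_use h
  obtain ⟨N, hN⟩ := Theta_agree M
  exact ⟨N, fun z hz => hM _ (fun i hi => hN z y hz i hi)⟩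

theorem PrE_iff {δ : Ordinal.{0}} (g : GO δ) (hδ : δ ≤ ω₁) (e : OCode) (b a : ℕ) :
    Wr e (Theta g.G.y) b a ↔ ∃ m, PrE e ((g.at m).pt hδ) b a := by
  constructor
  · rintro ⟨h0, h1, h2, h3⟩
    obtain ⟨N1, hN1⟩ := Ev_Theta h1
    obtain ⟨N2, hN2⟩ := Ev_Theta h2
    obtain ⟨N3, hN3⟩ := Ev_Theta h3
    refine ⟨max N1 (max N2 N3), fun z hz => ⟨h0, ?_, ?_, ?_⟩⟩
    · exact hN1 z (fun s i h4 h5 => hz s i h4 (lt_of_lt_of_le h5 (le_max_left _ _)))
    · exact hN2 z (fun s i h4 h5 => hz s i h4 (lt_of_lt_of_le h5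
        ((le_max_left _ _).trans (le_max_right _ _))))
    · exact hN3 z (fun s i h4 h5 => hz s i h4 (lt_of_lt_of_le h5
        ((le_max_right _ _).trans (le_max_right _ _))))
  · rintro ⟨m, h⟩
    exact h g.G.y (fun _ _ _ _ => rfl)

theorem recOrd_le {δ : Ordinal.{0}} (g : GO δ) (hδ : δ ≤ ω₁)
    (h1 : ∀ e a, ∃ m, g.at m ∈ D1 hδ (PrE e) a)
    (h3 : ∀ e a β, β < δ → ∃ m, g.at m ∈ D3 hδ (PrE e) a β) {α : Ordinal.{0}}
    (hα : IsRecOrd (Theta g.G.y) α) : α ≤ δ := by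
  obtain ⟨R, hR, hwo, rfl⟩ := hα
  obtain ⟨e, he⟩ := hR.code
  have hwf : WellFounded (Wr e (Theta g.G.y)) := by
    have h4 := hwo.wf
    refine ⟨fun a => ?_⟩
    by_cases ha : R (Nat.pair a a) = true
    · have key : ∀ c : Fld R, Acc (Wr e (Theta g.G.y)) c.1 := by
        intro c
        induction c using h4.induction with
        | _ c ih =>
          refine Acc.intro _ (fun b hb => ?_)
          obtain ⟨h5, h6, h7, h8⟩ := hb
          exact ih ⟨b, (he _).2 h8⟩ ⟨(he _).2 h6, h5⟩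
      exact key ⟨a, ha⟩
    · refine Acc.intro _ (fun b hb => ?_)
      exact absurd ((he _).2 hb.2.2.1) ha
  obtain ⟨rk, hrk1, hrk2⟩ := rank_bound g hδ (PrE_ok e) (h1 e) (h3 e) _ (PrE_iff g hδ e) hwf
  refine type_le_of_rank hwo (fun a => rk a.1) (fun a => hrk1 a.1) (fun a b hba => ?_)
  obtain ⟨h5, h6⟩ := hba
  exact hrk2 _ _ ⟨h6, (he _).1 h5, (he _).1 a.2, (he _).1 b.2⟩

end Pool.Agent.H654R2
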