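import Mathlib

/-!
Closure points below `ω₁` and a pressing down argument.
-/

namespace Pool.Agent.H654R2

open Ordinal

def Lim (ν : Ordinal.{0}) : Prop := 0 < ν ∧ ∀ η, η < ν → η + 1 < ν

theorem countable_Iio_of_lt {η : Ordinal.{0}} (h : η < ω₁) : (Set.Iio η).Countable := by
  rw [← Cardinal.le_aleph0_iff_set_countable, Cardinal.mk_Iio_ordinal]
  rw [← Cardinal.ord_aleph, Cardinal.lt_ord] at h
  have h1 : η.card ≤ Cardinal.aleph0 := by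
    rw [← Cardinal.succ_aleph0] at h
    exact Order.lt_succ_iff.1 h
  rw [Cardinal.lift_le_aleph0]
  exact h1

theorem add_one_lt_omega_one {η : Ordinal.{0}} (h : η < ω₁) : η + 1 < ω₁ := by
  rw [← Cardinal.ord_aleph] at h ⊢
  exact (Cardinal.isSuccLimit_ord (Cardinal.aleph0_le_aleph 1)).add_one_lt h

theorem exists_bound {ι : Type*} [Countable ι] (f : ι → Ordinal.{0}) (hf : ∀ i, f i < ω₁) :
    ∃ θ < (ω₁ : Ordinal.{0}), ∀ i, f i ≤ θ := by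
  refine ⟨⨆ i, f i, Ordinal.iSup_lt_omega_one hf, fun i => ?_⟩
  exact Ordinal.le_iSup f i

theorem exists_bound_set {D : Type*} {S : Set D} (hS : S.Countable) (f : D → Ordinal.{0})
    (hf : ∀ c ∈ S, f c < ω₁) : ∃ θ < (ω₁ : Ordinal.{0}), ∀ c ∈ S, f c ≤ θ := by
  have : Countable S := hS.to_subtype
  obtain ⟨θ, h1, h2⟩ := exists_bound (fun c : S => f c) (fun c => hf c c.2)
  exact ⟨θ, h1, fun c hc => h2 ⟨c, hc⟩⟩

theorem closure_pt (G : Ordinal.{0} → Ordinal.{0}) (hG : ∀ η, η < ω₁ → G η < ω₁)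
    (η₀ : Ordinal.{0}) (h0 : η₀ < ω₁) :
    ∃ δ : Ordinal.{0}, δ < ω₁ ∧ η₀ < δ ∧ Lim δ ∧ ∀ η, η < δ → G η < δ := by
  classical
  have hG' : ∀ η : Ordinal.{0}, η < ω₁ → ∃ θ : Ordinal.{0}, θ < ω₁ ∧ ∀ ξ, ξ ≤ η → G ξ ≤ θ := by
    intro η hη
    obtain ⟨θ, h1, h2⟩ := exists_bound_set (countable_Iio_of_lt (add_one_lt_omega_one hη)) G
      (fun c hc => hG c (lt_trans hc (add_one_lt_omega_one hη)))
    exact ⟨θ, h1, fun ξ hξ => h2 ξ (Order.lt_add_one_iff.2 hξ)⟩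
  have hG'' : ∀ η : Ordinal.{0}, ∃ θ : Ordinal.{0}, η < ω₁ → θ < ω₁ ∧ η < θ ∧ ∀ ξ, ξ ≤ η → G ξ < θ := by
    intro η
    by_cases hη : η < ω₁
    · obtain ⟨θ, h1, h2⟩ := hG' η hη
      refine ⟨max θ η + 1, fun _ => ⟨add_one_lt_omega_one (max_lt h1 hη), ?_, ?_⟩⟩
      · exact Order.lt_add_one_iff.2 (le_max_right _ _)
      · intro ξ hξ
        exact Order.lt_add_one_iff.2 ((h2 ξ hξ).trans (le_max_left _ _))
    · exact ⟨0, fun h => absurd h hη⟩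
  choose F hF using hG''
  let u : ℕ → Ordinal.{0} := fun n => Nat.rec η₀ (fun _ x => F x) n
  have hu0 : u 0 = η₀ := rfl
  have hus : ∀ n, u (n+1) = F (u n) := fun n => rfl
  have hu : ∀ n, u n < ω₁ := by
    intro n
    induction n with
    | zero => exact h0
    | succ n ih => rw [hus]; exact (hF _ ih).1
  have hlt : ∀ n, u n < ⨆ n, u n := by
    intro n
    have h1 : u n < u (n+1) := by rw [hus]; exact (hF _ (hu n)).2.1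
    exact lt_of_lt_of_le h1 (Ordinal.le_iSup u (n+1))
  refine ⟨⨆ n, u n, Ordinal.iSup_lt_omega_one hu, hlt 0, ⟨?_, ?_⟩, ?_⟩
  · exact lt_of_le_of_lt (zero_le) (hlt 0)
  · intro η hη
    obtain ⟨n, hn⟩ := Ordinal.lt_iSup_iff.1 hη
    exact lt_of_le_of_lt (Order.add_one_le_of_lt hn) (hlt n)
  · intro η hη
    obtain ⟨n, hn⟩ := Ordinal.lt_iSup_iff.1 hη
    have h1 : G η < u (n+1) := by rw [hus]; exact (hF _ (hu n)).2.2 η hn.le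
    exact h1.trans (hlt (n+1))

theorem press {D : Type*} (C : Ordinal.{0} → Set D) (hC : ∀ η, η < ω₁ → (C η).Countable)
    (hlim : ∀ ν, ν < ω₁ → Lim ν → ∀ c ∈ C ν, ∃ η, η < ν ∧ c ∈ C η) (d : Ordinal.{0} → D)
    (η₀ : Ordinal.{0}) (h0 : η₀ < ω₁) (hd : ∀ ν, η₀ ≤ ν → ν < ω₁ → d ν ∈ C ν) :
    ∃ c, ∀ η, η < ω₁ → ∃ ν, η ≤ ν ∧ ν < ω₁ ∧ η₀ ≤ ν ∧ d ν = c := by
  classical
  by_contra hcon
  push Not at hcon
  choose h h1 h2 using hcon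
  have hG : ∀ η : Ordinal.{0}, ∃ θ : Ordinal.{0}, η < ω₁ → θ < ω₁ ∧ ∀ c ∈ C η, h c ≤ θ := by
    intro η
    by_cases hη : η < ω₁
    · obtain ⟨θ, h3, h4⟩ := exists_bound_set (hC η hη) h (fun c _ => h1 c)
      exact ⟨θ, fun _ => ⟨h3, h4⟩⟩
    · exact ⟨0, fun h => absurd h hη⟩
  choose G hG using hG
  obtain ⟨δ, d1, d2, d3, d4⟩ := closure_pt G (fun η hη => (hG η hη).1) η₀ h0
  obtain ⟨η, hη, hc⟩ := hlim δ d1 d3 (d δ) (hd δ d2.le d1)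
  have h5 : h (d δ) ≤ δ := ((hG η (hη.trans d1)).2 _ hc).trans (d4 η hη).le
  exact h2 (d δ) δ h5 d1 d2.le rfl

/-- A closure principle. -/
theorem closure_pred {D : Type*} (C : Ordinal.{0} → Set D)
    (hC : ∀ η, η < ω₁ → (C η).Countable)
    (hlim : ∀ ν, ν < ω₁ → Lim ν → ∀ c ∈ C ν, ∃ η, η < ν ∧ c ∈ C η)
    (Q : D → Ordinal.{0} → Prop) (hQ : ∀ c θ θ', θ ≤ θ' → Q c θ → Q c θ')
    (hex : ∀ η, η < ω₁ → ∀ c ∈ C η, ∃ θ, θ < ω₁ ∧ Q c θ)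
    (G : Ordinal.{0} → Ordinal.{0}) (hG : ∀ η, η < ω₁ → G η < ω₁)
    (η₀ : Ordinal.{0}) (h0 : η₀ < ω₁) :
    ∃ δ : Ordinal.{0}, δ < ω₁ ∧ η₀ < δ ∧ Lim δ ∧ (∀ η, η < δ → G η < δ) ∧
      ∀ c ∈ C δ, ∃ θ, θ < δ ∧ Q c θ := by
  classical
  have h1 : ∀ η : Ordinal.{0}, ∃ θ : Ordinal.{0}, η < ω₁ → θ < ω₁ ∧ ∀ c ∈ C η, Q c θ := by
    intro η
    by_cases hη : η < ω₁
    · have : ∀ c : D, ∃ θ : Ordinal.{0}, c ∈ C η → θ < ω₁ ∧ Q c θ := by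
        intro c
        by_cases hc : c ∈ C η
        · obtain ⟨θ, h⟩ := hex η hη c hc
          exact ⟨θ, fun _ => h⟩
        · exact ⟨0, fun h => absurd h hc⟩
      choose f hf using this
      obtain ⟨θ, h3, h4⟩ := exists_bound_set (hC η hη) f (fun c hc => (hf c hc).1)
      exact ⟨θ, fun _ => ⟨h3, fun c hc => hQ _ _ _ (h4 c hc) (hf c hc).2⟩⟩
    · exact ⟨0, fun h => absurd h hη⟩
  choose F hF using h1
  obtain ⟨δ, d1, d2, d3, d4⟩ := closure_pt (fun η => max (F η) (G η))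
    (fun η hη => max_lt (hF η hη).1 (hG η hη)) η₀ h0
  refine ⟨δ, d1, d2, d3, fun η hη => lt_of_le_of_lt (le_max_right _ _) (d4 η hη), ?_⟩
  intro c hc
  obtain ⟨η, hη, hc'⟩ := hlim δ d1 d3 c hc
  exact ⟨F η, lt_of_le_of_lt (le_max_left _ _) (d4 η hη), (hF η (hη.trans d1)).2 c hc'⟩

end Pool.Agent.H654R2
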