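import Pool.Agent.H654R2.VWForce
import Pool.Agent.H654R2.VWPress

/-!
Countability of the set of stages with bounded tags.
-/

namespace Pool.Agent.H654R2

open Ordinal

/-- erase everything which is not visible at stage `m` -/
noncomputable def mask (m : ℕ) (o : Obj) : Obj where
  y := fun s i => if s.length ≤ i ∧ i < m then o.y s i else false
  κ := fun s i => if s.length ≤ i ∧ i ≤ m then o.κ s i else ⊤
  τ := fun s j => if s.length ≤ m ∧ j ≤ s.length then o.τ s j else ⊤

theorem agree_mask {m : ℕ} {o : Obj} : Agree m (mask m o) o := by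
  refine ⟨?_, ?_, ?_⟩
  · intro s i h1 h2; simp [mask, h1, h2]
  · intro s i h1 h2; left; simp [mask, h1, h2]
  · intro s i h1 h2; left; simp [mask, h1, h2]

theorem mask_mask {m : ℕ} {o : Obj} : mask m (mask m o) = mask m o := by
  unfold mask
  congr 1
  · funext s i
    by_cases h : s.length ≤ i ∧ i < m <;> simp [h]
  · funext s i
    by_cases h : s.length ≤ i ∧ i ≤ m <;> simp [h]
  · funext s i
    by_cases h : s.length ≤ m ∧ i ≤ s.length <;> simp [h]

/-- positions -/
abbrev Pos (m : ℕ) : Type := {s : List Bool // s.length ≤ m} × Fin (m+1)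

instance (m : ℕ) : Finite (Pos m) := by
  have : Finite {s : List Bool // s.length ≤ m} := (List.finite_length_le Bool m).to_subtype
  infer_instance

theorem countable_TB {η : Ordinal.{0}} (h : η < ω₁) : {t : Tag | TB η t}.Countable := by
  have : {t : Tag | TB η t} ⊆ ((fun a : Ordinal.{0} => (a : Tag)) '' (Set.Iio η)) ∪ {⊤} := by
    intro t ht
    rcases ht with ht | ht
    · left
      induction t using WithTop.recTopCoe with
      | top => simp at ht
      | coe a => exact ⟨a, by simpa using ht, rfl⟩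
    · right; exact ht
  exact (((countable_Iio_of_lt h).image _).union (Set.countable_singleton _)).mono this

theorem exists_bound_TB {ι : Type*} [Finite ι] {ν : Ordinal.{0}} (hν : Lim ν) (f : ι → Tag)
    (hf : ∀ i, TB ν (f i)) : ∃ η, η < ν ∧ ∀ i, TB η (f i) := by
  have : ∀ i, ∃ η, η < ν ∧ TB η (f i) := by
    intro i
    rcases hf i with h | h
    · generalize f i = t at h
      induction t using WithTop.recTopCoe with
      | top => simp at h
      | coe a =>
        have ha : a < ν := by exact_mod_cast h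
        refine ⟨a + 1, hν.2 a ha, Or.inl ?_⟩
        have : a < a + 1 := Order.lt_add_one_iff.2 le_rfl
        exact_mod_cast this
    · exact ⟨0, hν.1, Or.inr h⟩
  choose g h1 h2 using this
  rcases isEmpty_or_nonempty ι with hι | hι
  · exact ⟨0, hν.1, fun i => (hι.false i).elim⟩
  · obtain ⟨i0, hi0⟩ := Finite.exists_max g
    exact ⟨g i0, h1 i0, fun i => TB_mono (hi0 i) (h2 i)⟩

theorem AllTB.exists_lt {ν : Ordinal.{0}} (hν : Lim ν) {m : ℕ} {o : Obj} (h : AllTB ν m o) :
    ∃ η, η < ν ∧ AllTB η m o := by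
  classical
  let f : Pos m ⊕ Pos m → Tag := fun p => match p with
    | Sum.inl p => if p.1.1.length ≤ p.2.1 ∧ p.2.1 ≤ m then o.κ p.1.1 p.2.1 else ⊤
    | Sum.inr p => if p.2.1 ≤ p.1.1.length then o.τ p.1.1 p.2.1 else ⊤
  obtain ⟨η, h1, h2⟩ := exists_bound_TB hν f (by
    rintro (p | p)
    · show TB ν (if _ then _ else _)
      split_ifs with h3
      · exact h.κ _ _ h3.1 h3.2
      · exact TB_top
    · show TB ν (if _ then _ else _)
      split_ifs with h3
      · exact h.τ _ _ p.1.2 h3
      · exact TB_top)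
  refine ⟨η, h1, ?_, ?_⟩
  · intro s i h3 h4
    have := h2 (Sum.inl (⟨s, h3.trans h4⟩, ⟨i, by omega⟩))
    simpa [f, h3, h4] using this
  · intro s j h3 h4
    have := h2 (Sum.inr (⟨s, h3⟩, ⟨j, by omega⟩))
    simpa [f, h4] using this

/-- masked stages with tags bounded by `η` -/
def CO (η : Ordinal.{0}) : Set (ℕ × Obj) := {p | mask p.1 p.2 = p.2 ∧ AllTB η p.1 p.2}

theorem masked_TB {η : Ordinal.{0}} {m : ℕ} {o : Obj} (h : mask m o = o) (h' : AllTB η m o) :
    (∀ s i, TB η (o.κ s i)) ∧ (∀ s j, TB η (o.τ s j)) := by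
  constructor
  · intro s i
    by_cases h3 : s.length ≤ i ∧ i ≤ m
    · exact h'.κ s i h3.1 h3.2
    · rw [← h]; simp only [mask, h3, if_false]; exact TB_top
  · intro s i
    by_cases h3 : s.length ≤ m ∧ i ≤ s.length
    · exact h'.τ s i h3.1 h3.2
    · rw [← h]; simp only [mask, h3, if_false]; exact TB_top

theorem CO_countable (η : Ordinal.{0}) (hη : η < ω₁) : (CO η).Countable := by
  classical
  have h1 : CO η ⊆ ⋃ m : ℕ, (fun o => (m, o)) '' {o | mask m o = o ∧ AllTB η m o} := by
    rintro ⟨m, o⟩ h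
    exact Set.mem_iUnion.2 ⟨m, o, h, rfl⟩
  refine (Set.countable_iUnion fun m => Set.Countable.image ?_ _).mono h1
  have hT : Countable {t : Tag // TB η t} := (countable_TB hη).to_subtype
  have hc : Countable (Pos m → Bool × {t : Tag // TB η t} × {t : Tag // TB η t}) := inferInstance
  rw [← Set.countable_coe_iff]
  let F : {o | mask m o = o ∧ AllTB η m o} →
      (Pos m → Bool × {t : Tag // TB η t} × {t : Tag // TB η t}) := fun o p =>
    (o.1.y p.1.1 p.2.1, ⟨o.1.κ p.1.1 p.2.1, (masked_TB o.2.1 o.2.2).1 _ _⟩,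
      ⟨o.1.τ p.1.1 p.2.1, (masked_TB o.2.1 o.2.2).2 _ _⟩)
  have hF : Function.Injective F := by
    rintro ⟨o, ho, ho'⟩ ⟨o', h2, h2'⟩ hFF
    have key : ∀ (s : List Bool) (hs : s.length ≤ m) (i : ℕ) (hi : i < m+1),
        o.y s i = o'.y s i ∧ o.κ s i = o'.κ s i ∧ o.τ s i = o'.τ s i := by
      intro s hs i hi
      have := congrFun hFF (⟨s, hs⟩, ⟨i, hi⟩)
      simp only [F, Prod.mk.injEq, Subtype.mk.injEq] at this
      exact this
    apply Subtype.ext
    show o = o'
    rw [← ho, ← h2]
    unfold mask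
    congr 1
    · funext s i
      by_cases h3 : s.length ≤ i ∧ i < m
      · simp only [h3, and_self, if_true]
        exact (key s (by omega) i (by omega)).1
      · simp [h3]
    · funext s i
      by_cases h3 : s.length ≤ i ∧ i ≤ m
      · simp only [h3, and_self, if_true]
        exact (key s (by omega) i (by omega)).2.1
      · simp [h3]
    · funext s i
      by_cases h3 : s.length ≤ m ∧ i ≤ s.length
      · simp only [h3, and_self, if_true]
        exact (key s (by omega) i (by omega)).2.2
      · simp [h3]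
  exact hF.countable

theorem CO_lim (ν : Ordinal.{0}) (hν : Lim ν) (c : ℕ × Obj) (hc : c ∈ CO ν) :
    ∃ η, η < ν ∧ c ∈ CO η := by
  obtain ⟨η, h1, h2⟩ := hc.2.exists_lt hν
  exact ⟨η, h1, hc.1, h2⟩

/-- data with an extra countable component -/
def CD (E : Type) (η : Ordinal.{0}) : Set ((ℕ × Obj) × E) := {d | d.1 ∈ CO η}

theorem CD_countable (E : Type) [Countable E] (η : Ordinal.{0}) (hη : η < ω₁) :
    (CD E η).Countable := by
  have : CD E η = (CO η) ×ˢ (Set.univ : Set E) := by
    ext d; simp [CD]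
  rw [this]
  exact (CO_countable η hη).prod Set.countable_univ

theorem CD_lim (E : Type) (ν : Ordinal.{0}) (hν : Lim ν) (c : (ℕ × Obj) × E)
    (hc : c ∈ CD E ν) : ∃ η, η < ν ∧ c ∈ CD E η :=
  CO_lim ν hν c.1 hc

end Pool.Agent.H654R2
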