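import Mathlib

/-!
Definitions for the problem on the lightface version of the Velickovic-Woodin theorem.
Reals are elements of Cantor space, i.e. functions `ℕ → Bool`.
-/

namespace Pool.Agent.H654R2

/-- The real `x` regarded as an oracle (its characteristic function). -/
def orc (x : ℕ → Bool) : ℕ →. ℕ := fun n => Part.some (Encodable.encode (x n))

/-- `R` is recursive in the real `x`. -/
def RecIn (x : ℕ → Bool) (R : ℕ → Bool) : Prop := ComputableIn {orc x} R

/-- The list of the first `k` values of `f`. -/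
def seg {α : Type} (f : ℕ → α) (k : ℕ) : List α := (List.range k).map f

/-- `A` is a lightface `Σ¹₁(y)` set of reals: for some relation `R` recursive in `y`,
`x ∈ A` iff some `f ∈ ω^ω` satisfies `R (x|k, f|k)` for all `k`. -/
def IsSigma11Set (y : ℕ → Bool) (A : Set (ℕ → Bool)) : Prop :=
  ∃ R : ℕ → Bool, RecIn y R ∧
    ∀ x : ℕ → Bool, x ∈ A ↔ ∃ f : ℕ → ℕ, ∀ k : ℕ,
      R (Encodable.encode (seg x k, seg f k)) = true

/-- `S` is a lightface `Σ¹₁(z)` set of natural numbers. -/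
def IsSigma11Nat (z : ℕ → Bool) (S : Set ℕ) : Prop :=
  ∃ R : ℕ → Bool, RecIn z R ∧
    ∀ n : ℕ, n ∈ S ↔ ∃ f : ℕ → ℕ, ∀ k : ℕ, R (Encodable.encode (n, seg f k)) = true

/-- `γ` is hyperarithmetic in `z`, i.e. `γ ∈ Δ¹₁(z)`. -/
def HypIn (γ z : ℕ → Bool) : Prop :=
  IsSigma11Nat z {n | γ n = true} ∧ IsSigma11Nat z {n | γ n = true}ᶜ

/-- The field of the relation on `ℕ` coded by `R`. -/
def Fld (R : ℕ → Bool) : Type := {a : ℕ // R (Nat.pair a a) = true}

/-- The strict part of the relation on `ℕ` coded by `R`. -/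
def Rel (R : ℕ → Bool) (a b : Fld R) : Prop := R (Nat.pair a.1 b.1) = true ∧ a.1 ≠ b.1

/-- `α` is an `x`-recursive ordinal: the order type of an `x`-recursive well-ordering of a
set of natural numbers. -/
def IsRecOrd (x : ℕ → Bool) (α : Ordinal.{0}) : Prop :=
  ∃ R : ℕ → Bool, RecIn x R ∧ ∃ h : IsWellOrder (Fld R) (Rel R),
    @Ordinal.type (Fld R) (Rel R) h = α

/-- `ω₁^{CK(x)}`: the least ordinal which is not `x`-recursive. -/
noncomputable def omega1CK (x : ℕ → Bool) : Ordinal.{0} := sInf {α | ¬ IsRecOrd x α}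

/-- The Turing join of four reals. -/
def join4 (x₀ x₁ x₂ x₃ : ℕ → Bool) : ℕ → Bool := fun n =>
  if n % 4 = 0 then x₀ (n / 4) else if n % 4 = 1 then x₁ (n / 4)
  else if n % 4 = 2 then x₂ (n / 4) else x₃ (n / 4)

/-- The join property. -/
def JoinProperty (A : Set (ℕ → Bool)) : Prop :=
  ∀ γ : ℕ → Bool, ∃ x₀ ∈ A, ∃ x₁ ∈ A, ∃ x₂ ∈ A, ∃ x₃ ∈ A, HypIn γ (join4 x₀ x₁ x₂ x₃)

end Pool.Agent.H654R2
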