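import Pool.Agent.H654R2.VWKB

/-!
The real and the set of reals given by the clocks.
-/

namespace Pool.Agent.H654R2

open Ordinal

/-- the first `n` bits of `x`, in reverse order -/
def rs (x : ℕ → Bool) : ℕ → List Bool
  | 0 => []
  | (n+1) => x n :: rs x n

theorem rs_length (x : ℕ → Bool) (n : ℕ) : (rs x n).length = n := by
  induction n with
  | zero => rfl
  | succ n ih => simp [rs, ih]

theorem bitAt_rs (x : ℕ → Bool) {m i : ℕ} (h : i < m) : bitAt (rs x m) i = x i := by
  induction m with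
  | zero => omega
  | succ m ih =>
    rcases Nat.lt_succ_iff_lt_or_eq.1 h with h1 | rfl
    · rw [rs, bitAt_cons_lt (by rw [rs_length]; exact h1)]
      exact ih h1
    · have := bitAt_cons_length (b := x i) (s := rs x i)
      rw [rs_length] at this
      exact this

theorem rs_congr {x x' : ℕ → Bool} (m : ℕ) (h : ∀ i, i < m → x i = x' i) : rs x m = rs x' m := by
  induction m with
  | zero => rfl
  | succ m ih => rw [rs, rs, h m (by omega), ih (fun i hi => h i (by omega))]

/-- first component of a witness -/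
def xOf (f : ℕ → ℕ) (n : ℕ) : Bool := decide ((f n).unpair.1 = 1)

/-- second component of a witness -/
def gOf (f : ℕ → ℕ) (n : ℕ) : ℕ := (f n).unpair.2

/-- constraint number `n` -/
def Con (y : List Bool → ℕ → Bool) (u : ℕ → Bool) (f : ℕ → ℕ) (n : ℕ) : Prop :=
  u n = Xi (xOf f) n ∧ (n.unpair.2 = 0 → gOf f n = n.unpair.1) ∧
  ∀ j, n.unpair.2 = j + 1 → ∃ i, gOf f n = i + 1 ∧ n.unpair.1 ≤ i ∧
    att (y (rs (xOf f) n.unpair.1) i) i ∧ par i = gOf f (Nat.pair n.unpair.1 j)

theorem Con_congr {y : List Bool → ℕ → Bool} {u u' : ℕ → Bool} {f f' : ℕ → ℕ} {n : ℕ}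
    (hu : u n = u' n) (hf : ∀ i, i ≤ n → f i = f' i) (h : Con y u f n) : Con y u' f' n := by
  have hx : ∀ i, i ≤ n → xOf f i = xOf f' i := fun i hi => by unfold xOf; rw [hf i hi]
  have hg : ∀ i, i ≤ n → gOf f i = gOf f' i := fun i hi => by unfold gOf; rw [hf i hi]
  have hr : rs (xOf f) n.unpair.1 = rs (xOf f') n.unpair.1 :=
    rs_congr _ (fun i hi => hx i (hi.le.trans (Nat.unpair_left_le n)))
  obtain ⟨h1, h2, h3⟩ := h
  refine ⟨?_, ?_, ?_⟩
  · rw [← hu, h1]; exact Xi_congr n (fun i hi => hx i hi.le)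
  · intro h; rw [← hg n le_rfl]; exact h2 h
  · intro j hj
    obtain ⟨i, h4, h5, h6, h7⟩ := h3 j hj
    have hlt : Nat.pair n.unpair.1 j ≤ n := by
      conv_rhs => rw [← Nat.pair_unpair n]
      rw [hj]
      exact (Nat.pair_lt_pair_right _ (Nat.lt_succ_self j)).le
    refine ⟨i, ?_, h5, ?_, ?_⟩
    · rw [← hg n le_rfl]; exact h4
    · rw [← hr]; exact h6
    · rw [← hg _ hlt]; exact h7

/-- the real coded by the clocks -/
noncomputable def Theta (y : List Bool → ℕ → Bool) (c : ℕ) : Bool := by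
  classical exact
  match (Encodable.decode c : Option (List Bool × List ℕ)) with
  | none => false
  | some (u, v) =>
    decide (∀ n, n < v.length → Con y (fun i => u.getD i false) (fun i => v.getD i 0) n)

theorem Theta_encode {y : List Bool → ℕ → Bool} {u : List Bool} {v : List ℕ} :
    Theta y (Encodable.encode (u, v)) = true ↔
      ∀ n, n < v.length → Con y (fun i => u.getD i false) (fun i => v.getD i 0) n := by
  unfold Theta
  rw [Encodable.encodek]
  simp

theorem seg_length {α : Type} (f : ℕ → α) (k : ℕ) : (seg f k).length = k := by simp [seg]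

theorem seg_getD {α : Type} (f : ℕ → α) (k i : ℕ) (d : α) (h : i < k) :
    (seg f k).getD i d = f i := by
  rw [List.getD_eq_getElem _ _ (by rw [seg_length]; exact h)]
  simp [seg]

theorem Theta_seg {y : List Bool → ℕ → Bool} {u : ℕ → Bool} {f : ℕ → ℕ} :
    (∀ k, Theta y (Encodable.encode (seg u k, seg f k)) = true) ↔ ∀ n, Con y u f n := by
  constructor
  · intro h n
    have h1 := Theta_encode.1 (h (n+1)) n (by rw [seg_length]; omega)
    refine Con_congr ?_ ?_ h1
    · exact seg_getD _ _ _ _ (by omega)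
    · intro i hi; exact seg_getD _ _ _ _ (by omega)
  · intro h k
    refine Theta_encode.2 (fun n hn => ?_)
    rw [seg_length] at hn
    refine Con_congr ?_ ?_ (h n)
    · exact (seg_getD _ _ _ _ (by omega)).symm
    · intro i hi; exact (seg_getD _ _ _ _ (by omega)).symm

theorem Theta_use (c : ℕ) : ∃ N, ∀ y y' : List Bool → ℕ → Bool,
    (∀ s i, s.length ≤ i → i < N → y s i = y' s i) → Theta y c = true → Theta y' c = true := by
  cases hd : (Encodable.decode c : Option (List Bool × List ℕ)) with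
  | none =>
    refine ⟨0, fun y y' _ h => ?_⟩
    unfold Theta at h
    rw [hd] at h
    simp at h
  | some p =>
    obtain ⟨u, v⟩ := p
    have hc : ∀ y : List Bool → ℕ → Bool, Theta y c = true ↔
        ∀ n, n < v.length → Con y (fun i => u.getD i false) (fun i => v.getD i 0) n := by
      intro y
      unfold Theta
      rw [hd]
      simp
    obtain ⟨N, hN⟩ := OCode.exists_bound_nat
      (P := fun n N => gOf (fun i => v.getD i 0) n ≤ N) (fun m M M' h h' => h'.trans h) v.length
      (fun m _ => ⟨_, le_rfl⟩)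
    refine ⟨N, fun y y' hy h => ?_⟩
    rw [hc] at h ⊢
    intro n hn
    obtain ⟨h1, h2, h3⟩ := h n hn
    refine ⟨h1, h2, fun j hj => ?_⟩
    obtain ⟨i, h4, h5, h6, h7⟩ := h3 j hj
    refine ⟨i, h4, h5, ?_, h7⟩
    have h8 := hN n hn
    rw [← hy _ i (by rw [rs_length]; exact h5) (by omega)]
    exact h6

/-- the reals all of whose clocks are ill-founded -/
def AY (y : List Bool → ℕ → Bool) : Set (ℕ → Bool) :=
  {x | ∀ k, ∃ P : ℕ → ℕ, P 0 = k ∧
    ∀ j, ∃ i, P (j+1) = i + 1 ∧ k ≤ i ∧ att (y (rs x k) i) i ∧ par i = P j}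

theorem isSigma11Set_AY (y : List Bool → ℕ → Bool) : IsSigma11Set (Theta y) (Xi '' AY y) := by
  refine ⟨Theta y, recIn_self _, fun u => ?_⟩
  constructor
  · rintro ⟨x, hx, rfl⟩
    choose P hP0 hP using hx
    let f : ℕ → ℕ := fun n => Nat.pair (if x n then 1 else 0) (P n.unpair.1 n.unpair.2)
    have hxf : xOf f = x := by
      funext n
      simp only [xOf, f, Nat.unpair_pair]
      cases x n <;> simp
    have hgf : ∀ n, gOf f n = P n.unpair.1 n.unpair.2 := by
      intro n; simp [gOf, f]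
    refine ⟨f, Theta_seg.2 (fun n => ⟨?_, ?_, ?_⟩)⟩
    · rw [hxf]
    · intro h; rw [hgf, h]; exact hP0 _
    · intro j hj
      obtain ⟨i, h1, h2, h3, h4⟩ := hP n.unpair.1 j
      refine ⟨i, ?_, h2, ?_, ?_⟩
      · rw [hgf, hj]; exact h1
      · rw [hxf]; exact h3
      · rw [hgf]; simpa using h4
  · rintro ⟨f, hf⟩
    have h := Theta_seg.1 hf
    refine ⟨xOf f, ?_, ?_⟩
    · intro k
      refine ⟨fun j => gOf f (Nat.pair k j), ?_, ?_⟩
      · have := (h (Nat.pair k 0)).2.1
        simpa using this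
      · intro j
        obtain ⟨i, h1, h2, h3, h4⟩ := (h (Nat.pair k (j+1))).2.2 j (by simp)
        simp only [Nat.unpair_pair] at h2 h3 h4
        exact ⟨i, h1, h2, h3, h4⟩
    · funext n
      exact (h n).1.symm

end Pool.Agent.H654R2
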