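import Pool.Agent.H654R2.VWClaim2
import Pool.Agent.H654R2.VWTheta

/-!
The closure ordinal, distinguished conditions and generic sequences.
-/

namespace Pool.Agent.H654R2

open Ordinal

theorem Pt.le_of_agree {p q : Pt} (hm : p.m = q.m) (h : Agree p.m p.o q.o) : Pt.le p q :=
  ⟨hm.ge, hm ▸ h⟩

theorem Pt.le_of_agree' {p q : Pt} (hm : p.m = q.m) (h : Agree p.m p.o q.o) : Pt.le q p :=
  ⟨hm.le, h.symm⟩

/-- the statement that `θ` bounds the witnesses for a piece of data -/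
def Wit {E A : Type} (Pr : E → Pt → A → A → Prop)
    (c : (ℕ × Obj) × (List Bool × List ℕ × E × A)) (θ : Ordinal.{0}) : Prop :=
  ∀ p : Pt, p.m = c.1.1 → p.o = c.1.2 →
    (¬ High Pt.le (Pr c.2.2.2.1) p c.2.2.2.2 →
      ∃ β, β < θ ∧ ¬ HH Pt.le (Pr c.2.2.2.1) β p c.2.2.2.2) ∧
    (Sharp p.m p.o c.2.1 (fun j => c.2.2.1.getD j 0) → High Pt.le (Pr c.2.2.2.1) p c.2.2.2.2 →
      ∃ q : Pt, Pt.le q p ∧ AllTB θ q.m q.o ∧ ∃ s' lam', c.2.1 <:+ s' ∧ Sharp q.m q.o s' lam' ∧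
        (∀ j, j ≤ p.m → lam' j = c.2.2.1.getD j 0) ∧
        ∃ b, Pr c.2.2.2.1 q b c.2.2.2.2 ∧ High Pt.le (Pr c.2.2.2.1) q b)

theorem Lim_omega_one : Lim ω₁ :=
  ⟨omega0_pos.trans omega0_lt_omega_one, fun _ hη => add_one_lt_omega_one hη⟩

theorem getD_range (lam : ℕ → ℕ) (m j : ℕ) (h : j ≤ m) :
    ((List.range (m + 1)).map lam).getD j 0 = lam j := by
  have h3 : j < ((List.range (m + 1)).map lam).length := by simp; omega
  rw [List.getD_eq_getElem _ _ h3]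
  simp

theorem Sharp.congr {m : ℕ} {o o' : Obj} {s : List Bool} {lam lam' : ℕ → ℕ}
    (h : Sharp m o s lam) (ha : Agree m o o') (hl : ∀ j, j ≤ m → lam j = lam' j) :
    Sharp m o' s lam' := by
  refine ⟨h.len, ?_, ?_⟩
  · rw [← ha.eκ h.len.le le_rfl]; exact h.top
  · intro i h1 h2 h3
    rw [← ha.eτ h.len.le (by rw [h.len]; exact h1)] at h3
    rw [← hl (i+1) h1, ← hl (par i) ((par_le i).trans h1.le)]
    exact h.dec i h1 h2 h3

section

variable {E A : Type} [Countable E] [Countable A] {Pr : E → Pt → A → A → Prop}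

theorem exists_delta (hPr : ∀ e, PrOK (Pr e)) : ∃ δ : Ordinal.{0}, δ < ω₁ ∧ ω < δ ∧ Lim δ ∧
    (∀ η, η < δ → mu η < δ) ∧
    (∀ p : Pt, AllTB δ p.m p.o → ∀ e a, ¬ High Pt.le (Pr e) p a →
      ∃ β, β < δ ∧ ¬ HH Pt.le (Pr e) β p a) ∧
    (∀ p : Pt, AllTB δ p.m p.o → ∀ s lam, Sharp p.m p.o s lam → ∀ e a,
      High Pt.le (Pr e) p a → ∃ q : Pt, Pt.le q p ∧ AllTB δ q.m q.o ∧ ∃ s' lam', s <:+ s' ∧
        Sharp q.m q.o s' lam' ∧ (∀ j, j ≤ p.m → lam' j = lam j) ∧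
        ∃ b, Pr e q b a ∧ High Pt.le (Pr e) q b) := by
  classical
  have hmono : ∀ (c : (ℕ × Obj) × (List Bool × List ℕ × E × A)) (θ θ' : Ordinal.{0}), θ ≤ θ' →
      Wit Pr c θ → Wit Pr c θ' := by
    intro c θ θ' hθ h p h1 h2
    obtain ⟨h3, h4⟩ := h p h1 h2
    refine ⟨fun h => ?_, fun h5 h6 => ?_⟩
    · obtain ⟨β, hβ, h7⟩ := h3 h
      exact ⟨β, lt_of_lt_of_le hβ hθ, h7⟩
    · obtain ⟨q, q1, q2, q3⟩ := h4 h5 h6
      exact ⟨q, q1, q2.mono hθ le_rfl, q3⟩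
  have hexi : ∀ η : Ordinal.{0}, η < ω₁ → ∀ c ∈ CD (List Bool × List ℕ × E × A) η,
      ∃ θ : Ordinal.{0}, θ < ω₁ ∧ Wit Pr c θ := by
    intro η hη c hc
    have h1 : ∃ θ₁ : Ordinal.{0}, θ₁ < ω₁ ∧ ∀ p : Pt, p.m = c.1.1 → p.o = c.1.2 →
        ¬ High Pt.le (Pr c.2.2.2.1) p c.2.2.2.2 →
          ∃ β, β < θ₁ ∧ ¬ HH Pt.le (Pr c.2.2.2.1) β p c.2.2.2.2 := by
      by_cases hex : ∃ p : Pt, p.m = c.1.1 ∧ p.o = c.1.2 ∧
          ¬ High Pt.le (Pr c.2.2.2.1) p c.2.2.2.2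
      · obtain ⟨p, hp1, hp2, hp3⟩ := hex
        unfold High at hp3
        push Not at hp3
        obtain ⟨β, hβ, hp4⟩ := hp3
        refine ⟨β + 1, add_one_lt_omega_one hβ, fun p' h1 h2 _ => ?_⟩
        have : p' = p := by
          obtain ⟨m, o, v, cc⟩ := p
          obtain ⟨m', o', v', cc'⟩ := p'
          simp only at hp1 hp2 h1 h2
          subst hp1 hp2
          subst h1 h2
          rfl
        exact ⟨β, Order.lt_add_one_iff.2 le_rfl, this ▸ hp4⟩
      · refine ⟨0, Lim_omega_one.1, fun p' h1 h2 h3 => absurd ⟨p', h1, h2, h3⟩ hex⟩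
    have h2 : ∃ θ₁ : Ordinal.{0}, θ₁ < ω₁ ∧ ∀ p : Pt, p.m = c.1.1 → p.o = c.1.2 →
        Sharp p.m p.o c.2.1 (fun j => c.2.2.1.getD j 0) →
        High Pt.le (Pr c.2.2.2.1) p c.2.2.2.2 →
          ∃ q : Pt, Pt.le q p ∧ AllTB θ₁ q.m q.o ∧ ∃ s' lam', c.2.1 <:+ s' ∧
            Sharp q.m q.o s' lam' ∧ (∀ j, j ≤ p.m → lam' j = c.2.2.1.getD j 0) ∧
            ∃ b, Pr c.2.2.2.1 q b c.2.2.2.2 ∧ High Pt.le (Pr c.2.2.2.1) q b := by
      by_cases hex : ∃ p : Pt, p.m = c.1.1 ∧ p.o = c.1.2 ∧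
          Sharp p.m p.o c.2.1 (fun j => c.2.2.1.getD j 0) ∧
          High Pt.le (Pr c.2.2.2.1) p c.2.2.2.2
      · obtain ⟨p, hp1, hp2, hp3, hp4⟩ := hex
        obtain ⟨q, q1, s', lam', q2, q3, q4, q5⟩ := claimC (hPr _) hp3 hp4
        obtain ⟨θ, hθ, hb⟩ := q.c.exists_lt Lim_omega_one
        refine ⟨θ, hθ, fun p' h1 h2 _ _ => ?_⟩
        have : p' = p := by
          obtain ⟨m, o, v, cc⟩ := p
          obtain ⟨m', o', v', cc'⟩ := p'
          simp only at hp1 hp2 h1 h2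
          subst hp1 hp2
          subst h1 h2
          rfl
        subst this
        exact ⟨q, q1, hb, s', lam', q2, q3, q4, q5⟩
      · refine ⟨0, Lim_omega_one.1, fun p' h1 h2 h3 h4 => absurd ⟨p', h1, h2, h3, h4⟩ hex⟩
    obtain ⟨θ₁, a1, a2⟩ := h1
    obtain ⟨θ₂, b1, b2⟩ := h2
    refine ⟨max θ₁ θ₂, max_lt a1 b1, fun p h1 h2 => ⟨fun h => ?_, fun h h' => ?_⟩⟩
    · obtain ⟨β, hβ, h3⟩ := a2 p h1 h2 h
      exact ⟨β, lt_of_lt_of_le hβ (le_max_left _ _), h3⟩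
    · obtain ⟨q, q1, q2, q3⟩ := b2 p h1 h2 h h'
      exact ⟨q, q1, q2.mono (le_max_right _ _) le_rfl, q3⟩
  obtain ⟨δ, d1, d2, d3, d4, d5⟩ := closure_pred (CD (List Bool × List ℕ × E × A))
    (fun η hη => CD_countable _ η hη) (fun ν _ hν c hc => CD_lim _ ν hν c hc)
    (fun c θ => Wit Pr c θ) hmono hexi mu (fun η hη => mu_lt_omega_one hη) ω omega0_lt_omega_one
  have key : ∀ p : Pt, AllTB δ p.m p.o → ∀ s (lam : ℕ → ℕ) e a,
      ∃ p' : Pt, p'.m = p.m ∧ Agree p.m p'.o p.o ∧ ∃ θ, θ < δ ∧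
        Wit Pr ((p'.m, p'.o), (s, (List.range (p.m+1)).map lam, e, a)) θ := by
    intro p hp s lam e a
    have ha : Agree p.m (mask p.m p.o) p.o := agree_mask
    let p' : Pt := ⟨p.m, mask p.m p.o, p.v.congr ha.symm, p.c.congr ha.symm⟩
    refine ⟨p', rfl, ha, ?_⟩
    exact d5 _ ⟨mask_mask, hp.congr ha.symm⟩
  have htr : ∀ p q r : Pt, Pt.le r q → Pt.le q p → Pt.le r p := fun p q r => Pt.le_trans p q r
  refine ⟨δ, d1, d2, d3, d4, ?_, ?_⟩
  · intro p hp e a hH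
    obtain ⟨p', hm, ha, θ, hθ, hW⟩ := key p hp [] (fun _ => 0) e a
    have h1 : Pt.le p' p := Pt.le_of_agree hm (hm ▸ ha)
    have h2 : Pt.le p p' := Pt.le_of_agree' hm (hm ▸ ha)
    obtain ⟨β, hβ, hHH⟩ := (hW p' rfl rfl).1 (fun h => hH (High_mono htr h2 h))
    exact ⟨β, hβ.trans hθ, fun h => hHH (HH_mono htr h1 h)⟩
  · intro p hp s lam hS e a hH
    obtain ⟨p', hm, ha, θ, hθ, hW⟩ := key p hp s lam e a
    have h1 : Pt.le p' p := Pt.le_of_agree hm (hm ▸ ha)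
    have h2 : Pt.le p p' := Pt.le_of_agree' hm (hm ▸ ha)
    obtain ⟨q, q1, q2, s', lam', q3, q4, q5, b, q6, q7⟩ := (hW p' rfl rfl).2
      (by
        rw [hm]
        exact hS.congr ha.symm (fun j hj => (getD_range lam p.m j hj).symm))
      (High_mono htr h1 hH)
    refine ⟨q, Pt.le_trans _ _ _ q1 h1, q2.mono hθ.le le_rfl, s', lam', q3, q4, ?_, b, q6, q7⟩
    intro j hj
    rw [q5 j (by rw [hm]; exact hj)]
    exact getD_range lam p.m j hj

end

theorem sharp_low {A : Type} {Pr : Pt → A → A → Prop} {δ : Ordinal.{0}} (hδ : δ < ω₁)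
    (hmu : ∀ η, η < δ → mu η < δ) (hPr : PrOK Pr) {p : Pt} (hb : AllTB δ p.m p.o)
    {s : List Bool} {lam : ℕ → ℕ} (hS : Sharp p.m p.o s lam) {β : Ordinal.{0}} (hβ : β < δ) {a : A}
    (h : ¬ HH Pt.le Pr β p a) : ∃ β', β' < β ∧ ∃ q : Pt, Pt.le q p ∧ AllTB δ q.m q.o ∧
      (∃ s', s <:+ s' ∧ Sharp q.m q.o s' lam) ∧ Low Pt.le Pr β' q a := by
  obtain ⟨β', hβ', q', hq', hL⟩ := not_HH h
  have h1 : mu β' + ω + ω ≤ δ := (mu_step hβ').trans (hmu β hβ).le
  obtain ⟨k, hk⟩ := Nat.exists_eq_add_of_le hq'.1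
  have hv : Valid (p.m + k) q'.o := by rw [← hk]; exact q'.v
  have hs : SimO ((mu β' + ω + k : Ordinal.{0}) : Tag) p.m q'.o p.o := hq'.2.mono le_top le_rfl
  obtain ⟨o'', g1, g2, g3, g4, g5⟩ := ext_many k hv p.v hs
  have h2 : AllTB δ (p.m + k) o'' := g4 δ ((omega_add_nat_le k).trans h1) hb
  let q : Pt := ⟨p.m + k, o'', g1, h2.mono hδ.le le_rfl⟩
  refine ⟨β', hβ', q, ⟨Nat.le_add_right _ _, g2⟩, h2, g5 s lam hS, ?_⟩
  refine Low_PS hPr ?_ (q := q) (q' := q') ⟨hk.symm, g3⟩ hL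
  exact le_trans le_self_add (h1.trans hδ.le)

theorem top_suffix {m : ℕ} {o : Obj} (hv : Valid m o) {s : List Bool} : ∀ s' : List Bool,
    s <:+ s' → s'.length ≤ m → o.κ s' s'.length = ⊤ →
      o.κ s s.length = ⊤ ∧ ∀ j, j ≤ s.length → o.τ s' j = o.τ s j := by
  intro s'
  induction s' with
  | nil =>
    intro h _ ht
    rw [List.suffix_nil] at h
    subst h
    exact ⟨ht, fun _ _ => rfl⟩
  | cons b t ih =>
    intro h hl ht
    rcases List.suffix_cons_iff.1 h with rfl | h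
    · exact ⟨ht, fun _ _ => rfl⟩
    · have hl' : t.length < m := by simpa using hl
      have h1 := hv.mon t b hl'
      have ht' : o.κ (b :: t) (t.length + 1) = ⊤ := by simpa using ht
      rw [ht'] at h1
      obtain ⟨h2, h3⟩ := ih h hl'.le (top_le_iff.1 h1)
      refine ⟨h2, fun j hj => ?_⟩
      have h4 := hv.coh t b hl' j (hj.trans (List.IsSuffix.length_le h))
      rw [ht'] at h4
      rw [sim_top h4, h3 j hj]

/-- distinguished conditions with tags below `δ` -/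
structure SC (δ : Ordinal.{0}) where
  m : ℕ
  o : Obj
  s : List Bool
  lam : ℕ → ℕ
  v : Valid m o
  c : AllTB δ m o
  sh : Sharp m o s lam

/-- extension of distinguished conditions -/
structure SC.le {δ : Ordinal.{0}} (q p : SC δ) : Prop where
  m : p.m ≤ q.m
  ag : Agree p.m q.o p.o
  s : p.s <:+ q.s
  lam : ∀ j, j ≤ p.m → q.lam j = p.lam j

theorem SC.le_refl {δ : Ordinal.{0}} (p : SC δ) : SC.le p p :=
  ⟨le_rfl, SimO.refl, List.suffix_refl _, fun _ _ => rfl⟩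

theorem SC.le_trans {δ : Ordinal.{0}} {p q r : SC δ} (h1 : SC.le r q) (h2 : SC.le q p) :
    SC.le r p :=
  ⟨h2.m.trans h1.m, (h1.ag.mono le_rfl h2.m).trans h2.ag, h2.s.trans h1.s,
    fun j hj => (h1.lam j (hj.trans h2.m)).trans (h2.lam j hj)⟩

/-- the same visible information -/
structure SC.eqv {δ : Ordinal.{0}} (q p : SC δ) : Prop where
  m : p.m = q.m
  ag : Agree p.m q.o p.o
  s : p.s = q.s
  lam : ∀ j, j ≤ p.m → q.lam j = p.lam j

theorem bitAt_suffix {s s' : List Bool} (h : s <:+ s') {i : ℕ} (hi : i < s.length) :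
    bitAt s' i = bitAt s i := by
  obtain ⟨t, rfl⟩ := h
  induction t with
  | nil => rfl
  | cons b t ih =>
    rw [List.cons_append, bitAt_cons_lt (by simp; omega)]
    exact ih

theorem rs_of_bits {x : ℕ → Bool} : ∀ s : List Bool, (∀ i, i < s.length → bitAt s i = x i) →
    rs x s.length = s := by
  intro s
  induction s with
  | nil => intro _; rfl
  | cons b s ih =>
    intro h
    have h1 := h s.length (by simp)
    rw [bitAt_cons_length] at h1
    show x s.length :: rs x s.length = b :: s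
    rw [ih (fun i hi => by
      have := h i (by simp; omega)
      rwa [bitAt_cons_lt hi] at this), h1]

/-- limits of distinguished conditions -/
structure GO (δ : Ordinal.{0}) where
  G : Obj
  x : ℕ → Bool
  lam : ℕ → ℕ
  v : ∀ m, Valid m G
  c : ∀ m, AllTB δ m G
  sh : ∀ m, Sharp m G (rs x m) lam

/-- the restriction to stage `m` -/
def GO.at {δ : Ordinal.{0}} (g : GO δ) (m : ℕ) : SC δ :=
  ⟨m, g.G, rs g.x m, g.lam, g.v m, g.c m, g.sh m⟩

theorem Sharp.restrict {m n : ℕ} {o : Obj} {s s' : List Bool} {lam : ℕ → ℕ} (hv : Valid m o)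
    (h : Sharp m o s' lam) (hs : s <:+ s') (hl : s.length = n) : Sharp n o s lam := by
  obtain ⟨h1, h2⟩ := top_suffix hv s' hs h.len.le (by rw [h.len]; exact h.top)
  have hle : s.length ≤ s'.length := List.IsSuffix.length_le hs
  refine ⟨hl, by rw [← hl]; exact h1, ?_⟩
  intro i hi h3 h4
  refine h.dec i (by have := h.len; omega) ?_ ?_
  · rw [bitAt_suffix hs (by omega)]; exact h3
  · rw [h2 _ (by omega)]; exact h4

theorem exists_limit {δ : Ordinal.{0}} (sq : ℕ → SC δ) (hsq : ∀ n, SC.le (sq (n+1)) (sq n))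
    (hun : ∀ k, ∃ n, k ≤ (sq n).m) : ∃ g : GO δ, ∀ n, SC.eqv (sq n) (g.at (sq n).m) := by
  have hle : ∀ n d, SC.le (sq (n+d)) (sq n) := by
    intro n d
    induction d with
    | zero => exact SC.le_refl _
    | succ d ih => exact SC.le_trans (hsq (n+d)) ih
  have hle' : ∀ n n', n ≤ n' → SC.le (sq n') (sq n) := by
    intro n n' h
    obtain ⟨d, rfl⟩ := Nat.exists_eq_add_of_le h
    exact hle n d
  have hag : ∀ M n n', M ≤ (sq n).m → M ≤ (sq n').m → Agree M (sq n).o (sq n').o := by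
    intro M n n' h1 h2
    rcases le_total n n' with h | h
    · exact ((hle' n n' h).ag.mono le_rfl h1).symm
    · exact (hle' n' n h).ag.mono le_rfl h2
  have hlam : ∀ M n n', M ≤ (sq n).m → M ≤ (sq n').m → ∀ j, j ≤ M →
      (sq n).lam j = (sq n').lam j := by
    intro M n n' h1 h2 j hj
    rcases le_total n n' with h | h
    · exact ((hle' n n' h).lam j (hj.trans h1)).symm
    · exact (hle' n' n h).lam j (hj.trans h2)
  have hbit : ∀ n n' i, i < (sq n).m → i < (sq n').m →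
      bitAt (sq n).s i = bitAt (sq n').s i := by
    intro n n' i h1 h2
    rcases le_total n n' with h | h
    · exact (bitAt_suffix (hle' n n' h).s (by rw [(sq n).sh.len]; exact h1)).symm
    · exact bitAt_suffix (hle' n' n h).s (by rw [(sq n').sh.len]; exact h2)
  choose k hk using hun
  let G : Obj :=
    { y := fun s i => (sq (k (i+1))).o.y s i
      κ := fun s i => (sq (k i)).o.κ s i
      τ := fun s j => (sq (k s.length)).o.τ s j }
  let x : ℕ → Bool := fun n => bitAt (sq (k (n+1))).s n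
  let lam : ℕ → ℕ := fun j => (sq (k j)).lam j
  have hG : ∀ n, Agree (sq n).m G (sq n).o := by
    intro n
    refine ⟨?_, ?_, ?_⟩
    · intro s i h1 h2
      exact (hag (i+1) (k (i+1)) n (hk _) h2).y s i h1 (Nat.lt_succ_self i)
    · intro s i h1 h2
      exact (hag i (k i) n (hk _) h2).κ s i h1 le_rfl
    · intro s j h1 h2
      exact (hag s.length (k s.length) n (hk _) h1).τ s j le_rfl h2
  have hx : ∀ n, rs x (sq n).m = (sq n).s := by
    intro n
    have hl := (sq n).sh.len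
    rw [← hl]
    apply rs_of_bits
    intro i hi
    exact hbit n (k (i+1)) i (by omega) (by have := hk (i+1); omega)
  have hl : ∀ n j, j ≤ (sq n).m → (sq n).lam j = lam j := by
    intro n j hj
    exact hlam j n (k j) hj (hk j) j le_rfl
  have hv : ∀ m, Valid m G := fun m =>
    ((sq (k m)).v.congr (hG (k m)).symm).mono (hk m)
  have hc : ∀ m, AllTB δ m G := fun m =>
    ((sq (k m)).c.congr (hG (k m)).symm).mono le_rfl (hk m)
  have hrs : ∀ m n, m ≤ n → rs x m <:+ rs x n := by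
    intro m n h
    obtain ⟨d, rfl⟩ := Nat.exists_eq_add_of_le h
    induction d with
    | zero => exact List.suffix_refl _
    | succ d ih => exact (ih (by omega)).trans (List.suffix_cons _ _)
  have hsh : ∀ m, Sharp m G (rs x m) lam := by
    intro m
    have h1 : Sharp (sq (k m)).m G (sq (k m)).s lam :=
      (sq (k m)).sh.congr (hG (k m)).symm (hl (k m))
    rw [← hx] at h1
    exact h1.restrict (hv _) (hrs _ _ (hk m)) (rs_length x m)
  refine ⟨⟨G, x, lam, hv, hc, hsh⟩, fun n => ⟨rfl, (hG n).symm, hx n, hl n⟩⟩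

theorem exists_gen {δ : Ordinal.{0}} (p0 : SC δ) {R : Type*} [Countable R] (D : R → Set (SC δ))
    (hD : ∀ r p, ∃ q, SC.le q p ∧ q ∈ D r)
    (hloc : ∀ r p q, SC.eqv p q → p ∈ D r → q ∈ D r)
    (hex : ∀ p : SC δ, ∃ q, SC.le q p ∧ p.m < q.m) :
    ∃ g : GO δ, (∀ r, ∃ m, g.at m ∈ D r) ∧ SC.eqv p0 (g.at p0.m) := by
  classical
  have hD' : ∀ (r : Option R) (p : SC δ), ∃ q, SC.le q p ∧ p.m < q.m ∧
      (∀ r', r = some r' → q ∈ D r') := by
    intro r p
    obtain ⟨q, h1, h2⟩ := hex p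
    cases r with
    | none => exact ⟨q, h1, h2, fun r' h => by simp at h⟩
    | some r =>
      obtain ⟨q', h3, h4⟩ := hD r q
      refine ⟨q', SC.le_trans h3 h1, lt_of_lt_of_le h2 h3.m, ?_⟩
      intro r' h
      simp only [Option.some.injEq] at h
      exact h ▸ h4
  choose F hF1 hF2 hF3 using hD'
  obtain ⟨en, hen⟩ := exists_surjective_nat (Option R)
  let sq : ℕ → SC δ := fun n => Nat.rec p0 (fun n p => F (en n) p) n
  have hs0 : sq 0 = p0 := rfl
  have hs : ∀ n, sq (n+1) = F (en n) (sq n) := fun n => rfl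
  have hle : ∀ n, SC.le (sq (n+1)) (sq n) := fun n => by rw [hs]; exact hF1 _ _
  have hmm : ∀ n, n ≤ (sq n).m := by
    intro n
    induction n with
    | zero => exact Nat.zero_le _
    | succ n ih =>
      have := hF2 (en n) (sq n)
      rw [hs]; omega
  obtain ⟨g, hg⟩ := exists_limit sq hle (fun k => ⟨k, hmm k⟩)
  refine ⟨g, ?_, hg 0⟩
  intro r
  obtain ⟨n, hn⟩ := hen (some r)
  refine ⟨(sq (n+1)).m, ?_⟩
  refine hloc r _ _ (hg (n+1)) ?_
  rw [hs]
  exact hF3 (en n) (sq n) r hn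

end Pool.Agent.H654R2
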