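import Pool.Agent.H654R2.VWObj

/-!
The extension (amalgamation) lemma.
-/

namespace Pool.Agent.H654R2

open Ordinal

/-- `s` is a distinguished string at stage `m`, with ranks `lam` for the nodes tagged `⊤`. -/
structure Sharp (m : ℕ) (o : Obj) (s : List Bool) (lam : ℕ → ℕ) : Prop where
  len : s.length = m
  top : o.κ s m = ⊤
  dec : ∀ i, i < m → att (bitAt s i) i → o.τ s (i+1) = ⊤ → lam (i+1) < lam (par i)

theorem ext_one {m : ℕ} {o o' : Obj} {μ : Ordinal.{0}} (hv : Valid (m+1) o) (hv' : Valid m o')
    (hs : SimO ((μ + 1 : Ordinal.{0}) : Tag) m o o') :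
    ∃ o'' : Obj, Valid (m+1) o'' ∧ Agree m o'' o' ∧ SimO (μ : Tag) (m+1) o'' o ∧
      (∀ η : Ordinal.{0}, μ < η → AllTB η m o' → AllTB η (m+1) o'') ∧
      (∀ s lam, Sharp m o' s lam → ∃ b, Sharp (m+1) o'' (b::s) lam) := by
  classical
  have hnk : ∀ s : List Bool, ∃ b, s.length = m → (o.κ (b::s) (m+1) = o.κ s m ∧
      ∀ j, j ≤ m → o.τ (b::s) j = o.τ s j) := by
    intro s
    by_cases h : s.length = m
    · obtain ⟨b, hb1, hb2⟩ := hv.nk s (by omega)
      refine ⟨b, fun _ => ⟨?_, ?_⟩⟩
      · rw [h] at hb1; exact hb1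
      · intro j hj; exact hb2 j (by omega)
    · exact ⟨false, fun h' => absurd h' h⟩
  choose nb hnb using hnk
  have hμ : (μ : Tag) ≤ ((μ + 1 : Ordinal.{0}) : Tag) := by
    have : μ ≤ μ + 1 := (Order.lt_add_one_iff.2 le_rfl).le
    exact_mod_cast this
  let d : StepData :=
    { yb := fun s => o.y s m
      kt := fun s => min (o.κ s (m+1)) (μ : Tag)
      nb := nb
      nt := fun s => min (o.τ (nb s :: s) (m+1)) (μ : Tag)
      orho := fun s => min (o.κ ((!nb s) :: s) (m+1)) (μ : Tag)
      ot := fun s j => cut (μ : Tag) (o.τ ((!nb s) :: s) j) }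
  have hd : StepOK m o' d := by
    refine ⟨?_, ?_, ?_, ?_, ?_⟩
    · intro s h1 h2 h3
      exact prec_min (hv.clk s m h1 (by omega) h2 h3) (hs.κ s (par m) h3 (par_le m))
    · intro s h1 h2
      have h3 : prec (o.τ (nb s :: s) (m+1)) (o.τ (nb s :: s) (par m)) := by
        apply hv.tre (nb s :: s) (by simp; omega) m (by simp; omega)
        subst h1
        rw [bitAt_cons_length]; exact h2
      rw [(hnb s h1).2 (par m) (par_le m)] at h3
      exact prec_min h3 (hs.τ s (par m) h1.le (by rw [h1]; exact par_le m))
    · intro s h1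
      have h3 := hv.mon s (!nb s) (by omega)
      rw [h1] at h3
      exact le_min_sim h3 (hs.κ s m h1.le le_rfl)
    · intro s h1 j hj
      have h3 := hv.coh s (!nb s) (by omega) j (by omega)
      rw [h1] at h3
      exact coh_aux h3 (hs.τ s j h1.le (by omega))
    · intro s h1 i h2 h3
      exact prec_cut (hv.tre ((!nb s)::s) (by simp; omega) i (by simp; omega) h3)
  refine ⟨stepO m o' d, hv'.stepO hd, agree_stepO, ?_, ?_, ?_⟩
  · refine ⟨?_, ?_, ?_⟩
    · intro s i h1 h2
      rcases Nat.lt_succ_iff_lt_or_eq.1 h2 with h | rfl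
      · simp only [stepO, h, if_true]
        exact (hs.y s i h1 h).symm
      · simp [stepO, d]
    · intro s i h1 h2
      rcases Nat.lt_or_ge m i with hi | hi
      · have hi' : i = m + 1 := by omega
        subst hi'
        rcases Nat.lt_or_ge m s.length with h | h
        · obtain ⟨b, t, rfl⟩ : ∃ b t, s = b :: t := by
            cases s with
            | nil => simp at h
            | cons b t => exact ⟨b, t, rfl⟩
          have ht : t.length = m := by simp at h1 h; omega
          by_cases hb : b = nb t
          · subst hb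
            have e : (stepO m o' d).κ (nb t :: t) (m+1) = o'.κ t m := stepO_κ_nk (d := d) ht
            rw [e, (hnb t ht).1]
            exact sim_mono hμ (sim_symm (hs.κ t m ht.le le_rfl))
          · have e : (stepO m o' d).κ (b :: t) (m+1) = d.orho t :=
              stepO_κ_other (d := d) ht hb
            rw [e]
            have hb' : b = !nb t := by
              cases b <;> cases h4 : nb t <;> simp_all
            rw [hb']
            exact sim_min
        · rw [stepO_κ_new h]
          exact sim_min
      · rw [stepO_κ_le hi]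
        exact sim_mono hμ (sim_symm (hs.κ s i h1 hi))
    · intro s j h1 h2
      rcases Nat.lt_or_ge m s.length with h | h
      · obtain ⟨b, t, rfl⟩ : ∃ b t, s = b :: t := by
          cases s with
          | nil => simp at h
          | cons b t => exact ⟨b, t, rfl⟩
        have ht : t.length = m := by simp at h1 h; omega
        by_cases hb : b = nb t
        · subst hb
          rcases Nat.lt_or_ge m j with hj | hj
          · have hj' : j = m + 1 := by simp at h2; omega
            subst hj'
            have e : (stepO m o' d).τ (nb t :: t) (m+1) = d.nt t := stepO_τ_nk_new (d := d) ht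
            rw [e]
            exact sim_min
          · have e : (stepO m o' d).τ (nb t :: t) j = o'.τ t j := stepO_τ_nk (d := d) ht hj
            rw [e, (hnb t ht).2 j hj]
            exact sim_mono hμ (sim_symm (hs.τ t j ht.le (by omega)))
        · have e : (stepO m o' d).τ (b :: t) j = d.ot t j := stepO_τ_other (d := d) ht hb
          rw [e]
          have hb' : b = !nb t := by
            cases b <;> cases h4 : nb t <;> simp_all
          rw [hb']
          exact sim_cut
      · rw [stepO_τ_le h]
        exact sim_mono hμ (sim_symm (hs.τ s j h h2))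
  · intro η hη hb
    refine hb.stepO ?_ ?_ ?_ ?_
    · intro s _; exact TB_min hη
    · intro s _; exact TB_min hη
    · intro s _; exact TB_min hη
    · intro s _ j _; exact TB_cut hη.le
  · intro s lam hS
    have hl := hS.len
    refine ⟨nb s, by simp [hl], ?_, ?_⟩
    · have e : (stepO m o' d).κ (nb s :: s) (m+1) = o'.κ s m := stepO_κ_nk (d := d) hl
      rw [e]; exact hS.top
    · intro i h1 h2 h3
      rcases Nat.lt_succ_iff_lt_or_eq.1 h1 with h | rfl
      · rw [bitAt_cons_lt (by omega)] at h2
        have e : (stepO m o' d).τ (nb s :: s) (i+1) = o'.τ s (i+1) :=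
          stepO_τ_nk (d := d) hl (by omega)
        rw [e] at h3
        exact hS.dec i h h2 h3
      · have e : (stepO i o' d).τ (nb s :: s) (i+1) = d.nt s := stepO_τ_nk_new (d := d) hl
        rw [e] at h3
        exact absurd h3 min_ne_top

theorem ext_many (k : ℕ) : ∀ {m : ℕ} {o o' : Obj} {μ : Ordinal.{0}}, Valid (m+k) o →
    Valid m o' → SimO ((μ + k : Ordinal.{0}) : Tag) m o o' →
    ∃ o'' : Obj, Valid (m+k) o'' ∧ Agree m o'' o' ∧ SimO (μ : Tag) (m+k) o'' o ∧
      (∀ η : Ordinal.{0}, μ + k ≤ η → AllTB η m o' → AllTB η (m+k) o'') ∧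
      (∀ s lam, Sharp m o' s lam → ∃ s', s <:+ s' ∧ Sharp (m+k) o'' s' lam) := by
  induction k with
  | zero =>
    intro m o o' μ hv hv' hs
    refine ⟨o', by simpa using hv', SimO.refl, ?_, ?_, ?_⟩
    · have : SimO (μ : Tag) m o o' := by simpa using hs
      simpa using this.symm
    · intro η _ h; simpa using h
    · intro s lam h
      exact ⟨s, List.suffix_refl s, by simpa using h⟩
  | succ k ih =>
    intro m o o' μ hv hv' hs
    have e : ((μ + (k+1 : ℕ) : Ordinal.{0})) = (μ + k) + 1 := by
      push_cast
      rw [add_assoc]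
    rw [e] at hs
    obtain ⟨o1, h1, h2, h3, h4, h5⟩ := ext_one (hv.mono (by omega : m + 1 ≤ m + (k+1))) hv' hs
    have hv1 : Valid ((m+1)+k) o := by
      have : m + 1 + k = m + (k+1) := by omega
      rw [this]; exact hv
    obtain ⟨o2, g1, g2, g3, g4, g5⟩ := ih hv1 h1 h3.symm
    have em : m + 1 + k = m + (k+1) := by omega
    rw [em] at g1 g3 g4 g5
    refine ⟨o2, g1, (g2.mono le_rfl (by omega)).trans h2, g3, ?_, ?_⟩
    · intro η hη hb
      have h6 : μ + k < η := by
        rw [e] at hη
        exact lt_of_lt_of_le (Order.lt_add_one_iff.2 le_rfl) hη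
      exact g4 η h6.le (h4 η h6 hb)
    · intro s lam hS
      obtain ⟨b, hb⟩ := h5 s lam hS
      obtain ⟨s', hs1, hs2⟩ := g5 _ _ hb
      exact ⟨s', (List.suffix_cons b s).trans hs1, hs2⟩

end Pool.Agent.H654R2
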