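import Pool.Agent.H654R2.VWExt

/-!
The forcing relation for ranks of relations.
-/

namespace Pool.Agent.H654R2

open Ordinal

section abstractH

universe u

variable {P : Type u} {A : Type}

/-- `HH le Pr β p a`: the condition `p` forces that `a` has rank at least `β` in the relation
given by `Pr`. -/
def HH (le : P → P → Prop) (Pr : P → A → A → Prop) (β : Ordinal.{0}) (p : P) (a : A) : Prop :=
  ∀ β' : Ordinal.{0}, β' < β → ∀ q : P, le q p → ∃ r : P, le r q ∧ ∃ b : A, Pr r b a ∧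
    HH le Pr β' r b
termination_by β

variable {le : P → P → Prop} {Pr : P → A → A → Prop}

theorem HH_iff {β : Ordinal.{0}} {p : P} {a : A} : HH le Pr β p a ↔
    ∀ β' : Ordinal.{0}, β' < β → ∀ q : P, le q p → ∃ r : P, le r q ∧ ∃ b : A, Pr r b a ∧
      HH le Pr β' r b := by
  conv_lhs => rw [HH]

/-- the condition forces that the rank of `a` is at most `β` -/
def Low (le : P → P → Prop) (Pr : P → A → A → Prop) (β : Ordinal.{0}) (p : P) (a : A) : Prop :=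
  ∀ r, le r p → ∀ b, Pr r b a → ¬ HH le Pr β r b

/-- the condition forces that the rank of `a` is at least `ω₁` -/
def High (le : P → P → Prop) (Pr : P → A → A → Prop) (p : P) (a : A) : Prop :=
  ∀ β : Ordinal.{0}, β < ω₁ → HH le Pr β p a

theorem HH_mono (htr : ∀ p q r, le r q → le q p → le r p) {β : Ordinal.{0}} {p q : P} {a : A}
    (hq : le q p) (h : HH le Pr β p a) : HH le Pr β q a := by
  rw [HH_iff] at h ⊢
  intro β' hβ' q' hq'
  exact h β' hβ' q' (htr _ _ _ hq' hq)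

theorem HH_anti {β β₁ : Ordinal.{0}} {p : P} {a : A} (hβ : β₁ ≤ β)
    (h : HH le Pr β p a) : HH le Pr β₁ p a := by
  rw [HH_iff] at h ⊢
  intro β' hβ'
  exact h β' (lt_of_lt_of_le hβ' hβ)

theorem High_mono (htr : ∀ p q r, le r q → le q p → le r p) {p q : P} {a : A}
    (hq : le q p) (h : High le Pr p a) : High le Pr q a :=
  fun β hβ => HH_mono htr hq (h β hβ)

theorem Low_mono (htr : ∀ p q r, le r q → le q p → le r p) {β : Ordinal.{0}} {p q : P} {a : A}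
    (hq : le q p) (h : Low le Pr β p a) : Low le Pr β q a :=
  fun r hr b hb => h r (htr _ _ _ hr hq) b hb

theorem not_HH {β : Ordinal.{0}} {p : P} {a : A} (h : ¬ HH le Pr β p a) :
    ∃ β' : Ordinal.{0}, β' < β ∧ ∃ q, le q p ∧ Low le Pr β' q a := by
  rw [HH_iff] at h
  push Not at h
  obtain ⟨β', hβ', q, hq, h⟩ := h
  exact ⟨β', hβ', q, hq, fun r hr b hb => h r hr b hb⟩

theorem HH_not_Low (hrf : ∀ p, le p p) {β β₁ : Ordinal.{0}} {p : P} {a : A} (hβ : β < β₁)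
    (h : HH le Pr β₁ p a) : ¬ Low le Pr β p a := by
  intro hl
  rw [HH_iff] at h
  obtain ⟨r, hr, b, hb, hb'⟩ := h β hβ p (hrf p)
  exact hl r hr b hb hb'

/-- the ordinal function used in the retagging lemma -/
noncomputable def mu (β : Ordinal.{0}) : Ordinal.{0} := (ω + ω) * β

theorem mu_step {β' β : Ordinal.{0}} (h : β' < β) : mu β' + ω + ω ≤ mu β := by
  have h1 : β' + 1 ≤ β := Order.add_one_le_of_lt h
  calc mu β' + ω + ω = (ω + ω) * (β' + 1) := by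
        rw [mul_add, mul_one, mu, add_assoc]
    _ ≤ mu β := mul_le_mul_right h1 _

theorem le_mu {β : Ordinal.{0}} : β ≤ mu β := by
  have h : (0 : Ordinal.{0}) < ω + ω := lt_of_lt_of_le omega0_pos le_self_add
  exact le_mul_of_one_le_left' (Order.one_le_iff_pos.2 h)

/-- The retagging lemma. -/
theorem HH_sim {S : Ordinal.{0} → P → P → Prop}
    (hsymm : ∀ μ p q, S μ p q → S μ q p)
    (hmono : ∀ μ ν p q, ν ≤ μ → S μ p q → S ν p q)
    (hext : ∀ μ : Ordinal.{0}, μ + ω ≤ ω₁ → ∀ p p', S (μ + ω) p p' → ∀ q', le q' p' →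
      ∃ q, le q p ∧ S μ q q')
    (hPr : ∀ μ p p', S μ p p' → ∀ b a, Pr p b a → Pr p' b a) :
    ∀ β : Ordinal.{0}, mu β ≤ ω₁ → ∀ p p' a, S (mu β) p p' → HH le Pr β p a →
      HH le Pr β p' a := by
  intro β
  induction β using WellFoundedLT.induction with
  | ind β ih =>
    intro hβ p p' a hS h
    rw [HH_iff] at h ⊢
    intro β' hβ' q' hq'
    have h1 := mu_step hβ'
    obtain ⟨q, hq, hSq⟩ := hext (mu β' + ω) (h1.trans hβ) p p' (hmono _ _ _ _ h1 hS) q' hq'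
    obtain ⟨r, hr, b, hb, hb'⟩ := h β' hβ' q hq
    have h2 : mu β' + ω ≤ ω₁ := le_trans le_self_add (h1.trans hβ)
    obtain ⟨r', hr', hSr⟩ := hext (mu β') h2 q' q (hsymm _ _ _ hSq) r hr
    exact ⟨r', hr', b, hPr _ _ _ (hsymm _ _ _ hSr) _ _ hb,
      ih β' hβ' (le_trans le_self_add h2) r r' b (hsymm _ _ _ hSr) hb'⟩

theorem Low_sim {S : Ordinal.{0} → P → P → Prop}
    (hsymm : ∀ μ p q, S μ p q → S μ q p)
    (hmono : ∀ μ ν p q, ν ≤ μ → S μ p q → S ν p q)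
    (hext : ∀ μ : Ordinal.{0}, μ + ω ≤ ω₁ → ∀ p p', S (μ + ω) p p' → ∀ q', le q' p' →
      ∃ q, le q p ∧ S μ q q')
    (hPr : ∀ μ p p', S μ p p' → ∀ b a, Pr p b a → Pr p' b a)
    (β : Ordinal.{0}) (hβ : mu β + ω ≤ ω₁) (q q' : P) (a : A) (hS : S (mu β + ω) q q')
    (h : Low le Pr β q' a) : Low le Pr β q a := by
  intro r hr b hb hH
  obtain ⟨r', hr', hSr⟩ := hext (mu β) hβ q' q (hsymm _ _ _ hS) r hr
  have := HH_sim hsymm hmono hext hPr β (le_trans le_self_add hβ) r r' b (hsymm _ _ _ hSr) hH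
  exact h r' hr' b (hPr _ _ _ (hsymm _ _ _ hSr) _ _ hb) this

end abstractH

/-- conditions -/
structure Pt where
  m : ℕ
  o : Obj
  v : Valid m o
  c : AllTB ω₁ m o

/-- extension -/
def Pt.le (q p : Pt) : Prop := p.m ≤ q.m ∧ Agree p.m q.o p.o

def PS (μ : Ordinal.{0}) (p p' : Pt) : Prop := p.m = p'.m ∧ SimO (μ : Tag) p.m p.o p'.o

theorem Pt.le_refl (p : Pt) : Pt.le p p := ⟨le_rfl, SimO.refl⟩

theorem Pt.le_trans (p q r : Pt) (h1 : Pt.le r q) (h2 : Pt.le q p) : Pt.le r p :=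
  ⟨h2.1.trans h1.1, (h1.2.mono le_rfl h2.1).trans h2.2⟩

theorem PS.symm {μ : Ordinal.{0}} {p p' : Pt} (h : PS μ p p') : PS μ p' p :=
  ⟨h.1.symm, by rw [← h.1]; exact h.2.symm⟩

theorem PS.mono {μ ν : Ordinal.{0}} {p p' : Pt} (hν : ν ≤ μ) (h : PS μ p p') : PS ν p p' :=
  ⟨h.1, h.2.mono (by exact_mod_cast hν) le_rfl⟩

theorem omega_add_nat_le {μ : Ordinal.{0}} (k : ℕ) : μ + k ≤ μ + ω :=
  (add_le_add_iff_left μ).2 (natCast_lt_omega0 k).le

theorem PS.ext {μ : Ordinal.{0}} (hμ : μ + ω ≤ ω₁) {p p' : Pt} (h : PS (μ + ω) p p') {q' : Pt}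
    (hq' : Pt.le q' p') : ∃ q, Pt.le q p ∧ PS μ q q' := by
  obtain ⟨k, hk⟩ := Nat.exists_eq_add_of_le hq'.1
  rw [← h.1] at hk
  have hs : SimO ((μ + k : Ordinal.{0}) : Tag) p.m q'.o p.o := by
    have h1 : SimO ((μ + ω : Ordinal.{0}) : Tag) p.m q'.o p.o := by
      refine SimO.trans ?_ h.2.symm
      rw [h.1]
      exact hq'.2.mono le_top le_rfl
    exact h1.mono (by exact_mod_cast omega_add_nat_le k) le_rfl
  have hv : Valid (p.m + k) q'.o := by rw [← hk]; exact q'.v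
  obtain ⟨o'', h1, h2, h3, h4, -⟩ := ext_many k hv p.v hs
  refine ⟨⟨p.m + k, o'', h1, h4 ω₁ ((omega_add_nat_le k).trans hμ) p.c⟩, ⟨?_, h2⟩, ⟨hk.symm, h3⟩⟩
  simp

/-- admissible families of decided relations -/
structure PrOK {A : Type} (Pr : Pt → A → A → Prop) : Prop where
  sim : ∀ p p' : Pt, PS 0 p p' → ∀ b a, Pr p b a → Pr p' b a
  mono : ∀ p q : Pt, Pt.le q p → ∀ b a, Pr p b a → Pr q b a

section

variable {A : Type} {Pr : Pt → A → A → Prop}

theorem HH_PS (hPr : PrOK Pr) {β : Ordinal.{0}} (hβ : mu β ≤ ω₁) {p p' : Pt} {a : A}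
    (h : PS (mu β) p p') (hH : HH Pt.le Pr β p a) : HH Pt.le Pr β p' a :=
  HH_sim (S := PS) (fun _ _ _ h => h.symm) (fun _ _ _ _ h h' => h'.mono h)
    (fun _ hμ _ _ h _ hq => h.ext hμ hq)
    (fun _ p p' h b a h' => hPr.sim p p' (h.mono zero_le) b a h') β hβ p p' a h hH

theorem Low_PS (hPr : PrOK Pr) {β : Ordinal.{0}} (hβ : mu β + ω ≤ ω₁) {q q' : Pt} {a : A}
    (h : PS (mu β + ω) q q') (hH : Low Pt.le Pr β q' a) : Low Pt.le Pr β q a :=
  Low_sim (S := PS) (fun _ _ _ h => h.symm) (fun _ _ _ _ h h' => h'.mono h)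
    (fun _ hμ _ _ h _ hq => h.ext hμ hq)
    (fun _ p p' h b a h' => hPr.sim p p' (h.mono zero_le) b a h') β hβ q q' a h hH

end

end Pool.Agent.H654R2
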