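import Pool.Agent.H654R2.VWForce
import Pool.Agent.H654R2.VWPress

/-!
Forcing with an essentially countable poset.
-/

namespace Pool.Agent.H654R2

open Ordinal

section abstractG

universe u v

variable {P : Type u} {le : P → P → Prop} {V : Type v} {rep : P → V}
  {A : Type}

/-- no extension forces high rank -/
def NoHigh (le : P → P → Prop) (Pr : P → A → A → Prop) (p : P) (a : A) : Prop :=
  ∀ q, le q p → ¬ High le Pr q a

theorem exists_eta [Countable V] [Countable A] (htr : ∀ p q r, le r q → le q p → le r p)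
    (hrep : ∀ p q, rep p = rep q → le p q) (Pr : P → A → A → Prop) :
    ∃ η : Ordinal.{0}, η < ω₁ ∧ ∀ p a, ¬ High le Pr p a → ∃ β, β < η ∧ ¬ HH le Pr β p a := by
  classical
  have h : ∀ c : V × A, ∃ β : Ordinal.{0}, β < ω₁ ∧ ∀ p, rep p = c.1 → ¬ High le Pr p c.2 →
      ¬ HH le Pr β p c.2 := by
    rintro ⟨v, a⟩
    by_cases hex : ∃ p, rep p = v ∧ ¬ High le Pr p a
    · obtain ⟨p, hp, hH⟩ := hex
      have hH' := hH
      unfold High at hH'
      push Not at hH'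
      obtain ⟨β, hβ, hh⟩ := hH'
      refine ⟨β, hβ, fun p' hp' _ hc => hh ?_⟩
      exact HH_mono htr (hrep _ _ (hp.trans hp'.symm)) hc
    · exact ⟨0, omega0_pos.trans omega0_lt_omega_one,
        fun p hp hH => absurd ⟨p, hp, hH⟩ hex⟩
  choose f hf1 hf2 using h
  obtain ⟨θ, h1, h2⟩ := exists_bound f hf1
  refine ⟨θ + 1, add_one_lt_omega_one h1, fun p a hH => ⟨f (rep p, a), ?_, ?_⟩⟩
  · exact Order.lt_add_one_iff.2 (h2 _)
  · exact hf2 (rep p, a) p rfl hH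

variable (le) in
def E1 (Pr : P → A → A → Prop) (η : Ordinal.{0}) (a : A) : Set P :=
  {p | High le Pr p a ∨ ∃ β, β < η ∧ Low le Pr β p a}

variable (le) in
def E2 (Pr : P → A → A → Prop) (a : A) : Set P :=
  {p | (∃ b, Pr p b a ∧ High le Pr p b) ∨ NoHigh le Pr p a}

variable (le) in
def E3 (Pr : P → A → A → Prop) (β : Ordinal.{0}) (a : A) : Set P :=
  {p | HH le Pr β p a ∨ ∃ β', β' < β ∧ Low le Pr β' p a}

variable {Pr : P → A → A → Prop}

theorem E1_dense (hrf : ∀ p, le p p) {η : Ordinal.{0}}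
    (hη : ∀ p a, ¬ High le Pr p a → ∃ β, β < η ∧ ¬ HH le Pr β p a) (a : A) (p : P) :
    ∃ q, le q p ∧ q ∈ E1 le Pr η a := by
  by_cases h : High le Pr p a
  · exact ⟨p, hrf p, Or.inl h⟩
  · obtain ⟨β, hβ, h1⟩ := hη p a h
    obtain ⟨β', hβ', q, hq, hL⟩ := not_HH h1
    exact ⟨q, hq, Or.inr ⟨β', hβ'.trans hβ, hL⟩⟩

theorem E1_open (htr : ∀ p q r, le r q → le q p → le r p) {η : Ordinal.{0}} (a : A) (p q : P)
    (hq : le q p) (hp : p ∈ E1 le Pr η a) : q ∈ E1 le Pr η a := by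
  rcases hp with h | ⟨β, hβ, h⟩
  · exact Or.inl (High_mono htr hq h)
  · exact Or.inr ⟨β, hβ, Low_mono htr hq h⟩

theorem E3_dense (hrf : ∀ p, le p p) (β : Ordinal.{0}) (a : A) (p : P) :
    ∃ q, le q p ∧ q ∈ E3 le Pr β a := by
  by_cases h : HH le Pr β p a
  · exact ⟨p, hrf p, Or.inl h⟩
  · obtain ⟨β', hβ', q, hq, hL⟩ := not_HH h
    exact ⟨q, hq, Or.inr ⟨β', hβ', hL⟩⟩

theorem E3_open (htr : ∀ p q r, le r q → le q p → le r p) (β : Ordinal.{0}) (a : A) (p q : P)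
    (hq : le q p) (hp : p ∈ E3 le Pr β a) : q ∈ E3 le Pr β a := by
  rcases hp with h | ⟨β', hβ, h⟩
  · exact Or.inl (HH_mono htr hq h)
  · exact Or.inr ⟨β', hβ, Low_mono htr hq h⟩

theorem E2_dense (hrf : ∀ p, le p p) (htr : ∀ p q r, le r q → le q p → le r p)
    {η : Ordinal.{0}} (hη1 : η < ω₁)
    (hη : ∀ p a, ¬ High le Pr p a → ∃ β, β < η ∧ ¬ HH le Pr β p a) (a : A) (p : P) :
    ∃ q, le q p ∧ q ∈ E2 le Pr a := by
  by_cases h : NoHigh le Pr p a
  · exact ⟨p, hrf p, Or.inr h⟩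
  · unfold NoHigh at h
    push Not at h
    obtain ⟨q, hq, hH⟩ := h
    have h1 := hH (η + 1) (add_one_lt_omega_one hη1)
    rw [HH_iff] at h1
    obtain ⟨r, hr, b, hb, hb'⟩ := h1 η (Order.lt_add_one_iff.2 le_rfl) q (hrf q)
    refine ⟨r, htr _ _ _ hr hq, Or.inl ⟨b, hb, ?_⟩⟩
    by_contra hc
    obtain ⟨β, hβ, h2⟩ := hη r b hc
    exact h2 (HH_anti hβ.le hb')

theorem E2_open (htr : ∀ p q r, le r q → le q p → le r p)
    (hPr : ∀ p q b a, le q p → Pr p b a → Pr q b a) (a : A) (p q : P)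
    (hq : le q p) (hp : p ∈ E2 le Pr a) : q ∈ E2 le Pr a := by
  rcases hp with ⟨b, h1, h2⟩ | h
  · exact Or.inl ⟨b, hPr _ _ _ _ hq h1, High_mono htr hq h2⟩
  · exact Or.inr (fun r hr => h r (htr _ _ _ hr hq))

theorem generic_path (htr : ∀ p q r, le r q → le q p → le r p)
    (hPr : ∀ p q b a, le q p → Pr p b a → Pr q b a) {η : Ordinal.{0}}
    (p : ℕ → P) (hp : ∀ m n, m ≤ n → le (p n) (p m))
    (h1 : ∀ a, ∃ m, p m ∈ E1 le Pr η a) (h2 : ∀ a, ∃ m, p m ∈ E2 le Pr a)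
    (h3 : ∀ β, β < η → ∀ a, ∃ m, p m ∈ E3 le Pr β a) (a : A) :
    (∃ m, High le Pr (p m) a) ↔
      ∃ b : ℕ → A, b 0 = a ∧ ∀ n, ∃ m, Pr (p m) (b (n+1)) (b n) := by
  constructor
  · rintro ⟨m, hm⟩
    have step : ∀ c : {a // ∃ m, High le Pr (p m) a}, ∃ c' : {a // ∃ m, High le Pr (p m) a},
        ∃ m, Pr (p m) c'.1 c.1 := by
      rintro ⟨c, m, hm⟩
      obtain ⟨n, hn⟩ := h2 c
      rcases hn with ⟨b, hb, hb'⟩ | hn
      · exact ⟨⟨b, n, hb'⟩, n, hb⟩
      · exact absurd (High_mono htr (hp m (max m n) (le_max_left _ _)) hm)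
          (hn _ (hp n (max m n) (le_max_right _ _)))
    choose F hF using step
    let Q : ℕ → {a // ∃ m, High le Pr (p m) a} := fun n => Nat.rec ⟨a, m, hm⟩ (fun _ c => F c) n
    exact ⟨fun n => (Q n).1, rfl, fun n => hF (Q n)⟩
  · rintro ⟨b, hb0, hb⟩
    by_contra hcon
    push Not at hcon
    have h0 : ∃ β : Ordinal.{0}, β < η ∧ ∃ m, Low le Pr β (p m) (b 0) := by
      obtain ⟨m, hm⟩ := h1 (b 0)
      rcases hm with hm | ⟨β, hβ, hm⟩
      · rw [hb0] at hm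
        exact absurd hm (hcon m)
      · exact ⟨β, hβ, m, hm⟩
    have key : ∀ β : Ordinal.{0}, β < η → ∀ n, ¬ ∃ m, Low le Pr β (p m) (b n) := by
      intro β
      induction β using WellFoundedLT.induction with
      | ind β ih =>
        rintro hβ n ⟨m, hm⟩
        obtain ⟨k, hk⟩ := hb n
        obtain ⟨l, hl⟩ := h3 β hβ (b (n+1))
        rcases hl with hl | ⟨β', hβ', hl⟩
        · let M := max m (max k l)
          have e1 := hp m M (le_max_left _ _)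
          have e2 := hp k M ((le_max_left _ _).trans (le_max_right _ _))
          have e3 := hp l M ((le_max_right _ _).trans (le_max_right _ _))
          exact hm _ e1 _ (hPr _ _ _ _ e2 hk) (HH_mono htr e3 hl)
        · exact ih β' hβ' (hβ'.trans hβ) (n+1) ⟨l, hl⟩
    obtain ⟨β, hβ, hm⟩ := h0
    exact key β hβ 0 hm

variable (le) in
/-- the dense set handling the real `γ` -/
def Eγ (Pr1 Pr2 : ℕ → P → A → A → Prop) (a : A) (γ : ℕ → Bool) : Set P :=
  {p | (∃ n, γ n = true ∧ NoHigh le (Pr1 n) p a) ∨ (∃ n, γ n = false ∧ NoHigh le (Pr2 n) p a) ∨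
    ∃ n, High le (Pr1 n) p a ∧ High le (Pr2 n) p a}

theorem Eγ_open (htr : ∀ p q r, le r q → le q p → le r p)
    (Pr1 Pr2 : ℕ → P → A → A → Prop) (a : A) (γ : ℕ → Bool) (p q : P)
    (hq : le q p) (hp : p ∈ Eγ le Pr1 Pr2 a γ) : q ∈ Eγ le Pr1 Pr2 a γ := by
  rcases hp with ⟨n, h1, h2⟩ | ⟨n, h1, h2⟩ | ⟨n, h1, h2⟩
  · exact Or.inl ⟨n, h1, fun r hr => h2 r (htr _ _ _ hr hq)⟩
  · exact Or.inr (Or.inl ⟨n, h1, fun r hr => h2 r (htr _ _ _ hr hq)⟩)
  · exact Or.inr (Or.inr ⟨n, High_mono htr hq h1, High_mono htr hq h2⟩)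

theorem bad_countable [Countable V] (hrf : ∀ p, le p p)
    (htr : ∀ p q r, le r q → le q p → le r p)
    (hrep : ∀ p q, rep p = rep q → le p q) (Pr1 Pr2 : ℕ → P → A → A → Prop) (a : A) :
    {γ : ℕ → Bool | ¬ ∀ p, ∃ q, le q p ∧ q ∈ Eγ le Pr1 Pr2 a γ}.Countable := by
  classical
  let c : P → ℕ → Bool := fun p n => decide (∃ q, le q p ∧ High le (Pr1 n) q a)
  have hc : ∀ p p', rep p = rep p' → c p = c p' := by
    intro p p' h
    funext n
    simp only [c, decide_eq_decide]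
    constructor
    · rintro ⟨q, h1, h2⟩
      exact ⟨q, htr _ _ _ h1 (hrep _ _ h), h2⟩
    · rintro ⟨q, h1, h2⟩
      exact ⟨q, htr _ _ _ h1 (hrep _ _ h.symm), h2⟩
  let k : V → ℕ → Bool := fun v => if h : ∃ p, rep p = v then c h.choose else fun _ => false
  refine (Set.countable_range k).mono ?_
  intro γ hγ
  simp only [Set.mem_setOf_eq] at hγ
  push Not at hγ
  obtain ⟨p, hp⟩ := hγ
  refine ⟨rep p, ?_⟩
  have hex : ∃ p', rep p' = rep p := ⟨p, rfl⟩
  have h1 : k (rep p) = c p := by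
    have h2 : k (rep p) = c hex.choose := dif_pos hex
    rw [h2]
    exact hc _ _ hex.choose_spec
  rw [h1]
  funext n
  cases hn : γ n with
  | true =>
    simp only [c, decide_eq_true_eq]
    by_contra hcon
    push Not at hcon
    exact hp p (hrf p) (Or.inl ⟨n, hn, fun q hq => hcon q hq⟩)
  | false =>
    simp only [c, decide_eq_false_iff_not]
    rintro ⟨q, hq, hH⟩
    have h3 : ¬ NoHigh le (Pr2 n) q a := fun h => hp q hq (Or.inr (Or.inl ⟨n, hn, h⟩))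
    unfold NoHigh at h3
    push Not at h3
    obtain ⟨r, hr, hr'⟩ := h3
    exact hp r (htr _ _ _ hr hq) (Or.inr (Or.inr ⟨n, High_mono htr hr hH, hr'⟩))

/-- a generic sequence avoids the reals handled -/
theorem gamma_avoid (htr : ∀ p q r, le r q → le q p → le r p)
    {Pr1 Pr2 : ℕ → P → A → A → Prop} {a : A} {γ : ℕ → Bool}
    (p : ℕ → P) (hp : ∀ m n, m ≤ n → le (p n) (p m))
    (hγ : ∃ m, p m ∈ Eγ le Pr1 Pr2 a γ)
    (h1 : ∀ n, γ n = true → ∃ m, High le (Pr1 n) (p m) a)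
    (h1' : ∀ n m, High le (Pr1 n) (p m) a → γ n = true)
    (h2 : ∀ n, γ n = false → ∃ m, High le (Pr2 n) (p m) a)
    (h2' : ∀ n m, High le (Pr2 n) (p m) a → γ n = false) : False := by
  obtain ⟨m, hm⟩ := hγ
  rcases hm with ⟨n, h3, h4⟩ | ⟨n, h3, h4⟩ | ⟨n, h3, h4⟩
  · obtain ⟨k, hk⟩ := h1 n h3
    exact h4 _ (hp m (max m k) (le_max_left _ _))
      (High_mono htr (hp k (max m k) (le_max_right _ _)) hk)
  · obtain ⟨k, hk⟩ := h2 n h3
    exact h4 _ (hp m (max m k) (le_max_left _ _))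
      (High_mono htr (hp k (max m k) (le_max_right _ _)) hk)
  · have h5 := h1' n m h3
    have h6 := h2' n m h4
    rw [h5] at h6
    exact absurd h6 (by simp)

end abstractG

end Pool.Agent.H654R2
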