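import Pool.Agent.H654R2.VWTag

/-!
Finite stages of the generic object.
-/

namespace Pool.Agent.H654R2

open Ordinal

/-- bit number `i` of the finite string `s` (strings are stored in reverse order). -/
def bitAt (s : List Bool) (i : ℕ) : Bool := s.reverse.getD i false

/-- parent function -/
def par (i : ℕ) : ℕ := (Nat.unpair (i / 2)).1

/-- bit `b` at position `i` attaches node `i+1` to node `par i`. -/
def att (b : Bool) (i : ℕ) : Prop := b = true ∧ i % 2 = 1

theorem par_le (i : ℕ) : par i ≤ i :=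
  (Nat.unpair_left_le _).trans (Nat.div_le_self _ _)

theorem bitAt_cons_lt {b : Bool} {s : List Bool} {i : ℕ} (h : i < s.length) :
    bitAt (b :: s) i = bitAt s i := by
  unfold bitAt
  rw [List.reverse_cons, List.getD_append _ _ _ _ (by simpa using h)]

theorem bitAt_cons_length {b : Bool} {s : List Bool} :
    bitAt (b :: s) s.length = b := by
  unfold bitAt
  rw [List.reverse_cons, List.getD_append_right _ _ _ _ (by simp)]
  simp

structure Obj where
  y : List Bool → ℕ → Bool
  κ : List Bool → ℕ → Tag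
  τ : List Bool → ℕ → Tag

structure Valid (m : ℕ) (o : Obj) : Prop where
  clk : ∀ s i, s.length ≤ i → i < m → att (o.y s i) i → s.length ≤ par i →
    prec (o.κ s (i+1)) (o.κ s (par i))
  tre : ∀ s, s.length ≤ m → ∀ i, i < s.length → att (bitAt s i) i →
    prec (o.τ s (i+1)) (o.τ s (par i))
  mon : ∀ s b, s.length < m → o.κ (b::s) (s.length+1) ≤ o.κ s s.length
  coh : ∀ s b, s.length < m → ∀ j, j ≤ s.length →
    sim (o.κ (b::s) (s.length+1)) (o.τ (b::s) j) (o.τ s j)
  nk : ∀ s, s.length < m → ∃ b, o.κ (b::s) (s.length+1) = o.κ s s.length ∧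
    ∀ j, j ≤ s.length → o.τ (b::s) j = o.τ s j

/-- the objects agree, up to `μ`, on the part visible at stage `m` -/
structure SimO (μ : Tag) (m : ℕ) (o o' : Obj) : Prop where
  y : ∀ s i, s.length ≤ i → i < m → o.y s i = o'.y s i
  κ : ∀ s i, s.length ≤ i → i ≤ m → sim μ (o.κ s i) (o'.κ s i)
  τ : ∀ s j, s.length ≤ m → j ≤ s.length → sim μ (o.τ s j) (o'.τ s j)

abbrev Agree (m : ℕ) (o o' : Obj) : Prop := SimO ⊤ m o o'

/-- all visible tags at stage `m` are `⊤` or below `η` -/
structure AllTB (η : Ordinal.{0}) (m : ℕ) (o : Obj) : Prop where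
  κ : ∀ s i, s.length ≤ i → i ≤ m → TB η (o.κ s i)
  τ : ∀ s j, s.length ≤ m → j ≤ s.length → TB η (o.τ s j)

theorem SimO.refl {μ m o} : SimO μ m o o :=
  ⟨fun _ _ _ _ => rfl, fun _ _ _ _ => sim_refl, fun _ _ _ _ => sim_refl⟩

theorem SimO.symm {μ m o o'} (h : SimO μ m o o') : SimO μ m o' o :=
  ⟨fun s i h1 h2 => (h.y s i h1 h2).symm, fun s i h1 h2 => sim_symm (h.κ s i h1 h2),
   fun s j h1 h2 => sim_symm (h.τ s j h1 h2)⟩

theorem SimO.trans {μ m o o' o''} (h : SimO μ m o o') (h' : SimO μ m o' o'') :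
    SimO μ m o o'' :=
  ⟨fun s i h1 h2 => (h.y s i h1 h2).trans (h'.y s i h1 h2),
   fun s i h1 h2 => sim_trans (h.κ s i h1 h2) (h'.κ s i h1 h2),
   fun s j h1 h2 => sim_trans (h.τ s j h1 h2) (h'.τ s j h1 h2)⟩

theorem SimO.mono {μ ν m n o o'} (h : SimO μ m o o') (hν : ν ≤ μ) (hn : n ≤ m) :
    SimO ν n o o' :=
  ⟨fun s i h1 h2 => h.y s i h1 (lt_of_lt_of_le h2 hn),
   fun s i h1 h2 => sim_mono hν (h.κ s i h1 (h2.trans hn)),
   fun s j h1 h2 => sim_mono hν (h.τ s j (h1.trans hn) h2)⟩

theorem Agree.eκ {m o o'} (h : Agree m o o') {s : List Bool} {i : ℕ} (h1 : s.length ≤ i)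
    (h2 : i ≤ m) : o.κ s i = o'.κ s i := sim_top (h.κ s i h1 h2)

theorem Agree.eτ {m o o'} (h : Agree m o o') {s : List Bool} {j : ℕ} (h1 : s.length ≤ m)
    (h2 : j ≤ s.length) : o.τ s j = o'.τ s j := sim_top (h.τ s j h1 h2)

theorem AllTB.mono {η θ m n o} (h : AllTB η m o) (hθ : η ≤ θ) (hn : n ≤ m) : AllTB θ n o :=
  ⟨fun s i h1 h2 => TB_mono hθ (h.κ s i h1 (h2.trans hn)),
   fun s j h1 h2 => TB_mono hθ (h.τ s j (h1.trans hn) h2)⟩

theorem AllTB.congr {η m o o'} (h : AllTB η m o) (ha : Agree m o o') : AllTB η m o' :=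
  ⟨fun s i h1 h2 => ha.eκ h1 h2 ▸ h.κ s i h1 h2,
   fun s j h1 h2 => ha.eτ h1 h2 ▸ h.τ s j h1 h2⟩

theorem Valid.mono {m n o} (h : Valid m o) (hn : n ≤ m) : Valid n o :=
  ⟨fun s i h1 h2 => h.clk s i h1 (lt_of_lt_of_le h2 hn),
   fun s h1 => h.tre s (h1.trans hn),
   fun s b h1 => h.mon s b (lt_of_lt_of_le h1 hn),
   fun s b h1 => h.coh s b (lt_of_lt_of_le h1 hn),
   fun s h1 => h.nk s (lt_of_lt_of_le h1 hn)⟩

theorem Valid.congr {m o o'} (h : Valid m o) (ha : Agree m o o') : Valid m o' := by
  refine ⟨?_, ?_, ?_, ?_, ?_⟩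
  · intro s i h1 h2 h3 h4
    rw [← ha.y s i h1 h2] at h3
    rw [← ha.eκ (s := s) (i := i+1) (by omega) (by omega), ← ha.eκ h4 ((par_le i).trans h2.le)]
    exact h.clk s i h1 h2 h3 h4
  · intro s h1 i h2 h3
    rw [← ha.eτ h1 (j := i+1) (by omega), ← ha.eτ h1 (j := par i) ((par_le i).trans h2.le)]
    exact h.tre s h1 i h2 h3
  · intro s b h1
    rw [← ha.eκ (s := b::s) (i := s.length+1) (by simp) (by omega),
      ← ha.eκ (s := s) (i := s.length) le_rfl h1.le]
    exact h.mon s b h1
  · intro s b h1 j h2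
    rw [← ha.eκ (s := b::s) (i := s.length+1) (by simp) (by omega),
      ← ha.eτ (s := b::s) (j := j) (by simp; omega) (by simp; omega),
      ← ha.eτ (s := s) (j := j) h1.le h2]
    exact h.coh s b h1 j h2
  · intro s h1
    obtain ⟨b, hb1, hb2⟩ := h.nk s h1
    refine ⟨b, ?_, ?_⟩
    · rw [← ha.eκ (s := b::s) (i := s.length+1) (by simp) (by omega),
        ← ha.eκ (s := s) (i := s.length) le_rfl h1.le]
      exact hb1
    · intro j hj
      rw [← ha.eτ (s := b::s) (j := j) (by simp; omega) (by simp; omega),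
        ← ha.eτ (s := s) (j := j) h1.le hj]
      exact hb2 j hj

/-- truncating the tags of a valid object -/
noncomputable def cutO (μ : Tag) (o : Obj) : Obj where
  y := o.y
  κ := fun s i => cut μ (o.κ s i)
  τ := fun s j => cut μ (o.τ s j)

theorem Valid.cutO {m o} (μ : Tag) (h : Valid m o) : Valid m (cutO μ o) := by
  refine ⟨?_, ?_, ?_, ?_, ?_⟩
  · intro s i h1 h2 h3 h4
    exact prec_cut (h.clk s i h1 h2 h3 h4)
  · intro s h1 i h2 h3
    exact prec_cut (h.tre s h1 i h2 h3)
  · intro s b h1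
    exact cut_mono (h.mon s b h1)
  · intro s b h1 j h2
    exact sim_cut_cut (h.coh s b h1 j h2)
  · intro s h1
    obtain ⟨b, hb1, hb2⟩ := h.nk s h1
    refine ⟨b, ?_, ?_⟩
    · exact congrArg (cut μ) hb1
    · intro j hj
      exact congrArg (cut μ) (hb2 j hj)

theorem simO_cutO {μ : Tag} {m o} : SimO μ m (cutO μ o) o :=
  ⟨fun _ _ _ _ => rfl, fun _ _ _ _ => sim_cut, fun _ _ _ _ => sim_cut⟩

theorem allTB_cutO {μ : Ordinal.{0}} {m o} : AllTB μ m (cutO (μ : Tag) o) :=
  ⟨fun _ _ _ _ => TB_cut le_rfl, fun _ _ _ _ => TB_cut le_rfl⟩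

theorem agree_cutO {μ : Ordinal.{0}} {m o} (h : AllTB μ m o) : Agree m (cutO (μ : Tag) o) o :=
  ⟨fun _ _ _ _ => rfl, fun s i h1 h2 => Or.inl (cut_eq_self (h.κ s i h1 h2)),
   fun s j h1 h2 => Or.inl (cut_eq_self (h.τ s j h1 h2))⟩

/-! ### One step extensions -/

/-- The data of a one-step extension from stage `m` to stage `m+1`. -/
structure StepData where
  yb : List Bool → Bool
  kt : List Bool → Tag
  nb : List Bool → Bool
  nt : List Bool → Tag
  orho : List Bool → Tag
  ot : List Bool → ℕ → Tag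

structure StepOK (m : ℕ) (o : Obj) (d : StepData) : Prop where
  clk : ∀ s, s.length ≤ m → att (d.yb s) m → s.length ≤ par m → prec (d.kt s) (o.κ s (par m))
  new : ∀ s, s.length = m → att (d.nb s) m → prec (d.nt s) (o.τ s (par m))
  le : ∀ s, s.length = m → d.orho s ≤ o.κ s m
  coh : ∀ s, s.length = m → ∀ j, j ≤ m → sim (d.orho s) (d.ot s j) (o.τ s j)
  tre : ∀ s, s.length = m → ∀ i, i < m + 1 → att (bitAt ((!d.nb s)::s) i) i →
    prec (d.ot s (i+1)) (d.ot s (par i))

/-- The object obtained. -/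
noncomputable def stepO (m : ℕ) (o : Obj) (d : StepData) : Obj where
  y := fun s i => if i < m then o.y s i else d.yb s
  κ := fun s i => if i ≤ m then o.κ s i else if s.length ≤ m then d.kt s else
    if s.headD false = d.nb s.tail then o.κ s.tail m else d.orho s.tail
  τ := fun s j => if s.length ≤ m then o.τ s j else
    if s.headD false = d.nb s.tail then (if j ≤ m then o.τ s.tail j else d.nt s.tail)
    else d.ot s.tail j

section step

variable {m : ℕ} {o : Obj} {d : StepData}

theorem stepO_κ_le {s : List Bool} {i : ℕ} (h : i ≤ m) : (stepO m o d).κ s i = o.κ s i := by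
  simp [stepO, h]

theorem stepO_κ_new {s : List Bool} (h : s.length ≤ m) :
    (stepO m o d).κ s (m+1) = d.kt s := by
  simp [stepO, h]

theorem stepO_κ_nk {s : List Bool} (h : s.length = m) :
    (stepO m o d).κ (d.nb s :: s) (m+1) = o.κ s m := by
  simp [stepO, h]

theorem stepO_κ_other {b : Bool} {s : List Bool} (h : s.length = m) (hb : b ≠ d.nb s) :
    (stepO m o d).κ (b :: s) (m+1) = d.orho s := by
  simp [stepO, h, hb]

theorem stepO_τ_le {s : List Bool} {j : ℕ} (h : s.length ≤ m) :
    (stepO m o d).τ s j = o.τ s j := by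
  simp [stepO, h]

theorem stepO_τ_nk {s : List Bool} {j : ℕ} (h : s.length = m) (hj : j ≤ m) :
    (stepO m o d).τ (d.nb s :: s) j = o.τ s j := by
  simp [stepO, h, hj]

theorem stepO_τ_nk_new {s : List Bool} (h : s.length = m) :
    (stepO m o d).τ (d.nb s :: s) (m+1) = d.nt s := by
  simp [stepO, h]

theorem stepO_τ_other {b : Bool} {s : List Bool} {j : ℕ} (h : s.length = m) (hb : b ≠ d.nb s) :
    (stepO m o d).τ (b :: s) j = d.ot s j := by
  simp [stepO, h, hb]

theorem agree_stepO : Agree m (stepO m o d) o := by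
  refine ⟨?_, ?_, ?_⟩
  · intro s i h1 h2
    simp [stepO, h2]
  · intro s i h1 h2
    rw [stepO_κ_le h2]; exact sim_refl
  · intro s j h1 h2
    rw [stepO_τ_le h1]; exact sim_refl

theorem Valid.stepO (hv : Valid m o) (hd : StepOK m o d) : Valid (m+1) (stepO m o d) := by
  refine ⟨?_, ?_, ?_, ?_, ?_⟩
  · intro s i h1 h2 h3 h4
    rcases Nat.lt_succ_iff_lt_or_eq.1 h2 with h | rfl
    · have e : (Pool.Agent.H654R2.stepO m o d).y s i = o.y s i := by
        simp [Pool.Agent.H654R2.stepO, h]
      rw [e] at h3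
      rw [stepO_κ_le (by omega : i + 1 ≤ m), stepO_κ_le ((par_le i).trans h.le)]
      exact hv.clk s i h1 h h3 h4
    · have e : (Pool.Agent.H654R2.stepO i o d).y s i = d.yb s := by
        simp [Pool.Agent.H654R2.stepO]
      rw [e] at h3
      rw [stepO_κ_new h1, stepO_κ_le (par_le i)]
      exact hd.clk s h1 h3 h4
  · intro s h1 i h2 h3
    rcases Nat.lt_or_ge s.length (m+1) with h | h
    · have h' : s.length ≤ m := by omega
      rw [stepO_τ_le h', stepO_τ_le h']
      exact hv.tre s h' i h2 h3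
    · have h' : s.length = m + 1 := by omega
      obtain ⟨b, t, rfl⟩ : ∃ b t, s = b :: t := by
        cases s with
        | nil => simp at h'
        | cons b t => exact ⟨b, t, rfl⟩
      have ht : t.length = m := by simpa using h'
      by_cases hb : b = d.nb t
      · subst hb
        rcases Nat.lt_or_ge i m with hi | hi
        · rw [stepO_τ_nk ht (by omega), stepO_τ_nk ht ((par_le i).trans hi.le)]
          rw [bitAt_cons_lt (by omega)] at h3
          exact hv.tre t ht.le i (by omega) h3
        · have hi' : i = t.length := by simp at h2; omega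
          subst hi'
          subst ht
          rw [stepO_τ_nk_new rfl, stepO_τ_nk rfl (par_le _)]
          rw [bitAt_cons_length] at h3
          exact hd.new t rfl h3
      · rw [stepO_τ_other ht hb, stepO_τ_other ht hb]
        have hb' : b = !d.nb t := by
          cases b <;> cases h4 : d.nb t <;> simp_all
        rw [hb'] at h3
        exact hd.tre t ht i (by simp at h2; omega) h3
  · intro s b h1
    rcases Nat.lt_or_ge s.length m with h | h
    · rw [stepO_κ_le (by omega), stepO_κ_le (by omega)]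
      exact hv.mon s b h
    · have h' : s.length = m := by omega
      rw [h']
      by_cases hb : b = d.nb s
      · subst hb
        rw [stepO_κ_nk h', stepO_κ_le le_rfl]
      · rw [stepO_κ_other h' hb, stepO_κ_le le_rfl]
        exact hd.le s h'
  · intro s b h1 j h2
    rcases Nat.lt_or_ge s.length m with h | h
    · rw [stepO_κ_le (by omega), stepO_τ_le (by simp; omega), stepO_τ_le (by omega)]
      exact hv.coh s b h j h2
    · have h' : s.length = m := by omega
      rw [h']
      by_cases hb : b = d.nb s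
      · subst hb
        rw [stepO_τ_nk h' (by omega), stepO_τ_le (by omega)]
        exact sim_refl
      · rw [stepO_κ_other h' hb, stepO_τ_other h' hb, stepO_τ_le (by omega)]
        exact hd.coh s h' j (by omega)
  · intro s h1
    rcases Nat.lt_or_ge s.length m with h | h
    · obtain ⟨b, hb1, hb2⟩ := hv.nk s h
      refine ⟨b, ?_, ?_⟩
      · rw [stepO_κ_le (by omega), stepO_κ_le (by omega)]
        exact hb1
      · intro j hj
        rw [stepO_τ_le (by simp; omega), stepO_τ_le (by omega)]
        exact hb2 j hj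
    · have h' : s.length = m := by omega
      refine ⟨d.nb s, ?_, ?_⟩
      · rw [h', stepO_κ_nk h', stepO_κ_le le_rfl]
      · intro j hj
        rw [stepO_τ_nk h' (by omega), stepO_τ_le (by omega)]

theorem AllTB.stepO {η : Ordinal.{0}} (h : AllTB η m o)
    (h1 : ∀ s, s.length ≤ m → TB η (d.kt s)) (h2 : ∀ s, s.length = m → TB η (d.nt s))
    (h3 : ∀ s, s.length = m → TB η (d.orho s))
    (h4 : ∀ s, s.length = m → ∀ j, j ≤ m + 1 → TB η (d.ot s j)) :
    AllTB η (m+1) (stepO m o d) := by
  refine ⟨?_, ?_⟩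
  · intro s i h5 h6
    rcases Nat.lt_or_ge m i with hi | hi
    · have hi' : i = m + 1 := by omega
      subst hi'
      rcases Nat.lt_or_ge m s.length with hs | hs
      · obtain ⟨b, t, rfl⟩ : ∃ b t, s = b :: t := by
          cases s with
          | nil => simp at hs
          | cons b t => exact ⟨b, t, rfl⟩
        have ht : t.length = m := by simp at h5 hs; omega
        by_cases hb : b = d.nb t
        · subst hb
          rw [stepO_κ_nk ht]
          exact h.κ t m ht.le le_rfl
        · rw [stepO_κ_other ht hb]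
          exact h3 t ht
      · rw [stepO_κ_new hs]
        exact h1 s hs
    · rw [stepO_κ_le hi]
      exact h.κ s i h5 hi
  · intro s j h5 h6
    rcases Nat.lt_or_ge m s.length with hs | hs
    · obtain ⟨b, t, rfl⟩ : ∃ b t, s = b :: t := by
        cases s with
        | nil => simp at hs
        | cons b t => exact ⟨b, t, rfl⟩
      have ht : t.length = m := by simp at h5 hs; omega
      by_cases hb : b = d.nb t
      · subst hb
        rcases Nat.lt_or_ge m j with hj | hj
        · have hj' : j = m + 1 := by simp at h6; omega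
          subst hj'
          rw [stepO_τ_nk_new ht]
          exact h2 t ht
        · rw [stepO_τ_nk ht hj]
          exact h.τ t j ht.le (by omega)
      · rw [stepO_τ_other ht hb]
        exact h4 t ht j (by simp at h6; omega)
    · rw [stepO_τ_le hs]
      exact h.τ s j hs h6

end step

end Pool.Agent.H654R2
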