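import Pool.Agent.H654R2.VWCode
import Pool.Agent.H654R2.VWObj

/-!
The linear order attached to a real.
-/

namespace Pool.Agent.H654R2

open Ordinal

instance attDec (b : Bool) (i : ℕ) : Decidable (att b i) := by
  unfold att; infer_instance

/-- address of a node -/
def addr (x : ℕ → Bool) : ℕ → List ℕ
  | 0 => [0]
  | (i+1) => if att (x i) i then addr x (par i) ++ [i+1] else [i+1]
termination_by j => j
decreasing_by exact Nat.lt_succ_of_le (par_le i)

/-- the Kleene-Brouwer order -/
def kb : List ℕ → List ℕ → Bool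
  | [], _ => false
  | (_ :: _), [] => true
  | (a :: u), (b :: v) => decide (a < b) || (decide (a = b) && kb u v)

/-- the linear order on `ℕ` coded by a real -/
def Xi (x : ℕ → Bool) (n : ℕ) : Bool :=
  decide (n.unpair.1 = n.unpair.2) || kb (addr x n.unpair.1) (addr x n.unpair.2)

theorem addr_zero {x : ℕ → Bool} : addr x 0 = [0] := by rw [addr]

theorem addr_att {x : ℕ → Bool} {i : ℕ} (h : att (x i) i) :
    addr x (i+1) = addr x (par i) ++ [i+1] := by rw [addr]; simp [h]

theorem addr_not {x : ℕ → Bool} {i : ℕ} (h : ¬ att (x i) i) :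
    addr x (i+1) = [i+1] := by rw [addr]; simp [h]

theorem addr_congr {x x' : ℕ → Bool} (j : ℕ) (h : ∀ i, i < j → x i = x' i) :
    addr x j = addr x' j := by
  induction j using Nat.strong_induction_on with
  | _ j ih =>
    cases j with
    | zero => rw [addr_zero, addr_zero]
    | succ i =>
      have h1 := h i (by omega)
      by_cases h2 : att (x i) i
      · rw [addr_att h2, addr_att (h1 ▸ h2),
          ih (par i) (Nat.lt_succ_of_le (par_le i)) (fun k hk => h k (by
            have := par_le i
            omega))]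
      · rw [addr_not h2, addr_not (h1 ▸ h2)]

theorem Xi_congr {x x' : ℕ → Bool} (n : ℕ) (h : ∀ i, i < n → x i = x' i) : Xi x n = Xi x' n := by
  unfold Xi
  rw [addr_congr (x := x) (x' := x') n.unpair.1 (fun i hi => h i (lt_of_lt_of_le hi (Nat.unpair_left_le n))),
    addr_congr (x := x) (x' := x') n.unpair.2 (fun i hi => h i (lt_of_lt_of_le hi (Nat.unpair_right_le n)))]

theorem addr_last (x : ℕ → Bool) (j : ℕ) : ∃ u, addr x j = u ++ [j] := by
  cases j with
  | zero => exact ⟨[], addr_zero⟩
  | succ i =>
    by_cases h2 : att (x i) i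
    · exact ⟨_, addr_att h2⟩
    · exact ⟨[], addr_not h2⟩

theorem addr_inj {x : ℕ → Bool} {i j : ℕ} (h : addr x i = addr x j) : i = j := by
  obtain ⟨u, hu⟩ := addr_last x i
  obtain ⟨v, hv⟩ := addr_last x j
  rw [hu, hv] at h
  have := List.append_inj' h rfl
  simpa using this.2

theorem addr_of_pre {x : ℕ → Bool} {u : List ℕ} {n : ℕ} : ∀ j : ℕ, (u ++ [n]) <+: addr x j →
    addr x n = u ++ [n] := by
  intro j
  induction j using Nat.strong_induction_on with
  | _ j ih =>
    intro h
    have key : ∀ w, addr x j = w ++ [j] → ((u ++ [n]) <+: w → addr x n = u ++ [n]) →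
        addr x n = u ++ [n] := by
      intro w hw hh
      rw [hw] at h
      rcases List.prefix_concat_iff.1 h with h1 | h1
      · have h2 := List.append_inj' h1 rfl
        have h3 : n = j := by simpa using h2.2
        rw [h3, hw, h2.1]
      · exact hh h1
    cases j with
    | zero => exact key [] addr_zero (fun h => by simp at h)
    | succ i =>
      by_cases h2 : att (x i) i
      · exact key _ (addr_att h2) (fun h => ih _ (Nat.lt_succ_of_le (par_le i)) h)
      · exact key [] (addr_not h2) (fun h => by simp at h)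

theorem kb_append (u v w : List ℕ) : kb (u ++ v) (u ++ w) = kb v w := by
  induction u with
  | nil => rfl
  | cons a u ih => simp [kb, ih]

theorem kb_tri (u v : List ℕ) (h1 : kb u v = false) (h2 : kb v u = false) : u = v := by
  induction u generalizing v with
  | nil => cases v with
    | nil => rfl
    | cons b v => simp [kb] at h2
  | cons a u ih => cases v with
    | nil => simp [kb] at h1
    | cons b v =>
      simp only [kb, Bool.or_eq_false_iff, Bool.and_eq_false_iff, decide_eq_false_iff_not] at h1 h2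
      have hab : a = b := by omega
      subst hab
      simp at h1 h2
      rw [ih v h1 h2]

theorem kb_irrefl (u : List ℕ) : kb u u = false := by
  induction u with
  | nil => rfl
  | cons a u ih => simp [kb, ih]

/-- the order restricted to a subtree -/
def RK (x : ℕ → Bool) (u : List ℕ) (a b : ℕ) : Prop :=
  u <+: addr x a ∧ kb (addr x a) (addr x b) = true

theorem acc_step {x : ℕ → Bool} {u : List ℕ}
    (h : ∀ n j, (u ++ [n]) <+: addr x j → Acc (RK x (u ++ [n])) j) :
    ∀ j, u <+: addr x j → Acc (RK x u) j := by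
  have h1 : ∀ n j, (u ++ [n]) <+: addr x j → Acc (RK x u) j := by
    intro n
    induction n using Nat.strong_induction_on with
    | _ n ih =>
      intro j hj
      have hacc := h n j hj
      induction hacc with
      | intro j _ ih2 =>
        refine Acc.intro j (fun a ha => ?_)
        obtain ⟨ha1, ha2⟩ := ha
        obtain ⟨w', hw'⟩ := ha1
        obtain ⟨w, hw⟩ := hj
        have hk := ha2
        rw [← hw', ← hw, List.append_assoc, kb_append] at hk
        cases w' with
        | nil => simp [kb] at hk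
        | cons n' w'' =>
          simp only [List.cons_append, List.nil_append, kb, Bool.or_eq_true, Bool.and_eq_true,
            decide_eq_true_eq] at hk
          have hpre : (u ++ [n']) <+: addr x a := ⟨w'', by rw [← hw']; simp⟩
          rcases hk with hk | ⟨hk, -⟩
          · exact ih n' hk a hpre
          · subst hk
            exact ih2 a ⟨hpre, ha2⟩ hpre
  intro j hj
  refine Acc.intro j (fun a ha => ?_)
  obtain ⟨ha1, ha2⟩ := ha
  obtain ⟨w', hw'⟩ := ha1
  obtain ⟨w, hw⟩ := hj
  cases w' with
  | nil =>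
    rw [← hw', ← hw, kb_append] at ha2
    simp [kb] at ha2
  | cons n' w'' => exact h1 n' a ⟨w'', by rw [← hw']; simp⟩

/-- A rank function on the forest of `x`. -/
structure Ranked (x : ℕ → Bool) (ρ : ℕ → Ordinal.{0}) : Prop where
  dec : ∀ i, att (x i) i → ρ (i+1) < ρ (par i)
  full : ∀ j θ, θ < ρ j → ∃ i, att (x i) i ∧ par i = j ∧ ρ (i+1) = θ

theorem acc_class {x : ℕ → Bool} {ρ : ℕ → Ordinal.{0}} (h : Ranked x ρ) :
    ∀ θ c, ρ c = θ → ∀ j, addr x c <+: addr x j → Acc (RK x (addr x c)) j := by
  intro θ
  induction θ using WellFoundedLT.induction with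
  | ind θ ih =>
    intro c hc
    apply acc_step
    intro n j hj
    have hn := addr_of_pre j hj
    have hlt : ρ n < ρ c := by
      cases n with
      | zero =>
        rw [addr_zero] at hn
        obtain ⟨v, hv⟩ := addr_last x c
        rw [hv] at hn
        have := congrArg List.length hn
        simp at this
      | succ i =>
        by_cases h2 : att (x i) i
        · rw [addr_att h2] at hn
          have h3 := List.append_inj' hn rfl
          rw [← addr_inj h3.1]
          exact h.dec i h2
        · rw [addr_not h2] at hn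
          obtain ⟨v, hv⟩ := addr_last x c
          rw [hv] at hn
          have := congrArg List.length hn
          simp at this
    rw [← hn] at hj ⊢
    exact ih (ρ n) (hc ▸ hlt) n rfl j hj

/-- the strict order -/
def LX (x : ℕ → Bool) (a b : ℕ) : Prop := kb (addr x a) (addr x b) = true

theorem LX_wf {x : ℕ → Bool} {ρ : ℕ → Ordinal.{0}} (h : Ranked x ρ) : WellFounded (LX x) := by
  have h1 : ∀ j, [] <+: addr x j → Acc (RK x []) j := by
    apply acc_step
    intro n j hj
    have hn := addr_of_pre j hj
    rw [← hn] at hj ⊢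
    exact acc_class h (ρ n) n rfl j hj
  refine ⟨fun j => ?_⟩
  refine Subrelation.accessible (fun {a b} hab => ?_) (h1 j (List.nil_prefix))
  exact ⟨List.nil_prefix, hab⟩

theorem LX_wo {x : ℕ → Bool} {ρ : ℕ → Ordinal.{0}} (h : Ranked x ρ) : IsWellOrder ℕ (LX x) :=
  { wf := LX_wf h
    trichotomous := fun a b h1 h2 => addr_inj (kb_tri _ _ (by simpa [LX] using h1)
      (by simpa [LX] using h2)) }

theorem LX_child {x : ℕ → Bool} {i : ℕ} (h : att (x i) i) : LX x (i+1) (par i) := by
  unfold LX
  rw [addr_att h]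
  have := kb_append (addr x (par i)) [i+1] []
  rw [List.append_nil] at this
  rw [this]; rfl

theorem le_typein {x : ℕ → Bool} {ρ : ℕ → Ordinal.{0}} (h : Ranked x ρ) [IsWellOrder ℕ (LX x)] :
    ∀ θ j, ρ j = θ → θ ≤ typein (LX x) j := by
  intro θ
  induction θ using WellFoundedLT.induction with
  | ind θ ih =>
    intro j hj
    by_contra hlt
    rw [not_le] at hlt
    obtain ⟨i, h1, h2, h3⟩ := h.full j _ (hj ▸ hlt)
    have h4 := ih _ hlt (i+1) h3
    have h5 : typein (LX x) (i+1) < typein (LX x) j := by
      rw [typein_lt_typein, ← h2]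
      exact LX_child h1
    exact absurd h5 (not_lt.2 h4)

theorem isRecOrd_of_lt {x : ℕ → Bool} {ρ : ℕ → Ordinal.{0}} (h : Ranked x ρ) {α : Ordinal.{0}}
    {j₀ : ℕ} (hα : α < ρ j₀) : IsRecOrd (Xi x) α := by
  haveI := LX_wo h
  have h1 : α < type (LX x) :=
    lt_trans (lt_of_lt_of_le hα (le_typein h _ j₀ rfl)) (typein_lt_type _ _)
  obtain ⟨j, rfl⟩ := typein_surj (LX x) h1
  -- the initial segment below `j`
  let R : ℕ → Bool := fun n => Xi x n &&
    ((Xi x (Nat.pair n.unpair.1 j) && decide (n.unpair.1 ≠ j)) &&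
      (Xi x (Nat.pair n.unpair.2 j) && decide (n.unpair.2 ≠ j)))
  have hX : ∀ a b, (Xi x (Nat.pair a b) = true ↔ a = b ∨ LX x a b) := by
    intro a b; simp [Xi, LX]
  have hirr : ∀ a, ¬ LX x a a := by
    intro a; simp [LX, kb_irrefl]
  have hX' : ∀ a, (Xi x (Nat.pair a j) = true ∧ a ≠ j) ↔ LX x a j := by
    intro a
    rw [hX]
    constructor
    · rintro ⟨h1 | h1, h2⟩
      · exact absurd h1 h2
      · exact h1
    · intro h1
      refine ⟨Or.inr h1, ?_⟩
      rintro rfl
      exact hirr _ h1
  have hR : ∀ a b, R (Nat.pair a b) = true ↔ (a = b ∨ LX x a b) ∧ LX x a j ∧ LX x b j := by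
    intro a b
    simp only [R, Bool.and_eq_true, Nat.unpair_pair, decide_eq_true_eq]
    rw [hX, hX', hX']
  have hpl : Nat.Primrec (fun n => n.unpair.1) := Nat.Primrec.left
  have hpr : Nat.Primrec (fun n => n.unpair.2) := Nat.Primrec.right
  have hpair : ∀ f : ℕ → ℕ, Nat.Primrec f → Nat.Primrec (fun n => Nat.pair (f n) j) := by
    intro f hf
    have h1 : Primrec (fun n => Nat.pair (f n) j) :=
      Primrec₂.natPair.comp (Primrec.nat_iff.2 hf) (Primrec.const j)
    exact Primrec.nat_iff.1 h1
  have hRec : RecIn (Xi x) R := by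
    refine recIn_and (recIn_self _) (recIn_and (recIn_and ?_ ?_) (recIn_and ?_ ?_))
    · exact recIn_comp (recIn_self _) (hpair _ hpl)
    · exact recIn_ne _ j hpl
    · exact recIn_comp (recIn_self _) (hpair _ hpr)
    · exact recIn_ne _ j hpr
  have hFld : ∀ a, R (Nat.pair a a) = true ↔ LX x a j := by
    intro a; rw [hR]; simp
  let e : Rel R ≃r Subrel (LX x) (fun a => LX x a j) :=
    { toFun := fun a => ⟨a.1, (hFld a.1).1 a.2⟩
      invFun := fun a => ⟨a.1, (hFld a.1).2 a.2⟩
      left_inv := fun a => rfl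
      right_inv := fun a => rfl
      map_rel_iff' := by
        intro a b
        show LX x a.1 b.1 ↔ R (Nat.pair a.1 b.1) = true ∧ a.1 ≠ b.1
        rw [hR]
        constructor
        · intro h1
          refine ⟨⟨Or.inr h1, (hFld a.1).1 a.2, (hFld b.1).1 b.2⟩, ?_⟩
          intro h2
          rw [h2] at h1
          exact hirr _ h1
        · rintro ⟨⟨h1 | h1, -⟩, h2⟩
          · exact absurd h1 h2
          · exact h1 }
  have hwo : IsWellOrder (Fld R) (Rel R) := e.toRelEmbedding.isWellOrder
  refine ⟨R, hRec, hwo, ?_⟩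
  rw [← type_subrel]
  exact type_eq.2 ⟨e⟩

/-- an ordinal rank function bounds the order type -/
theorem type_le_of_rank {R : ℕ → Bool} (hwo : IsWellOrder (Fld R) (Rel R)) {δ : Ordinal.{0}}
    (rk : Fld R → Ordinal.{0}) (h1 : ∀ a, rk a < δ) (h2 : ∀ a b, Rel R b a → rk b < rk a) :
    @Ordinal.type (Fld R) (Rel R) hwo ≤ δ := by
  have key : ∀ a, typein (Rel R) a ≤ rk a := by
    intro a
    induction a using hwo.wf.induction with
    | _ a ih =>
      by_contra hlt
      rw [not_le] at hlt
      obtain ⟨b, hb⟩ := typein_surj (Rel R) (hlt.trans (typein_lt_type _ a))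
      have h3 : Rel R b a := by
        rw [← typein_lt_typein (Rel R), hb]; exact hlt
      have h4 := ih b h3
      rw [hb] at h4
      exact absurd (h2 a b h3) (not_lt.2 h4)
  by_contra hlt
  rw [not_le] at hlt
  obtain ⟨b, hb⟩ := typein_surj (Rel R) hlt
  have := key b
  rw [hb] at this
  exact absurd (h1 b) (not_lt.2 this)

theorem recOrd_countable {x : ℕ → Bool} {α : Ordinal.{0}} (h : IsRecOrd x α) : α < ω₁ := by
  obtain ⟨R, -, hwo, rfl⟩ := h
  have h1 : Cardinal.mk (Fld R) ≤ Cardinal.aleph0 := by
    haveI : Countable (Fld R) := by unfold Fld; infer_instance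
    exact Cardinal.mk_le_aleph0
  rw [← Cardinal.ord_aleph, Cardinal.lt_ord, card_type, ← Cardinal.succ_aleph0]
  exact Order.lt_succ_of_le h1

theorem omega1CK_lt {y x : ℕ → Bool} {δ : Ordinal.{0}}
    (h1 : ∀ α, IsRecOrd y α → α ≤ δ) (h2 : ∀ α, α ≤ δ + 1 → IsRecOrd x α) :
    omega1CK y < omega1CK x := by
  have h3 : omega1CK y ≤ δ + 1 := by
    apply csInf_le'
    intro h
    exact absurd (h1 _ h) (not_le.2 (Order.lt_add_one_iff.2 le_rfl))
  have h4 : (omega1CK x) ∈ {α | ¬ IsRecOrd x α} := by
    apply csInf_mem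
    exact ⟨ω₁, fun h => lt_irrefl _ (recOrd_countable h)⟩
  refine lt_of_le_of_lt h3 ?_
  by_contra h5
  rw [not_lt] at h5
  exact h4 (h2 _ h5)

end Pool.Agent.H654R2
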