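import Pool.Agent.H654R2.VWJoin

/-!
The construction.
-/

namespace Pool.Agent.H654R2

open Ordinal

/-- the initial condition -/
noncomputable def startSC (δ : Ordinal.{0}) : SC δ where
  m := 0
  o := ⟨fun _ _ => false, fun _ _ => ⊤, fun _ _ => ⊤⟩
  s := []
  lam := fun _ => 5
  v := ⟨fun _ _ _ _ h => absurd h.1 (by simp), fun _ h1 _ h2 => by
      exfalso; omega, fun _ _ h => by exfalso; omega,
    fun _ _ h => by exfalso; omega, fun _ h => by exfalso; omega⟩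
  c := ⟨fun _ _ _ _ => TB_top, fun _ _ _ _ => TB_top⟩
  sh := ⟨rfl, rfl, fun i h => by exfalso; omega⟩

theorem main_construction : ∃ (y : List Bool → ℕ → Bool) (x : ℕ → Bool) (γ : ℕ → Bool),
    x ∈ AY y ∧ omega1CK (Theta y) < omega1CK (Xi x) ∧
    ∀ u : Fin 4 → ℕ → Bool, (∀ j, u j ∈ Xi '' AY y) →
      ¬ HypIn γ (join4 (u 0) (u 1) (u 2) (u 3)) := by
  classical
  obtain ⟨δ, hδ, -, hlim, hmu, hR1, hR2⟩ := exists_delta (E := OCode) (A := ℕ) (Pr := PrE) PrE_ok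
  have hδ0 : 0 < δ := hlim.1
  -- closure ordinals for tuples
  have hηex : ∀ t : Idx, ∃ η : Ordinal.{0}, η < ω₁ ∧
      ∀ (p : TC δ (Fin t.1) t.2.1) (a : List ℕ),
        ¬ High TC.le (PrT t.2.2.1 t.2.2.2.1 t.2.2.2.2) p a →
        ∃ β, β < η ∧ ¬ HH TC.le (PrT t.2.2.1 t.2.2.2.1 t.2.2.2.2) β p a := by
    intro t
    have := TC.rep_countable (ι := Fin t.1) hδ
    exact exists_eta (rep := TC.rep) (fun p q r => TC.le_trans p q r)
      (fun p q => TC.rep_le p q) (PrT t.2.2.1 t.2.2.2.1 t.2.2.2.2)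
  choose η hη1 hη2 using hηex
  -- the real to be avoided
  let GI : Type := Σ n : ℕ, Fin n × OCode × OCode × (Fin 4 → Fin n)
  let bad : GI → Set (ℕ → Bool) := fun t => {γ : ℕ → Bool | ¬ ∀ p : TC δ (Fin t.1) t.2.1, ∃ q,
    TC.le q p ∧ q ∈ Eγ TC.le (fun k => PrT t.2.2.1 t.2.2.2.2 k)
      (fun k => PrT t.2.2.2.1 t.2.2.2.2 k) [] γ}
  have hbad : ∀ t, (bad t).Countable := by
    intro t
    have := TC.rep_countable (ι := Fin t.1) hδ
    exact bad_countable (rep := TC.rep) (TC.le_refl) (fun p q r => TC.le_trans p q r)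
      (fun p q => TC.rep_le p q) _ _ []
  have hUc : (⋃ t, bad t).Countable := Set.countable_iUnion hbad
  obtain ⟨γ, hγ⟩ : ∃ γ : ℕ → Bool, γ ∉ ⋃ t, bad t := by
    by_contra hcon
    push Not at hcon
    have h1 : (Set.univ : Set (ℕ → Bool)).Countable := hUc.mono (fun γ _ => hcon γ)
    have h2 : Countable (ℕ → Bool) := Set.countable_univ_iff.1 h1
    obtain ⟨f, hf⟩ := exists_surjective_nat (ℕ → Bool)
    obtain ⟨n, hn⟩ := hf (fun n => !f n n)
    have h3 := congrFun hn n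
    cases h4 : f n n <;> simp [h4] at h3
  have hγ1 : ∀ (n : ℕ) (st : Fin n) (e1 e2 : OCode) (π : Fin 4 → Fin n),
      ∀ p : TC δ (Fin n) st, ∃ q, TC.le q p ∧
        q ∈ Eγ TC.le (fun k => PrT e1 π k) (fun k => PrT e2 π k) [] γ := by
    intro n st e1 e2 π
    by_contra hcon
    exact hγ (Set.mem_iUnion.2 ⟨⟨n, st, e1, e2, π⟩, hcon⟩)
  -- the family of requirements
  let T1 : Type := Σ n : ℕ, Fin n × OCode × (Fin 4 → Fin n) × ℕ × List ℕ × ℕ
  let T2 : Type := Σ n : ℕ, Fin n × OCode × OCode × (Fin 4 → Fin n) × ℕ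
  let F1 : T1 → Set (SC δ) := fun t =>
    D6 (E1 (TC.le (δ := δ) (st := t.2.1)) (PrT t.2.2.1 t.2.2.2.1 t.2.2.2.2.1)
      (η ⟨t.1, t.2.1, t.2.2.1, t.2.2.2.1, t.2.2.2.2.1⟩) t.2.2.2.2.2.1) t.2.2.2.2.2.2
  let F2 : T1 → Set (SC δ) := fun t =>
    D6 (E2 (TC.le (δ := δ) (st := t.2.1)) (PrT t.2.2.1 t.2.2.2.1 t.2.2.2.2.1)
      t.2.2.2.2.2.1) t.2.2.2.2.2.2
  let F3 : T1 → Ordinal.{0} → Set (SC δ) := fun t β =>
    D6 (E3 (TC.le (δ := δ) (st := t.2.1)) (PrT t.2.2.1 t.2.2.2.1 t.2.2.2.2.1) β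
      t.2.2.2.2.2.1) t.2.2.2.2.2.2
  let F4 : T2 → Set (SC δ) := fun t =>
    D6 (Eγ (TC.le (δ := δ) (st := t.2.1)) (fun k => PrT t.2.2.1 t.2.2.2.2.1 k)
      (fun k => PrT t.2.2.2.1 t.2.2.2.2.1 k) [] γ) t.2.2.2.2.2
  let ηt : T1 → Ordinal.{0} := fun t => η ⟨t.1, t.2.1, t.2.2.1, t.2.2.2.1, t.2.2.2.2.1⟩
  let SS : Set (Set (SC δ)) :=
    Set.range (D4 δ) ∪ Set.range (D5 δ) ∪
    Set.range (fun t : OCode × ℕ => D1 hδ.le (PrE t.1) t.2) ∪
    (⋃ t : OCode × ℕ, (fun β => D3 hδ.le (PrE t.1) t.2 β) '' Set.Iio δ) ∪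
    Set.range F1 ∪ Set.range F2 ∪ (⋃ t : T1, (F3 t) '' Set.Iio (ηt t)) ∪ Set.range F4
  have hTBc : Countable {t : Tag // TB δ t} := (countable_TB hδ).to_subtype
  have hSSc : SS.Countable := by
    refine Set.Countable.union (Set.Countable.union (Set.Countable.union (Set.Countable.union
      (Set.Countable.union (Set.Countable.union (Set.Countable.union ?_ ?_) ?_) ?_) ?_) ?_) ?_) ?_
    · exact Set.countable_range _
    · exact Set.countable_range _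
    · exact Set.countable_range _
    · exact Set.countable_iUnion (fun t => (countable_Iio_of_lt hδ).image _)
    · exact Set.countable_range _
    · exact Set.countable_range _
    · exact Set.countable_iUnion (fun t => (countable_Iio_of_lt (hη1 _)).image _)
    · exact Set.countable_range _
  have htr : ∀ (n : ℕ) (st : Fin n) (p q r : TC δ (Fin n) st), TC.le r q → TC.le q p →
      TC.le r p := fun n st p q r => TC.le_trans p q r
  have hDO1 : ∀ t : T1, TC.DO (E1 (TC.le (δ := δ) (st := t.2.1))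
      (PrT t.2.2.1 t.2.2.2.1 t.2.2.2.2.1) (ηt t) t.2.2.2.2.2.1) := by
    intro t
    refine ⟨?_, ?_⟩
    · exact fun p => E1_dense TC.le_refl
        (hη2 ⟨t.1, t.2.1, t.2.2.1, t.2.2.2.1, t.2.2.2.2.1⟩) _ p
    · exact fun p q => E1_open (htr _ _) _ p q
  have hDO2 : ∀ t : T1, TC.DO (E2 (TC.le (δ := δ) (st := t.2.1))
      (PrT t.2.2.1 t.2.2.2.1 t.2.2.2.2.1) t.2.2.2.2.2.1) := by
    intro t
    refine ⟨?_, ?_⟩
    · exact fun p => E2_dense TC.le_refl (htr _ _) (hη1 _)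
        (hη2 ⟨t.1, t.2.1, t.2.2.1, t.2.2.2.1, t.2.2.2.2.1⟩) _ p
    · exact fun p q => E2_open (htr _ _) (fun p q b a hq h => PrT_mono _ _ _ p q b a hq h) _ p q
  have hDO3 : ∀ (t : T1) (β : Ordinal.{0}), TC.DO (E3 (TC.le (δ := δ) (st := t.2.1))
      (PrT t.2.2.1 t.2.2.2.1 t.2.2.2.2.1) β t.2.2.2.2.2.1) := by
    intro t β
    refine ⟨?_, ?_⟩
    · exact fun p => E3_dense TC.le_refl β _ p
    · exact fun p q => E3_open (htr _ _) β _ p q
  have hDO4 : ∀ t : T2, TC.DO (Eγ (TC.le (δ := δ) (st := t.2.1))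
      (fun k => PrT t.2.2.1 t.2.2.2.2.1 k) (fun k => PrT t.2.2.2.1 t.2.2.2.2.1 k) [] γ) := by
    intro t
    refine ⟨?_, ?_⟩
    · exact hγ1 _ _ _ _ _
    · exact fun p q => Eγ_open (htr _ _) _ _ [] γ p q
  have hall : ∀ S ∈ SS, (∀ p, ∃ q, SC.le q p ∧ q ∈ S) ∧
      (∀ p q, SC.eqv p q → p ∈ S → q ∈ S) := by
    intro S hS
    rcases hS with ((((((hS | hS) | hS) | hS) | hS) | hS) | hS) | hS
    · obtain ⟨si, rfl⟩ := hS
      exact ⟨D4_dense hδ0 si, D4_loc si⟩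
    · obtain ⟨r, rfl⟩ := hS
      exact ⟨D5_dense hδ0 r, D5_loc r⟩
    · obtain ⟨⟨e, a⟩, rfl⟩ := hS
      refine ⟨fun p => D1_dense hδ hmu (PrE_ok e) (fun p hp a h => hR1 p hp e a h)
        (fun p hp s lam hs a h => hR2 p hp s lam hs e a h) p a, fun p q => D1_loc (PrE_ok e) p q⟩
    · obtain ⟨⟨e, a⟩, β, hβ, rfl⟩ := Set.mem_iUnion.1 hS
      exact ⟨fun p => D3_dense hδ hmu (PrE_ok e) p hβ, fun p q => D3_loc p q⟩
    · obtain ⟨t, rfl⟩ := hS
      exact ⟨D6_dense hδ0 (hDO1 t) _, D6_loc (hDO1 t) _⟩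
    · obtain ⟨t, rfl⟩ := hS
      exact ⟨D6_dense hδ0 (hDO2 t) _, D6_loc (hDO2 t) _⟩
    · obtain ⟨t, β, hβ, rfl⟩ := Set.mem_iUnion.1 hS
      exact ⟨D6_dense hδ0 (hDO3 t β) _, D6_loc (hDO3 t β) _⟩
    · obtain ⟨t, rfl⟩ := hS
      exact ⟨D6_dense hδ0 (hDO4 t) _, D6_loc (hDO4 t) _⟩
  have hSSc' : Countable SS := hSSc.to_subtype
  obtain ⟨g, hg, hst⟩ := exists_gen (startSC δ) (R := SS) (fun S => S.1)
    (fun S => (hall S.1 S.2).1) (fun S => (hall S.1 S.2).2)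
    (fun p => by
      obtain ⟨q, h1, h2⟩ := p.step_def hδ0
      exact ⟨q, h1, by omega⟩)
  have hmeet : ∀ S ∈ SS, ∃ m, g.at m ∈ S := fun S hS => hg ⟨S, hS⟩
  have h4 : ∀ si, ∃ m, g.at m ∈ D4 δ si := fun si => hmeet _ (by
    simp only [SS, Set.mem_union]; left; left; left; left; left; left; left; exact ⟨si, rfl⟩)
  have h5 : ∀ r, ∃ m, g.at m ∈ D5 δ r := fun r => hmeet _ (by
    simp only [SS, Set.mem_union]; left; left; left; left; left; left; right; exact ⟨r, rfl⟩)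
  have h1 : ∀ e a, ∃ m, g.at m ∈ D1 hδ.le (PrE e) a := fun e a => hmeet _ (by
    simp only [SS, Set.mem_union]; left; left; left; left; left; right; exact ⟨(e, a), rfl⟩)
  have h3 : ∀ e a β, β < δ → ∃ m, g.at m ∈ D3 hδ.le (PrE e) a β := fun e a β hβ => hmeet _ (by
    simp only [SS, Set.mem_union]; left; left; left; left; right
    exact Set.mem_iUnion.2 ⟨(e, a), β, hβ, rfl⟩)
  have hdec : Decides g η := by
    refine ⟨?_, ?_, ?_⟩
    · intro n st e π k a L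
      exact hmeet _ (by
        simp only [SS, Set.mem_union]; left; left; left; right
        exact ⟨⟨n, st, e, π, k, a, L⟩, rfl⟩)
    · intro n st e π k a L
      exact hmeet _ (by
        simp only [SS, Set.mem_union]; left; left; right
        exact ⟨⟨n, st, e, π, k, a, L⟩, rfl⟩)
    · intro n st e π k a L β hβ
      exact hmeet _ (by
        simp only [SS, Set.mem_union]; left; right
        exact Set.mem_iUnion.2 ⟨⟨n, st, e, π, k, a, L⟩, β, hβ, rfl⟩)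
  have hγ2 : ∀ (n : ℕ) (st : Fin n) (e1 e2 : OCode) (π : Fin 4 → Fin n) (L : ℕ),
      ∃ m, g.at m ∈ D6 (Eγ (TC.le (δ := δ) (st := st)) (fun k => PrT e1 π k)
        (fun k => PrT e2 π k) [] γ) L := by
    intro n st e1 e2 π L
    exact hmeet _ (by
      simp only [SS, Set.mem_union]; right
      exact ⟨⟨n, st, e1, e2, π, L⟩, rfl⟩)
  refine ⟨g.G.y, g.x, γ, (mem_AY_iff g h4 g.x).2 (star_top g), ?_, ?_⟩
  · have hrk := ranked_star g h5
    have ht0 : tg g g.x 0 = ⊤ := by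
      have h6 : Agree 0 (startSC δ).o g.G := hst.ag
      show g.G.τ [] 0 = ⊤
      rw [← h6.eτ (s := []) (j := 0) (by simp) (by simp)]
      rfl
    have hl0 : g.lam 0 = 5 := (hst.lam 0 (Nat.zero_le _)).symm
    have hrho : rho g 0 = δ + (5 : ℕ) := by rw [rho_top g ht0, hl0]
    refine omega1CK_lt (δ := δ) (fun α hα => recOrd_le g hδ.le h1 h3 hα) (fun α hα => ?_)
    refine isRecOrd_of_lt hrk (j₀ := 0) ?_
    rw [hrho]
    refine lt_of_le_of_lt hα ?_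
    have h6 : (1 : Ordinal.{0}) < ((5 : ℕ) : Ordinal.{0}) := by exact_mod_cast (by norm_num : 1 < 5)
    exact (add_lt_add_iff_left δ).2 h6
  · intro u hu
    refine no_join g η hη1 ?_ hdec h4 γ hγ1 hγ2 u hu
    intro n st e π k p a
    exact hη2 ⟨n, st, e, π, k⟩ p a

end Pool.Agent.H654R2
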