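import Pool.Agent.H654R2.VWDelta

/-!
The requirements met by the generic object.
-/

namespace Pool.Agent.H654R2

open Ordinal

section steps

variable {δ : Ordinal.{0}}

theorem SC.step (p : SC δ) (d : StepData) (hd : StepOK p.m p.o d)
    (h1 : ∀ s, s.length ≤ p.m → TB δ (d.kt s)) (h2 : ∀ s, s.length = p.m → TB δ (d.nt s))
    (h3 : ∀ s, s.length = p.m → TB δ (d.orho s))
    (h4 : ∀ s, s.length = p.m → ∀ j, j ≤ p.m + 1 → TB δ (d.ot s j)) (l : ℕ)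
    (hl : att (d.nb p.s) p.m → d.nt p.s = ⊤ → l < p.lam (par p.m)) :
    ∃ q : SC δ, SC.le q p ∧ q.m = p.m + 1 ∧ q.o = stepO p.m p.o d ∧ q.s = d.nb p.s :: p.s ∧
      q.lam (p.m+1) = l := by
  have hlen := p.sh.len
  refine ⟨⟨p.m + 1, stepO p.m p.o d, d.nb p.s :: p.s, fun j => if j ≤ p.m then p.lam j else l,
    p.v.stepO hd, p.c.stepO h1 h2 h3 h4, ⟨by simp [hlen], ?_, ?_⟩⟩,
    ⟨Nat.le_succ _, agree_stepO, List.suffix_cons _ _, ?_⟩, rfl, rfl, rfl, ?_⟩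
  · have e : (stepO p.m p.o d).κ (d.nb p.s :: p.s) (p.m+1) = p.o.κ p.s p.m :=
      stepO_κ_nk (d := d) hlen
    rw [e]; exact p.sh.top
  · intro i h5 h6 h7
    rcases Nat.lt_succ_iff_lt_or_eq.1 h5 with h | h
    · rw [bitAt_cons_lt (by omega)] at h6
      have e : (stepO p.m p.o d).τ (d.nb p.s :: p.s) (i+1) = p.o.τ p.s (i+1) :=
        stepO_τ_nk (d := d) hlen (by omega)
      rw [e] at h7
      have h8 := p.sh.dec i h h6 h7
      have h9 : i + 1 ≤ p.m := h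
      have h10 : par i ≤ p.m := (par_le i).trans h.le
      simp only [h9, h10, if_true]
      exact h8
    · subst h
      have e : (stepO p.m p.o d).τ (d.nb p.s :: p.s) (p.m+1) = d.nt p.s :=
        stepO_τ_nk_new (d := d) hlen
      rw [e] at h7
      have h8 : bitAt (d.nb p.s :: p.s) p.m = d.nb p.s := by
        conv_lhs => rw [← hlen]
        exact bitAt_cons_length
      rw [h8] at h6
      have h9 : ¬ (p.m + 1 ≤ p.m) := by omega
      have h10 : par p.m ≤ p.m := par_le _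
      simp only [h9, h10, if_true, if_false]
      exact hl h6 h7
  · intro j hj
    show (if j ≤ p.m then p.lam j else l) = p.lam j
    simp [hj]
  · show (if p.m + 1 ≤ p.m then p.lam (p.m + 1) else l) = l
    simp

theorem SC.step_def (hδ : 0 < δ) (p : SC δ) : ∃ q : SC δ, SC.le q p ∧ q.m = p.m + 1 := by
  obtain ⟨q, h1, h2, -⟩ := p.step defStep defStep_ok (fun _ _ => TB_zero hδ)
    (fun _ _ => TB_zero hδ) (fun _ _ => TB_zero hδ) (fun _ _ _ _ => TB_top) 0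
    (fun h => absurd h.1 (by simp [defStep]))
  exact ⟨q, h1, h2⟩

theorem SC.ext_to (hδ : 0 < δ) (p : SC δ) (n : ℕ) (hn : p.m ≤ n) :
    ∃ q : SC δ, SC.le q p ∧ q.m = n := by
  obtain ⟨k, rfl⟩ := Nat.exists_eq_add_of_le hn
  clear hn
  induction k with
  | zero => exact ⟨p, SC.le_refl p, rfl⟩
  | succ k ih =>
    obtain ⟨q, h1, h2⟩ := ih
    obtain ⟨q', h3, h4⟩ := q.step_def hδ
    exact ⟨q', SC.le_trans h3 h1, by omega⟩

end steps

/-- a position at which a child of node `i` can be attached -/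
theorem exists_slot (i n : ℕ) : ∃ i', n ≤ i' ∧ i ≤ i' ∧ par i' = i ∧ i' % 2 = 1 := by
  refine ⟨2 * Nat.pair i (n + i) + 1, ?_, ?_, ?_, by omega⟩
  · have := Nat.right_le_pair i (n + i)
    omega
  · have := Nat.left_le_pair i (n + i)
    omega
  · unfold par
    have : (2 * Nat.pair i (n + i) + 1) / 2 = Nat.pair i (n + i) := by omega
    rw [this, Nat.unpair_pair]

section reqs

variable {δ : Ordinal.{0}}

/-- the clock requirement -/
def D4 (δ : Ordinal.{0}) (si : List Bool × ℕ) : Set (SC δ) :=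
  {p | si.2 ≤ p.m ∧ (si.1.length ≤ si.2 → p.o.κ si.1 si.2 = ⊤ →
    ∃ i', i' < p.m ∧ si.2 ≤ i' ∧ att (p.o.y si.1 i') i' ∧ par i' = si.2 ∧
      p.o.κ si.1 (i'+1) = ⊤)}

theorem D4_dense (hδ : 0 < δ) (si : List Bool × ℕ) (p : SC δ) :
    ∃ q, SC.le q p ∧ q ∈ D4 δ si := by
  classical
  obtain ⟨s, i⟩ := si
  obtain ⟨i', h1, h2, h3, h4⟩ := exists_slot i p.m
  obtain ⟨q, hq, hqm⟩ := p.ext_to hδ i' h1
  by_cases hs : s.length ≤ i ∧ q.o.κ s i = ⊤
  · obtain ⟨hs1, hs2⟩ := hs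
    let d : StepData :=
      { yb := fun t => decide (t = s)
        kt := fun t => if t = s then ⊤ else 0
        nb := fun _ => false
        nt := fun _ => 0
        orho := fun _ => 0
        ot := fun _ _ => ⊤ }
    have hd : StepOK q.m q.o d := by
      refine ⟨?_, ?_, ?_, ?_, ?_⟩
      · intro t _ h _
        have : t = s := by simpa [d] using h.1
        subst this
        right
        rw [hqm, h3]; exact hs2
      · intro t _ h; exact absurd h.1 (by simp [d])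
      · intro t _; exact zero_le
      · intro t _ j _; exact Or.inr ⟨zero_le, zero_le⟩
      · intro t _ i _ _; exact Or.inr rfl
    obtain ⟨r, g1, g2, g3, g4, g5⟩ := q.step d hd
      (fun t _ => by
        by_cases h : t = s
        · simp only [d, h, if_true]; exact TB_top
        · simp only [d, h, if_false]; exact TB_zero hδ)
      (fun _ _ => TB_zero hδ) (fun _ _ => TB_zero hδ) (fun _ _ _ _ => TB_top) 0
      (fun h => absurd h.1 (by simp [d]))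
    refine ⟨r, SC.le_trans g1 hq, ?_, ?_⟩
    · show i ≤ r.m
      omega
    · intro _ _
      refine ⟨i', by omega, h2, ?_, h3, ?_⟩
      · have e : r.o.y s i' = true := by
          rw [g3]
          simp [stepO, hqm, d]
        rw [e]; exact ⟨rfl, h4⟩
      · rw [g3, ← hqm, stepO_κ_new (by omega)]
        simp [d]
  · refine ⟨q, hq, by show i ≤ q.m; omega, fun h5 h6 => absurd ⟨h5, h6⟩ hs⟩

theorem D4_loc (si : List Bool × ℕ) (p q : SC δ) (h : SC.eqv p q) (hp : p ∈ D4 δ si) :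
    q ∈ D4 δ si := by
  obtain ⟨s, i⟩ := si
  obtain ⟨h1, h2⟩ := hp
  refine ⟨h.m ▸ h1, fun h3 h4 => ?_⟩
  have ha : Agree q.m p.o q.o := h.ag
  have hm : q.m = p.m := h.m
  have h1' : i ≤ q.m := by rw [hm]; exact h1
  obtain ⟨i', h5, h6, h7, h8, h9⟩ := h2 h3 (by rw [ha.eκ h3 h1']; exact h4)
  refine ⟨i', by omega, h6, ?_, h8, ?_⟩
  · rw [← ha.y s i' (h3.trans h6) (by omega)]; exact h7
  · rw [← ha.eκ (h3.trans (h6.trans (Nat.le_succ _))) (by omega)]; exact h9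

/-- the requirement on the distinguished real -/
def D5 (δ : Ordinal.{0}) (r : ℕ × {t : Tag // TB δ t} × ℕ) : Set (SC δ) :=
  {p | r.1 ≤ p.m ∧ ((r.2.1.1 < p.o.τ p.s r.1 ∨ (r.2.1.1 = ⊤ ∧ p.o.τ p.s r.1 = ⊤ ∧
      r.2.2 < p.lam r.1)) → ∃ i, i < p.m ∧ att (bitAt p.s i) i ∧ par i = r.1 ∧
        p.o.τ p.s (i+1) = r.2.1.1 ∧ (r.2.1.1 = ⊤ → p.lam (i+1) = r.2.2))}

theorem D5_dense (hδ : 0 < δ) (r : ℕ × {t : Tag // TB δ t} × ℕ) (p : SC δ) :
    ∃ q, SC.le q p ∧ q ∈ D5 δ r := by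
  classical
  obtain ⟨j, ⟨θ, hθ⟩, l⟩ := r
  obtain ⟨i', h1, h2, h3, h4⟩ := exists_slot j p.m
  obtain ⟨q, hq, hqm⟩ := p.ext_to hδ i' h1
  by_cases hc : θ < q.o.τ q.s j ∨ (θ = ⊤ ∧ q.o.τ q.s j = ⊤ ∧ l < q.lam j)
  · let d : StepData :=
      { yb := fun _ => false
        kt := fun _ => 0
        nb := fun t => decide (t = q.s)
        nt := fun _ => θ
        orho := fun _ => 0
        ot := fun _ _ => ⊤ }
    have hd : StepOK q.m q.o d := by
      refine ⟨?_, ?_, ?_, ?_, ?_⟩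
      · intro t _ h; exact absurd h.1 (by simp [d])
      · intro t _ h
        have : t = q.s := by simpa [d] using h.1
        subst this
        rw [hqm, h3]
        rcases hc with hc | hc
        · exact Or.inl hc
        · exact Or.inr hc.2.1
      · intro t _; exact zero_le
      · intro t _ j _; exact Or.inr ⟨zero_le, zero_le⟩
      · intro t _ i _ _; exact Or.inr rfl
    obtain ⟨r, g1, g2, g3, g4, g5⟩ := q.step d hd
      (fun _ _ => TB_zero hδ) (fun _ _ => hθ) (fun _ _ => TB_zero hδ) (fun _ _ _ _ => TB_top) l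
      (fun _ h => by
        rw [hqm, h3]
        rcases hc with hc | hc
        · have : θ = ⊤ := h
          rw [this] at hc
          exact absurd hc (by simp)
        · exact hc.2.2)
    have hlen := q.sh.len
    refine ⟨r, SC.le_trans g1 hq, ?_, ?_⟩
    · show j ≤ r.m
      omega
    · intro _
      refine ⟨i', by omega, ?_, h3, ?_, ?_⟩
      · have e : bitAt r.s i' = true := by
          rw [g4, ← hqm]
          conv_lhs => rw [← hlen]
          rw [bitAt_cons_length]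
          simp [d]
        rw [e]; exact ⟨rfl, h4⟩
      · show r.o.τ r.s (i'+1) = θ
        rw [g3, g4, ← hqm]
        exact stepO_τ_nk_new (d := d) hlen
      · intro _
        show r.lam (i'+1) = l
        rw [← hqm]; exact g5
  · refine ⟨q, hq, by show j ≤ q.m; omega, fun h5 => absurd h5 hc⟩

theorem D5_loc (r : ℕ × {t : Tag // TB δ t} × ℕ) (p q : SC δ) (h : SC.eqv p q)
    (hp : p ∈ D5 δ r) : q ∈ D5 δ r := by
  obtain ⟨j, ⟨θ, hθ⟩, l⟩ := r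
  obtain ⟨h1, h2⟩ := hp
  have ha : Agree q.m p.o q.o := h.ag
  have hm : q.m = p.m := h.m
  have hlen := p.sh.len
  refine ⟨hm ▸ h1, fun h3 => ?_⟩
  have h3' : θ < q.o.τ q.s j ∨ (θ = ⊤ ∧ q.o.τ q.s j = ⊤ ∧ l < q.lam j) := h3
  have h1' : j ≤ p.m := h1
  rw [h.s, ← ha.eτ (by omega) (by omega), ← h.lam j (by omega)] at h3'
  obtain ⟨i, h5, h6, h7, h8, h9⟩ := h2 h3'
  refine ⟨i, by omega, ?_, h7, ?_, ?_⟩
  · rw [h.s]; exact h6
  · rw [h.s, ← ha.eτ (by omega) (by omega)]; exact h8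
  · intro h10
    rw [← h.lam (i+1) (by omega)]; exact h9 h10

/-- conditions forgetting the distinguished string -/
def SC.pt (hδ : δ ≤ ω₁) (p : SC δ) : Pt := ⟨p.m, p.o, p.v, p.c.mono hδ le_rfl⟩

theorem SC.pt_le {hδ : δ ≤ ω₁} {p q : SC δ} (h : SC.eqv p q) :
    Pt.le (q.pt hδ) (p.pt hδ) ∧ Pt.le (p.pt hδ) (q.pt hδ) := by
  have hm : q.m = p.m := h.m
  have ha : Agree q.m p.o q.o := h.ag
  refine ⟨⟨hm.ge, ?_⟩, ⟨hm.le, ha⟩⟩
  show Agree p.m q.o p.o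
  rw [← hm]; exact ha.symm

/-- first requirement on ranks -/
def D1 {A : Type} (hδ : δ ≤ ω₁) (Pr : Pt → A → A → Prop) (a : A) : Set (SC δ) :=
  {p | (∃ β, β < δ ∧ Low Pt.le Pr β (p.pt hδ) a) ∨
    ∃ b, Pr (p.pt hδ) b a ∧ High Pt.le Pr (p.pt hδ) b}

/-- second requirement on ranks -/
def D3 {A : Type} (hδ : δ ≤ ω₁) (Pr : Pt → A → A → Prop) (a : A) (β : Ordinal.{0}) :
    Set (SC δ) :=
  {p | HH Pt.le Pr β (p.pt hδ) a ∨ ∃ β', β' < β ∧ Low Pt.le Pr β' (p.pt hδ) a}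

theorem Pt.tr : ∀ p q r : Pt, Pt.le r q → Pt.le q p → Pt.le r p :=
  fun p q r => Pt.le_trans p q r

theorem D1_loc {A : Type} {hδ : δ ≤ ω₁} {Pr : Pt → A → A → Prop} (hPr : PrOK Pr) {a : A}
    (p q : SC δ) (h : SC.eqv p q) (hp : p ∈ D1 hδ Pr a) : q ∈ D1 hδ Pr a := by
  obtain ⟨h1, h2⟩ := SC.pt_le (hδ := hδ) h
  rcases hp with ⟨β, hβ, h3⟩ | ⟨b, h3, h4⟩
  · exact Or.inl ⟨β, hβ, Low_mono Pt.tr h1 h3⟩
  · exact Or.inr ⟨b, hPr.mono _ _ h1 _ _ h3, High_mono Pt.tr h1 h4⟩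

theorem D3_loc {A : Type} {hδ : δ ≤ ω₁} {Pr : Pt → A → A → Prop} {a : A} {β : Ordinal.{0}}
    (p q : SC δ) (h : SC.eqv p q) (hp : p ∈ D3 hδ Pr a β) : q ∈ D3 hδ Pr a β := by
  obtain ⟨h1, h2⟩ := SC.pt_le (hδ := hδ) h
  rcases hp with h3 | ⟨β', hβ, h3⟩
  · exact Or.inl (HH_mono Pt.tr h1 h3)
  · exact Or.inr ⟨β', hβ, Low_mono Pt.tr h1 h3⟩

theorem SC.low {A : Type} (hδ : δ < ω₁) (hmu : ∀ η, η < δ → mu η < δ)
    {Pr : Pt → A → A → Prop} (hPr : PrOK Pr) (p : SC δ) {β : Ordinal.{0}} (hβ : β < δ) {a : A}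
    (h : ¬ HH Pt.le Pr β (p.pt hδ.le) a) :
    ∃ β', β' < β ∧ ∃ q : SC δ, SC.le q p ∧ Low Pt.le Pr β' (q.pt hδ.le) a := by
  obtain ⟨β', h1, q, h2, h3, ⟨s', h4, h5⟩, h6⟩ :=
    sharp_low hδ hmu hPr (p := p.pt hδ.le) p.c p.sh hβ h
  exact ⟨β', h1, ⟨q.m, q.o, s', p.lam, q.v, h3, h5⟩, ⟨h2.1, h2.2, h4, fun _ _ => rfl⟩, h6⟩

theorem D3_dense {A : Type} (hδ : δ < ω₁) (hmu : ∀ η, η < δ → mu η < δ)
    {Pr : Pt → A → A → Prop} (hPr : PrOK Pr) (p : SC δ) {β : Ordinal.{0}} (hβ : β < δ) {a : A} :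
    ∃ q : SC δ, SC.le q p ∧ q ∈ D3 hδ.le Pr a β := by
  by_cases h : HH Pt.le Pr β (p.pt hδ.le) a
  · exact ⟨p, SC.le_refl p, Or.inl h⟩
  · obtain ⟨β', h1, q, h2, h3⟩ := p.low hδ hmu hPr hβ h
    exact ⟨q, h2, Or.inr ⟨β', h1, h3⟩⟩

theorem D1_dense {A : Type} (hδ : δ < ω₁) (hmu : ∀ η, η < δ → mu η < δ)
    {Pr : Pt → A → A → Prop} (hPr : PrOK Pr)
    (hR1 : ∀ p : Pt, AllTB δ p.m p.o → ∀ a, ¬ High Pt.le Pr p a →
      ∃ β, β < δ ∧ ¬ HH Pt.le Pr β p a)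
    (hR2 : ∀ p : Pt, AllTB δ p.m p.o → ∀ s lam, Sharp p.m p.o s lam → ∀ a,
      High Pt.le Pr p a → ∃ q : Pt, Pt.le q p ∧ AllTB δ q.m q.o ∧ ∃ s' lam', s <:+ s' ∧
        Sharp q.m q.o s' lam' ∧ (∀ j, j ≤ p.m → lam' j = lam j) ∧
        ∃ b, Pr q b a ∧ High Pt.le Pr q b)
    (p : SC δ) (a : A) :
    ∃ q : SC δ, SC.le q p ∧ q ∈ D1 hδ.le Pr a := by
  by_cases h : High Pt.le Pr (p.pt hδ.le) a
  · obtain ⟨q, h1, h2, s', lam', h3, h4, h5, b, h6, h7⟩ := hR2 (p.pt hδ.le) p.c _ _ p.sh a h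
    exact ⟨⟨q.m, q.o, s', lam', q.v, h2, h4⟩, ⟨h1.1, h1.2, h3, h5⟩, Or.inr ⟨b, h6, h7⟩⟩
  · obtain ⟨β, hβ, h1⟩ := hR1 (p.pt hδ.le) p.c a h
    obtain ⟨β', h2, q, h3, h4⟩ := p.low hδ hmu hPr hβ h1
    exact ⟨q, h3, Or.inl ⟨β', h2.trans hβ, h4⟩⟩

end reqs

end Pool.Agent.H654R2
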