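import Mathlib

/-!
Tags (ordinals or `⊤`) and elementary facts.
-/

namespace Pool.Agent.H654R2

open Ordinal

/-- Tags: ordinals or `⊤`. -/
abbrev Tag := WithTop Ordinal.{0}

/-- `a` may be the tag of a child of a node with tag `b`. -/
def prec (a b : Tag) : Prop := a < b ∨ b = ⊤

/-- `a` and `b` are equal, or both are at least `μ`. -/
def sim (μ a b : Tag) : Prop := a = b ∨ (μ ≤ a ∧ μ ≤ b)

/-- `t` is `⊤` or below `η`. -/
def TB (η : Ordinal.{0}) (t : Tag) : Prop := t < (η : Tag) ∨ t = ⊤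

/-- Truncation: everything `≥ μ` becomes `⊤`. -/
noncomputable def cut (μ t : Tag) : Tag := by
  classical exact if t < μ then t else ⊤

theorem cut_of_lt {μ t : Tag} (h : t < μ) : cut μ t = t := by
  simp [cut, h]

theorem cut_of_le {μ t : Tag} (h : μ ≤ t) : cut μ t = ⊤ := by
  simp [cut, not_lt.2 h]

theorem cut_top {μ : Tag} : cut μ ⊤ = ⊤ := by
  unfold cut; split_ifs <;> rfl

theorem le_cut {μ t : Tag} : t ≤ cut μ t := by
  rcases lt_or_ge t μ with h | h
  · rw [cut_of_lt h]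
  · rw [cut_of_le h]; exact le_top

theorem cut_mono {μ a b : Tag} (h : a ≤ b) : cut μ a ≤ cut μ b := by
  rcases lt_or_ge b μ with hb | hb
  · rw [cut_of_lt hb, cut_of_lt (lt_of_le_of_lt h hb)]; exact h
  · rw [cut_of_le hb]; exact le_top

theorem sim_refl {μ a : Tag} : sim μ a a := Or.inl rfl

theorem sim_symm {μ a b : Tag} (h : sim μ a b) : sim μ b a := by
  rcases h with h | ⟨h1, h2⟩
  · exact Or.inl h.symm
  · exact Or.inr ⟨h2, h1⟩

theorem sim_trans {μ a b c : Tag} (h : sim μ a b) (h' : sim μ b c) : sim μ a c := by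
  rcases h with rfl | ⟨h1, h2⟩
  · exact h'
  · rcases h' with rfl | ⟨h3, h4⟩
    · exact Or.inr ⟨h1, h2⟩
    · exact Or.inr ⟨h1, h4⟩

theorem sim_mono {μ ν a b : Tag} (hμ : ν ≤ μ) (h : sim μ a b) : sim ν a b := by
  rcases h with rfl | ⟨h1, h2⟩
  · exact Or.inl rfl
  · exact Or.inr ⟨hμ.trans h1, hμ.trans h2⟩

theorem sim_top {a b : Tag} (h : sim ⊤ a b) : a = b := by
  rcases h with rfl | ⟨h1, h2⟩
  · rfl
  · rw [top_le_iff.1 h1, top_le_iff.1 h2]

theorem sim_cut {μ t : Tag} : sim μ (cut μ t) t := by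
  rcases lt_or_ge t μ with h | h
  · rw [cut_of_lt h]; exact sim_refl
  · rw [cut_of_le h]; exact Or.inr ⟨le_top, h⟩

theorem sim_min {μ t : Tag} : sim μ (min t μ) t := by
  rcases lt_or_ge t μ with h | h
  · rw [min_eq_left h.le]; exact sim_refl
  · rw [min_eq_right h]; exact Or.inr ⟨le_rfl, h⟩

theorem sim_cut_cut {ρ μ a b : Tag} (h : sim ρ a b) : sim (cut μ ρ) (cut μ a) (cut μ b) := by
  rcases h with rfl | ⟨h1, h2⟩
  · exact sim_refl
  · exact Or.inr ⟨cut_mono h1, cut_mono h2⟩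

theorem prec_cut {μ a b : Tag} (h : prec a b) : prec (cut μ a) (cut μ b) := by
  rcases lt_or_ge b μ with hb | hb
  · rcases h with h | rfl
    · rw [cut_of_lt hb, cut_of_lt (h.trans hb)]; exact Or.inl h
    · exact absurd hb (by simp)
  · rw [cut_of_le hb]; exact Or.inr rfl

/-- the successor of an ordinal tag is what is needed for one step -/
theorem succ_le_of_lt {μ : Ordinal.{0}} {a : Tag} (h : (μ : Tag) < a) :
    ((μ + 1 : Ordinal.{0}) : Tag) ≤ a := by
  induction a using WithTop.recTopCoe with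
  | top => exact le_top
  | coe a =>
    have h' : μ < a := by exact_mod_cast h
    have : μ + 1 ≤ a := Order.add_one_le_of_lt h'
    exact_mod_cast this

theorem lt_of_succ_le {μ : Ordinal.{0}} {a : Tag} (h : ((μ + 1 : Ordinal.{0}) : Tag) ≤ a) :
    (μ : Tag) < a := by
  refine lt_of_lt_of_le ?_ h
  have : μ < μ + 1 := Order.lt_add_one_iff.2 le_rfl
  exact_mod_cast this

theorem prec_min {μ : Ordinal.{0}} {t a a' : Tag} (h : prec t a)
    (hs : sim ((μ + 1 : Ordinal.{0}) : Tag) a a') : prec (min t (μ : Tag)) a' := by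
  rcases hs with rfl | ⟨h1, h2⟩
  · rcases h with h | h
    · exact Or.inl (lt_of_le_of_lt (min_le_left _ _) h)
    · exact Or.inr h
  · exact Or.inl (lt_of_le_of_lt (min_le_right _ _) (lt_of_succ_le h2))

theorem le_min_sim {μ : Ordinal.{0}} {t a a' : Tag} (h : t ≤ a)
    (hs : sim ((μ + 1 : Ordinal.{0}) : Tag) a a') : min t (μ : Tag) ≤ a' := by
  rcases hs with rfl | ⟨h1, h2⟩
  · exact (min_le_left _ _).trans h
  · exact (min_le_right _ _).trans (lt_of_succ_le h2).le

theorem coh_aux {μ : Ordinal.{0}} {ρ a b b' : Tag} (h : sim ρ a b)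
    (hs : sim ((μ + 1 : Ordinal.{0}) : Tag) b b') :
    sim (min ρ (μ : Tag)) (cut μ a) b' := by
  have hle : min ρ (μ : Tag) ≤ cut (μ : Tag) a ∨ cut (μ : Tag) a = a := by
    rcases lt_or_ge a (μ : Tag) with h' | h'
    · right; exact cut_of_lt h'
    · left; rw [cut_of_le h']; exact le_top
  have hb : sim (min ρ (μ : Tag)) a b' := by
    refine sim_trans (sim_mono (min_le_left _ _) h) (sim_mono ?_ hs)
    refine (min_le_right _ _).trans ?_
    have : μ ≤ μ + 1 := (Order.lt_add_one_iff.2 le_rfl).le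
    exact_mod_cast this
  rcases lt_or_ge a (μ : Tag) with h' | h'
  · rw [cut_of_lt h']; exact hb
  · rw [cut_of_le h']
    refine sim_trans ?_ hb
    refine Or.inr ⟨le_top, (min_le_right _ _).trans h'⟩

theorem TB_mono {η θ : Ordinal.{0}} (h : η ≤ θ) {t : Tag} (ht : TB η t) : TB θ t := by
  rcases ht with ht | ht
  · left; exact lt_of_lt_of_le ht (by exact_mod_cast h)
  · right; exact ht

theorem TB_top {η : Ordinal.{0}} : TB η ⊤ := Or.inr rfl

theorem TB_cut {μ η : Ordinal.{0}} (h : μ ≤ η) {t : Tag} : TB η (cut μ t) := by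
  rcases lt_or_ge t (μ : Tag) with h' | h'
  · rw [cut_of_lt h']; left; exact lt_of_lt_of_le h' (by exact_mod_cast h)
  · rw [cut_of_le h']; exact TB_top

theorem TB_min {μ η : Ordinal.{0}} (h : μ < η) {t : Tag} : TB η (min t (μ : Tag)) := by
  left; exact lt_of_le_of_lt (min_le_right _ _) (by exact_mod_cast h)

theorem TB_zero {η : Ordinal.{0}} (h : 0 < η) : TB η 0 := by
  left
  have : ((0 : Ordinal.{0}) : Tag) < (η : Tag) := by exact_mod_cast h
  simpa using this

theorem cut_eq_self {μ : Ordinal.{0}} {t : Tag} (h : TB μ t) : cut (μ : Tag) t = t := by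
  rcases h with h | rfl
  · exact cut_of_lt h
  · exact cut_top

theorem min_ne_top {μ : Ordinal.{0}} {t : Tag} : min t (μ : Tag) ≠ ⊤ := by
  intro h
  have h1 : (⊤ : Tag) ≤ (μ : Tag) := h ▸ min_le_right _ _
  exact WithTop.coe_ne_top (top_le_iff.1 h1)

end Pool.Agent.H654R2
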