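import Pool.Agent.H654R2.VWGen
import Pool.Agent.H654R2.VWReq

/-!
Tuples of reals.
-/

namespace Pool.Agent.H654R2

open Ordinal

/-- conditions for tuples of reals -/
structure TC (δ : Ordinal.{0}) (ι : Type) (st : ι) where
  m : ℕ
  b : ι → ℕ → Bool
  t : ι → ℕ → Tag
  lam : ℕ → ℕ
  tb : ∀ j i, TB δ (t j i)
  pr : ∀ j i, i < m → att (b j i) i → prec (t j (i+1)) (t j (par i))
  dec : ∀ i, i < m → att (b st i) i → t st (i+1) = ⊤ → lam (i+1) < lam (par i)

namespace TC

variable {δ : Ordinal.{0}} {ι : Type} {st : ι}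

/-- extension of tuples -/
structure le (q p : TC δ ι st) : Prop where
  m : p.m ≤ q.m
  b : ∀ j i, i < p.m → q.b j i = p.b j i
  t : ∀ j i, i ≤ p.m → q.t j i = p.t j i
  lam : ∀ i, i ≤ p.m → q.lam i = p.lam i

theorem le_refl (p : TC δ ι st) : TC.le p p := ⟨le_rfl, fun _ _ _ => rfl, fun _ _ _ => rfl,
  fun _ _ => rfl⟩

theorem le_trans (p q r : TC δ ι st) (h1 : TC.le r q) (h2 : TC.le q p) : TC.le r p :=
  ⟨h2.m.trans h1.m, fun j i hi => (h1.b j i (lt_of_lt_of_le hi h2.m)).trans (h2.b j i hi),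
    fun j i hi => (h1.t j i (hi.trans h2.m)).trans (h2.t j i hi),
    fun i hi => (h1.lam i (hi.trans h2.m)).trans (h2.lam i hi)⟩

/-- the visible data -/
def rep (p : TC δ ι st) : ℕ × (ι → List Bool) × (ι → List {t : Tag // TB δ t}) × List ℕ :=
  (p.m, fun j => (List.range p.m).map (p.b j),
    fun j => (List.range (p.m+1)).map (fun i => ⟨p.t j i, p.tb j i⟩),
    (List.range (p.m+1)).map p.lam)

theorem rep_le (p q : TC δ ι st) (h : rep p = rep q) : TC.le p q := by
  simp only [rep, Prod.mk.injEq] at h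
  obtain ⟨h1, h2, h3, h4⟩ := h
  refine ⟨h1.ge, ?_, ?_, ?_⟩
  · intro j i hi
    have h5 := congrFun h2 j
    rw [h1] at h5
    exact (List.map_inj_left.1 h5) i (List.mem_range.2 hi)
  · intro j i hi
    have h5 := congrFun h3 j
    rw [h1] at h5
    have h6 := (List.map_inj_left.1 h5) i (List.mem_range.2 (by omega))
    exact congrArg Subtype.val h6
  · intro i hi
    rw [h1] at h4
    exact (List.map_inj_left.1 h4) i (List.mem_range.2 (by omega))

theorem rep_countable [Finite ι] (hδ : δ < ω₁) :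
    Countable (ℕ × (ι → List Bool) × (ι → List {t : Tag // TB δ t}) × List ℕ) := by
  have hT : Countable {t : Tag // TB δ t} := (countable_TB hδ).to_subtype
  infer_instance

/-- pulling back along a map of index sets -/
def comap {ι' : Type} {st' : ι'} (φ : ι → ι') (h : φ st = st') (p : TC δ ι' st') :
    TC δ ι st where
  m := p.m
  b := fun j => p.b (φ j)
  t := fun j => p.t (φ j)
  lam := p.lam
  tb := fun j i => p.tb (φ j) i
  pr := fun j i => p.pr (φ j) i
  dec := by subst h; exact p.dec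

theorem comap_mono {ι' : Type} {st' : ι'} (φ : ι → ι') (h : φ st = st') {p q : TC δ ι' st'}
    (hq : TC.le q p) : TC.le (q.comap φ h) (p.comap φ h) :=
  ⟨hq.m, fun j i hi => hq.b (φ j) i hi, fun j i hi => hq.t (φ j) i hi, hq.lam⟩

theorem lift {ι' : Type} {st' : ι'} (φ : ι → ι') (hφ : Function.Injective φ) (h : φ st = st')
    (T : TC δ ι' st') (t' : TC δ ι st) (ht : TC.le t' (T.comap φ h)) :
    ∃ T' : TC δ ι' st', TC.le T' T ∧ TC.le (T'.comap φ h) t' := by
  classical
  subst h
  let B : ι' → ℕ → Bool := fun s i => if hs : ∃ j, φ j = s then t'.b hs.choose i else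
    if i < T.m then T.b s i else false
  let Tg : ι' → ℕ → Tag := fun s i => if hs : ∃ j, φ j = s then t'.t hs.choose i else
    if i ≤ T.m then T.t s i else ⊤
  have hB : ∀ j i, B (φ j) i = t'.b j i := by
    intro j i
    have hs : ∃ j', φ j' = φ j := ⟨j, rfl⟩
    have h1 : B (φ j) i = t'.b hs.choose i := dif_pos hs
    rw [h1, hφ hs.choose_spec]
  have hT : ∀ j i, Tg (φ j) i = t'.t j i := by
    intro j i
    have hs : ∃ j', φ j' = φ j := ⟨j, rfl⟩
    have h1 : Tg (φ j) i = t'.t hs.choose i := dif_pos hs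
    rw [h1, hφ hs.choose_spec]
  have hB' : ∀ s i, (¬ ∃ j, φ j = s) → B s i = if i < T.m then T.b s i else false := by
    intro s i hs; exact dif_neg hs
  have hT' : ∀ s i, (¬ ∃ j, φ j = s) → Tg s i = if i ≤ T.m then T.t s i else ⊤ := by
    intro s i hs; exact dif_neg hs
  refine ⟨⟨t'.m, B, Tg, t'.lam, ?_, ?_, ?_⟩, ⟨ht.m, ?_, ?_, ht.lam⟩, ⟨_root_.le_rfl, ?_, ?_, fun _ _ => rfl⟩⟩
  · intro s i
    by_cases hs : ∃ j, φ j = s
    · obtain ⟨j, rfl⟩ := hs
      rw [hT]; exact t'.tb j i
    · rw [hT' s i hs]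
      split_ifs
      · exact T.tb s i
      · exact TB_top
  · intro s i hi ha
    by_cases hs : ∃ j, φ j = s
    · obtain ⟨j, rfl⟩ := hs
      rw [hB] at ha
      rw [hT, hT]
      exact t'.pr j i hi ha
    · rw [hB' s i hs] at ha
      by_cases hi' : i < T.m
      · simp only [hi', if_true] at ha
        have h1 : i + 1 ≤ T.m := hi'
        have h2 : par i ≤ T.m := (par_le i).trans hi'.le
        rw [hT' s _ hs, hT' s _ hs]
        simp only [h1, h2, if_true]
        exact T.pr s i hi' ha
      · simp only [hi', if_false] at ha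
        exact absurd ha.1 (by simp)
  · intro i hi ha h1
    rw [hB] at ha
    rw [hT] at h1
    exact t'.dec i hi ha h1
  · intro s i hi
    by_cases hs : ∃ j, φ j = s
    · obtain ⟨j, rfl⟩ := hs
      show B (φ j) i = _
      rw [hB]
      exact ht.b j i hi
    · show B s i = _
      rw [hB' s i hs]
      simp [hi]
  · intro s i hi
    by_cases hs : ∃ j, φ j = s
    · obtain ⟨j, rfl⟩ := hs
      show Tg (φ j) i = _
      rw [hT]
      exact ht.t j i hi
    · show Tg s i = _
      rw [hT' s i hs]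
      simp [hi]
  · intro j i _
    exact hB j i
  · intro j i _
    exact hT j i

/-- default extension to a higher level -/
theorem ext_to (T : TC δ ι st) (n : ℕ) (hn : T.m ≤ n) : ∃ T' : TC δ ι st, TC.le T' T ∧ T'.m = n := by
  refine ⟨⟨n, fun j i => if i < T.m then T.b j i else false, fun j i => if i ≤ T.m then T.t j i else ⊤,
    T.lam, ?_, ?_, ?_⟩, ⟨hn, ?_, ?_, fun _ _ => rfl⟩, rfl⟩
  · intro j i
    split_ifs
    · exact T.tb j i
    · exact TB_top
  · intro j i hi ha
    by_cases hi' : i < T.m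
    · simp only [hi', if_true] at ha
      have h1 : i + 1 ≤ T.m := hi'
      have h2 : par i ≤ T.m := (par_le i).trans hi'.le
      simp only [h1, h2, if_true]
      exact T.pr j i hi' ha
    · simp only [hi', if_false] at ha
      exact absurd ha.1 (by simp)
  · intro i hi ha h3
    by_cases hi' : i < T.m
    · simp only [hi', if_true] at ha
      have h1 : i + 1 ≤ T.m := hi'
      simp only [h1, if_true] at h3
      exact T.dec i hi' ha h3
    · simp only [hi', if_false] at ha
      exact absurd ha.1 (by simp)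
  · intro j i hi; simp [hi]
  · intro j i hi; simp [hi]

/-- dense open sets -/
structure DO (D : Set (TC δ ι st)) : Prop where
  dense : ∀ p, ∃ q, TC.le q p ∧ q ∈ D
  opn : ∀ p q, TC.le q p → p ∈ D → q ∈ D

theorem exists_all {ι' : Type} [Finite ι] [Finite ι'] {st' : ι'} {D : Set (TC δ ι st)} (hD : DO D)
    (T : TC δ ι' st') : ∃ T' : TC δ ι' st', TC.le T' T ∧ ∀ φ : ι → ι', Function.Injective φ →
      ∀ h : φ st = st', T'.comap φ h ∈ D := by
  classical
  have := Fintype.ofFinite ι
  have := Fintype.ofFinite ι'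
  have key : ∀ (S : Finset (ι → ι')) (T : TC δ ι' st'), ∃ T' : TC δ ι' st', TC.le T' T ∧
      ∀ φ ∈ S, Function.Injective φ → ∀ h : φ st = st', T'.comap φ h ∈ D := by
    intro S
    induction S using Finset.induction_on with
    | empty => intro T; exact ⟨T, TC.le_refl T, fun φ h => absurd h (Finset.notMem_empty φ)⟩
    | insert φ S _ ih =>
      intro T
      obtain ⟨T1, h1, h2⟩ := ih T
      by_cases hφ : Function.Injective φ ∧ φ st = st'
      · obtain ⟨hφ1, hφ2⟩ := hφ
        obtain ⟨t', h3, h4⟩ := hD.dense (T1.comap φ hφ2)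
        obtain ⟨T2, h5, h6⟩ := lift φ hφ1 hφ2 T1 t' h3
        refine ⟨T2, TC.le_trans _ _ _ h5 h1, ?_⟩
        intro ψ hψ hψ1 hψ2
        rcases Finset.mem_insert.1 hψ with rfl | hψ3
        · exact hD.opn _ _ h6 h4
        · exact hD.opn _ _ (comap_mono ψ hψ2 h5) (h2 ψ hψ3 hψ1 hψ2)
      · refine ⟨T1, h1, ?_⟩
        intro ψ hψ hψ1 hψ2
        rcases Finset.mem_insert.1 hψ with rfl | hψ3
        · exact absurd ⟨hψ1, hψ2⟩ hφ
        · exact h2 ψ hψ3 hψ1 hψ2
  obtain ⟨T', h1, h2⟩ := key Finset.univ T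
  exact ⟨T', h1, fun φ hφ h => h2 φ (Finset.mem_univ φ) hφ h⟩

end TC

section realize

variable {δ : Ordinal.{0}}

theorem drop_suffix_of (s' s : List Bool) (n : ℕ) (h : s <:+ s') (hl : s'.length = s.length + n) :
    s'.drop n = s := by
  obtain ⟨t, rfl⟩ := h
  have : t.length = n := by simp at hl; omega
  rw [← this]
  simp

/-- realizing prescribed extensions of all the strings -/
theorem realize (hδ : 0 < δ) (p : SC δ) (Fb : List Bool → ℕ → Bool) (Ft : List Bool → ℕ → Tag)
    (lam' : ℕ → ℕ) (M : ℕ) (hTB : ∀ s i, TB δ (Ft s i))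
    (hb : ∀ s, s.length = p.m → p.o.κ s p.m = ⊤ → ∀ i, i < p.m → Fb s i = bitAt s i)
    (ht : ∀ s, s.length = p.m → p.o.κ s p.m = ⊤ → ∀ i, i ≤ p.m → Ft s i = p.o.τ s i)
    (hpr : ∀ s, s.length = p.m → p.o.κ s p.m = ⊤ → ∀ i, i < M → att (Fb s i) i →
      prec (Ft s (i+1)) (Ft s (par i)))
    (hlam : ∀ i, i ≤ p.m → lam' i = p.lam i)
    (hdec : ∀ i, i < M → att (Fb p.s i) i → Ft p.s (i+1) = ⊤ → lam' (i+1) < lam' (par i)) :
    ∀ n, p.m + n ≤ M → ∃ q : SC δ, SC.le q p ∧ q.m = p.m + n ∧
      (∀ s', s'.length = q.m → q.o.κ s' q.m = ⊤ →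
        (∀ i, i < q.m → bitAt s' i = Fb (s'.drop n) i) ∧
        (∀ i, i ≤ q.m → q.o.τ s' i = Ft (s'.drop n) i)) ∧
      (∀ i, i ≤ q.m → q.lam i = lam' i) := by
  classical
  intro n
  induction n with
  | zero =>
    intro _
    refine ⟨p, SC.le_refl p, rfl, ?_, fun i hi => (hlam i hi).symm⟩
    intro s' h1 h2
    rw [List.drop_zero]
    exact ⟨fun i hi => (hb s' h1 h2 i hi).symm, fun i hi => (ht s' h1 h2 i hi).symm⟩
  | succ n ih =>
    intro hM
    obtain ⟨q, hq1, hq2, hq3, hq4⟩ := ih (by omega)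
    -- restrictions of top strings are top strings
    have hres : ∀ t : List Bool, t.length = q.m → q.o.κ t q.m = ⊤ →
        (t.drop n).length = p.m ∧ p.o.κ (t.drop n) p.m = ⊤ := by
      intro t h1 h2
      have hl : (t.drop n).length = p.m := by rw [List.length_drop]; omega
      refine ⟨hl, ?_⟩
      have h3 := (top_suffix q.v t (List.drop_suffix n t) h1.le (by rw [h1]; exact h2)).1
      rw [hl] at h3
      rw [← hq1.ag.eκ hl.le le_rfl]
      exact h3
    have hps : q.s.drop n = p.s := by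
      apply drop_suffix_of _ _ _ hq1.s
      rw [q.sh.len, p.sh.len, hq2]
    let good : List Bool → Prop := fun t => t.length = q.m ∧ q.o.κ t q.m = ⊤
    let d : StepData :=
      { yb := fun _ => false
        kt := fun _ => 0
        nb := fun t => if good t then Fb (t.drop n) q.m else false
        nt := fun t => if good t then Ft (t.drop n) (q.m+1) else 0
        orho := fun _ => 0
        ot := fun _ _ => ⊤ }
    have hd : StepOK q.m q.o d := by
      refine ⟨?_, ?_, ?_, ?_, ?_⟩
      · intro t _ h; exact absurd h.1 (by simp [d])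
      · intro t h1 h2
        by_cases hg : good t
        · simp only [d, hg, if_true] at h2 ⊢
          obtain ⟨h3, h4⟩ := hres t hg.1 hg.2
          have h5 := hpr _ h3 h4 q.m (by omega) h2
          rw [← (hq3 t hg.1 hg.2).2 (par q.m) (par_le _)] at h5
          exact h5
        · simp only [d, hg, if_false] at h2
          exact absurd h2.1 (by simp)
      · intro t _; exact zero_le
      · intro t _ j _; exact Or.inr ⟨zero_le, zero_le⟩
      · intro t _ i _ _; exact Or.inr rfl
    have hsg : good q.s := ⟨q.sh.len, q.sh.top⟩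
    obtain ⟨r, g1, g2, g3, g4, g5⟩ := q.step d hd (fun _ _ => TB_zero hδ)
      (fun t _ => by
        by_cases hg : good t
        · simp only [d, hg, if_true]; exact hTB _ _
        · simp only [d, hg, if_false]; exact TB_zero hδ)
      (fun _ _ => TB_zero hδ) (fun _ _ _ _ => TB_top) (lam' (q.m+1))
      (fun h1 h2 => by
        simp only [d, hsg, if_true] at h1 h2
        rw [hps] at h1 h2
        rw [hq4 _ (par_le _)]
        exact hdec q.m (by omega) h1 h2)
    refine ⟨r, SC.le_trans g1 hq1, by omega, ?_, ?_⟩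
    · intro s' h1 h2
      obtain ⟨b, t, rfl⟩ : ∃ b t, s' = b :: t := by
        cases s' with
        | nil => simp at h1; omega
        | cons b t => exact ⟨b, t, rfl⟩
      have htl : t.length = q.m := by simp at h1; omega
      rw [g3, g2] at h2
      have hb2 : b = d.nb t := by
        by_contra hne
        rw [stepO_κ_other (d := d) htl hne] at h2
        exact absurd h2 (by simp [d])
      subst hb2
      rw [stepO_κ_nk (d := d) htl] at h2
      have hg : good t := ⟨htl, h2⟩
      have hnb : d.nb t = Fb (t.drop n) q.m := by simp only [d, hg, if_true]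
      have hnt : d.nt t = Ft (t.drop n) (q.m+1) := by simp only [d, hg, if_true]
      have hdr : (d.nb t :: t).drop (n+1) = t.drop n := by simp
      rw [hdr]
      obtain ⟨h5, h6⟩ := hq3 t htl h2
      refine ⟨?_, ?_⟩
      · intro i hi
        rw [g2] at hi
        rcases Nat.lt_succ_iff_lt_or_eq.1 hi with h | h
        · rw [bitAt_cons_lt (by omega)]
          exact h5 i h
        · subst h
          have h8 : bitAt (d.nb t :: t) q.m = d.nb t := by
            conv_lhs => rw [← htl]
            exact bitAt_cons_length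
          rw [h8, hnb]
      · intro i hi
        rw [g2] at hi
        rw [g3]
        rcases Nat.lt_or_ge q.m i with h | h
        · have hi' : i = q.m + 1 := by omega
          subst hi'
          rw [stepO_τ_nk_new (d := d) htl, hnt]
        · rw [stepO_τ_nk (d := d) htl h]
          exact h6 i h
    · intro i hi
      rcases Nat.lt_or_ge q.m i with h | h
      · have hi' : i = q.m + 1 := by omega
        subst hi'
        exact g5
      · rw [g1.lam i h]; exact hq4 i h

end realize

section D6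

variable {δ : Ordinal.{0}} {ι : Type} {st : ι}

theorem tup_aux (p : SC δ) {s : List Bool} (hs : s.length = p.m) (i : ℕ) (hi : i < p.m)
    (ha : att (bitAt s i) i) : prec (if i + 1 ≤ p.m then p.o.τ s (i+1) else ⊤)
      (if par i ≤ p.m then p.o.τ s (par i) else ⊤) := by
  have h1 : i + 1 ≤ p.m := hi
  have h2 : par i ≤ p.m := (par_le i).trans hi.le
  simp only [h1, h2, if_true]
  exact p.v.tre s hs.le i (by omega) ha

/-- the tuple condition given by strings -/
def tupleOf (p : SC δ) (φ : ι → List Bool) (h : φ st = p.s) (hlen : ∀ j, (φ j).length = p.m) :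
    TC δ ι st where
  m := p.m
  b := fun j i => bitAt (φ j) i
  t := fun j i => if i ≤ p.m then p.o.τ (φ j) i else ⊤
  lam := p.lam
  tb := by
    intro j i
    split_ifs with hi
    · exact p.c.τ (φ j) i (hlen j).le (by rw [hlen j]; exact hi)
    · exact TB_top
  pr := fun j i hi ha => tup_aux p (hlen j) i hi ha
  dec := by
    intro i hi ha ht
    have h1 : i + 1 ≤ p.m := hi
    simp only [h1, if_true] at ht
    rw [h] at ha ht
    exact p.sh.dec i hi ha ht

/-- the requirement about tuples -/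
def D6 (D : Set (TC δ ι st)) (L : ℕ) : Set (SC δ) :=
  {p | L ≤ p.m ∧ ∀ φ : ι → List Bool, Function.Injective φ → ∀ (h : φ st = p.s)
    (hlen : ∀ j, (φ j).length = p.m), (∀ j, p.o.κ (φ j) p.m = ⊤) → tupleOf p φ h hlen ∈ D}

theorem D6_loc {D : Set (TC δ ι st)} (hD : TC.DO D) (L : ℕ) (p q : SC δ) (h : SC.eqv p q)
    (hp : p ∈ D6 D L) : q ∈ D6 D L := by
  have hm : q.m = p.m := h.m
  have ha : Agree q.m p.o q.o := h.ag
  obtain ⟨h1, h2⟩ := hp
  refine ⟨hm ▸ h1, fun φ hφ hst hlen htop => ?_⟩
  have h3 := h2 φ hφ (hst.trans h.s) (fun j => (hlen j).trans hm)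
    (fun j => by rw [← hm, ha.eκ (hlen j).le le_rfl]; exact htop j)
  refine hD.opn _ _ ?_ h3
  refine ⟨hm.ge, fun _ _ _ => rfl, ?_, ?_⟩
  · intro j i hi
    have hi' : i ≤ p.m := hi
    show (if i ≤ q.m then q.o.τ (φ j) i else ⊤) = if i ≤ p.m then p.o.τ (φ j) i else ⊤
    have hi'' : i ≤ q.m := by rw [hm]; exact hi'
    simp only [hi', hi'', if_true]
    exact (ha.eτ (hlen j).le (by rw [hlen j]; exact hi'')).symm
  · intro i hi
    exact (h.lam i (by rw [hm]; exact hi)).symm

theorem D6_dense [Finite ι] {D : Set (TC δ ι st)} (hδ : 0 < δ) (hD : TC.DO D) (L : ℕ) (p : SC δ) :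
    ∃ q, SC.le q p ∧ q ∈ D6 D L := by
  classical
  let ι' : Type := {s : List Bool // s.length = p.m ∧ p.o.κ s p.m = ⊤}
  have hfin : Finite ι' := by
    have h1 : {s : List Bool | s.length = p.m ∧ p.o.κ s p.m = ⊤}.Finite :=
      (List.finite_length_eq Bool p.m).subset (fun s hs => hs.1)
    exact h1.to_subtype
  let st' : ι' := ⟨p.s, p.sh.len, p.sh.top⟩
  let T0 : TC δ ι' st' := tupleOf p (fun s => s.1) rfl (fun s => s.2.1)
  obtain ⟨T1, hT1, hT1m⟩ := T0.ext_to (max p.m L) (le_max_left _ _)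
  obtain ⟨T, hT, hTD⟩ := TC.exists_all (ι := ι) (st := st) (st' := st') hD T1
  have hTT0 : TC.le T T0 := TC.le_trans _ _ _ hT hT1
  have hpT : p.m ≤ T.m := hTT0.m
  let Fb : List Bool → ℕ → Bool := fun s i =>
    if h : s.length = p.m ∧ p.o.κ s p.m = ⊤ then T.b ⟨s, h⟩ i else false
  let Ft : List Bool → ℕ → Tag := fun s i =>
    if h : s.length = p.m ∧ p.o.κ s p.m = ⊤ then T.t ⟨s, h⟩ i else ⊤
  have hFb : ∀ s (h : s.length = p.m ∧ p.o.κ s p.m = ⊤) i, Fb s i = T.b ⟨s, h⟩ i :=
    fun s h i => dif_pos h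
  have hFt : ∀ s (h : s.length = p.m ∧ p.o.κ s p.m = ⊤) i, Ft s i = T.t ⟨s, h⟩ i :=
    fun s h i => dif_pos h
  obtain ⟨n, hn⟩ := Nat.exists_eq_add_of_le hpT
  obtain ⟨q, q1, q2, q3, q4⟩ := realize hδ p Fb Ft T.lam T.m
    (by
      intro s i
      by_cases h : s.length = p.m ∧ p.o.κ s p.m = ⊤
      · rw [hFt s h]; exact T.tb _ _
      · have : Ft s i = ⊤ := dif_neg h
        rw [this]; exact TB_top)
    (by
      intro s h1 h2 i hi
      rw [hFb s ⟨h1, h2⟩]
      exact hTT0.b ⟨s, h1, h2⟩ i hi)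
    (by
      intro s h1 h2 i hi
      rw [hFt s ⟨h1, h2⟩]
      have h3 := hTT0.t ⟨s, h1, h2⟩ i hi
      rw [h3]
      show (if i ≤ p.m then p.o.τ s i else ⊤) = _
      simp [hi])
    (by
      intro s h1 h2 i hi ha
      rw [hFb s ⟨h1, h2⟩] at ha
      rw [hFt s ⟨h1, h2⟩, hFt s ⟨h1, h2⟩]
      exact T.pr _ i hi ha)
    (by
      intro i hi
      exact hTT0.lam i hi)
    (by
      intro i hi ha ht
      rw [hFb p.s ⟨p.sh.len, p.sh.top⟩] at ha
      rw [hFt p.s ⟨p.sh.len, p.sh.top⟩] at ht
      exact T.dec i hi ha ht) n hn.ge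
  have hqT : q.m = T.m := by omega
  refine ⟨q, q1, ?_, ?_⟩
  · have : L ≤ T1.m := by rw [hT1m]; exact le_max_right _ _
    have := hT.m
    omega
  · intro φ hφ hst hlen htop
    have hres : ∀ j, ((φ j).drop n).length = p.m ∧ p.o.κ ((φ j).drop n) p.m = ⊤ := by
      intro j
      have hl : ((φ j).drop n).length = p.m := by rw [List.length_drop, hlen j]; omega
      refine ⟨hl, ?_⟩
      have h3 := (top_suffix q.v (φ j) (List.drop_suffix n _) (hlen j).le
        (by rw [hlen j]; exact htop j)).1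
      rw [hl] at h3
      rw [← q1.ag.eκ hl.le le_rfl]
      exact h3
    let ψ : ι → ι' := fun j => ⟨(φ j).drop n, hres j⟩
    have hbit : ∀ j i, i < q.m → bitAt (φ j) i = T.b (ψ j) i := by
      intro j i hi
      rw [(q3 (φ j) (hlen j) (htop j)).1 i hi, hFb _ (hres j)]
    have htag : ∀ j i, i ≤ q.m → q.o.τ (φ j) i = T.t (ψ j) i := by
      intro j i hi
      rw [(q3 (φ j) (hlen j) (htop j)).2 i hi, hFt _ (hres j)]
    have hψ : Function.Injective ψ := by
      intro j j' hjj
      apply hφ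
      have h1 : ∀ i, i < q.m → bitAt (φ j) i = bitAt (φ j') i := by
        intro i hi
        rw [hbit j i hi, hbit j' i hi, hjj]
      have h2 : rs (fun i => bitAt (φ j') i) (φ j).length = φ j :=
        rs_of_bits _ (fun i hi => h1 i (by rw [← hlen j]; exact hi))
      have h3 : rs (fun i => bitAt (φ j') i) (φ j').length = φ j' :=
        rs_of_bits _ (fun i hi => rfl)
      have h4 : rs (fun i => bitAt (φ j') i) (φ j).length =
          rs (fun i => bitAt (φ j') i) (φ j').length := by rw [hlen j, hlen j']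
      exact (h2.symm.trans h4).trans h3
    have hψst : ψ st = st' := by
      apply Subtype.ext
      show (φ st).drop n = p.s
      rw [hst]
      apply drop_suffix_of _ _ _ q1.s
      rw [q.sh.len, p.sh.len]
      omega
    refine hD.opn _ _ ?_ (hTD ψ hψ hψst)
    refine ⟨hqT.ge, ?_, ?_, ?_⟩
    · intro j i hi
      exact hbit j i (by rw [hqT]; exact hi)
    · intro j i hi
      have hi' : i ≤ q.m := by rw [hqT]; exact hi
      show (if i ≤ q.m then q.o.τ (φ j) i else ⊤) = T.t (ψ j) i
      simp only [hi', if_true]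
      exact htag j i hi'
    · intro i hi
      exact q4 i (by rw [hqT]; exact hi)

end D6

end Pool.Agent.H654R2
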